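import Pool.Agent.H14.SparseK

/-!
# Definitions for the gap between the exponents of `k`-SAT and `(2k-2)`-SAT
-/

set_option autoImplicit false

namespace Pool.Agent.H46.SK

open Finset Pool.Agent.H14.ETH

/-! ### Stages -/

/-- The parameters of one stage of the sparsification: a weight system whose unit clauses have
weight `3 s / 4` and whose other weights cost at most `γ` per variable. -/
structure Stg (k : ℕ) (s γ : ℝ) where
  W : WS k
  top : W.a k = 0
  a1 : W.a 1 = 3 * s / 4
  η : ℝ
  κ : ℝ
  η_pos : 0 < η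
  η_le_κ : η ≤ κ
  charge1 : ∀ p, 1 ≤ p → p < k → η ≤ W.net p ∧ W.net p ≤ κ
  charge2 : ∀ p, 1 ≤ p → p < k → η ≤ W.th p * W.net p ∧ W.th p * W.net p ≤ κ
  small : ∑ j ∈ Finset.Ico 2 k, W.a j * ((2 * W.th (j - 1) : ℕ) : ℝ) ≤ γ

/-- Clauses per variable at the end of a stage. -/
def Lam {k : ℕ} (W : WS k) : ℕ := 1 + ∑ c ∈ Finset.Ico 2 (k + 1), W.th (c - 1)

/-- The invariant of a stage: `𝒞` is the family, `𝒩` the subfamily of marked clauses. -/
structure MInv {k : ℕ} (W : WS k) (n : ℕ) (𝒞 𝒩 : Fam) : Prop where
  ov : Over n 𝒞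
  anti : Anti 𝒞
  size : ∀ C ∈ 𝒞, 1 ≤ C.card ∧ C.card ≤ k
  sub : 𝒩 ⊆ 𝒞
  units : ∀ C ∈ 𝒞, C.card = 1 → C ∈ 𝒩
  wi : W.Inv n 𝒩

/-- `𝒟` refines `𝒞`: every clause of `𝒞` contains one of `𝒟`, and every clause of `𝒟` is a clause
of `𝒞` or has less than `k` literals. -/
def Ref (k : ℕ) (𝒞 𝒟 : Fam) : Prop :=
  (∀ C ∈ 𝒞, ∃ D ∈ 𝒟, D ⊆ C) ∧ (∀ D ∈ 𝒟, D ∈ 𝒞 ∨ D.card < k)

/-! ### Critical clauses -/

/-- The literal of `x` is the only true literal of `D`. -/
def Crit (v : ℕ → Bool) (x : ℕ) (D : Finset Lit) : Prop :=
  D.filter (fun l => v l.1 = l.2) = {(x, v x)}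

open Classical in
/-- The variables that have a new critical clause, of size at least two. -/
noncomputable def critNew (v : ℕ → Bool) (n : ℕ) (𝒞 𝒟 : Fam) : Finset ℕ :=
  (Finset.range n).filter (fun x => ∃ D ∈ 𝒟, D ∉ 𝒞 ∧ 2 ≤ D.card ∧ Crit v x D)

/-- The variables whose true literal is a unit clause. -/
def unitT (v : ℕ → Bool) (n : ℕ) (𝒟 : Fam) : Finset ℕ :=
  (Finset.range n).filter (fun x => ({(x, v x)} : Finset Lit) ∈ 𝒟)

/-! ### The choice of the items -/

/-- The parity of the bits of `x` in the mask `b`. -/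
def chi : List Bool → ℕ → Bool
  | [], _ => false
  | c :: b, x => xor (c && decide (x % 2 = 1)) (chi b (x / 2))

/-- A constant plus a parity. -/
def par : List Bool → ℕ → Bool
  | [], _ => false
  | c :: b, x => xor c (chi b x)

/-- `t` successive selections, with masks of length `m` (constant included). -/
def chunkSel (m : ℕ) : ℕ → List Bool → List ℕ → List ℕ
  | 0, _, X => X
  | t + 1, b, X => chunkSel m t (b.drop m) (X.filter (fun x => par (b.take m) x))

/-- The items: the selected variables which are not in unit clauses. -/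
def itemsL (n t : ℕ) (b : List Bool) (L : LFam) : List ℕ :=
  (chunkSel (Nat.size n + 1) t b (List.range n)).filter (fun x => !(hasVar x (unitsL L)))

/-! ### The reduction at the leaves -/

/-- Remove all items from the clauses that contain at least two literals of items. -/
def trimL (G : List ℕ) (K : LFam) : LFam :=
  K.map (fun C => bif decide (2 ≤ (C.filter (fun l => memN l.1 G)).length)
    then C.filter (fun l => !(memN l.1 G)) else C)

/-- The eliminated variables. -/
def goneX (G : List ℕ) (L : LFam) : List ℕ := G ++ (unitsL L).map (fun l => l.1)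

/-- The reduced formula: units are assigned, clauses with two items are trimmed, the items are
eliminated. -/
def reduceX (G : List ℕ) (n : ℕ) (L : LFam) : ℕ × LFam :=
  (rankL (goneX G L) n, renL (goneX G L) (dedupF ((elimL G (trimL G (coreL L))).map dedupC)))

/-! ### Marked lists -/

/-- Remove the clauses subsumed by `Q`. -/
def cutL (Q L : LFam) : LFam := L.filter (fun C => !(Q.any (fun P => subl P C)))

/-- Search for sunflowers. -/
def hitsM (k : ℕ) (th : ℕ → ℕ) (O N : LFam) : List (ℕ × List Lit) :=
  hitsAll th (rulesList k) (O ++ N)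

/-- The first branch. -/
def stepMA (k : ℕ) (th : ℕ → ℕ) (O N : LFam) : LFam × LFam :=
  match hitsM k th O N with
  | [] => (O, N)
  | x :: _ => (cutL [x.2] O, addL [x.2] N)

/-- The second branch. -/
def stepMB (k : ℕ) (th : ℕ → ℕ) (O N : LFam) : LFam × LFam :=
  match hitsM k th O N with
  | [] => (O, N)
  | x :: _ => (cutL (petalsL x.1 x.2 (O ++ N)) O, addL (petalsL x.1 x.2 (O ++ N)) N)

/-- The clauses that are not units. -/
def nonuL (L : LFam) : LFam := L.filter (fun C => !(decide (C.length = 1)))

/-- The unit clauses. -/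
def unitL (L : LFam) : LFam := L.filter (fun C => decide (C.length = 1))

/-- The invariant of the marked lists. -/
structure GoodM {k : ℕ} (W : WS k) (n : ℕ) (O N : LFam) : Prop where
  linv : LInv (O ++ N)
  inv : MInv W n (toF (O ++ N)) (toF N)
  nt : NT (toF (O ++ N))

/-! ### Acceptance -/

/-- The tree below `N` has an accepting leaf. -/
inductive Acc {Node : Type} (isLeaf : Node → Bool) (childA childB : Node → Node)
    (sat : Node → Prop) : Node → Prop
  | leaf {N : Node} : isLeaf N = true → sat N → Acc isLeaf childA childB sat N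
  | left {N : Node} : isLeaf N = false → Acc isLeaf childA childB sat (childA N) →
      Acc isLeaf childA childB sat N
  | right {N : Node} : isLeaf N = false → Acc isLeaf childA childB sat (childB N) →
      Acc isLeaf childA childB sat N

end Pool.Agent.H46.SK
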