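import Pool.Agent.H46.SK.SND

/-!
# Module CPA: following a satisfying assignment through a stage

`exists_end`: induction on a natural number `j ≥ (bound - wgt (toF M)) / η` where `η = (S i).η > 0`: by `MInv.wgt_le` and `num_one_le` (the family is live as `v`
satisfies it, `not_satisfiable_of_dead`) `wgt (S i).W.a (toF M) ≤ 3 s / 4 * n + γ i * n` for all live families of the stage.  If `hitsM = []` take the node itself.  Otherwise
`v` satisfies one of the two children (`GoodM.step`), whose weight is larger by at least `η`; `P.leaf (nd0 n i (O, M)) = false` (not dead, `hits ≠ []`), so acceptance of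
the child implies acceptance of the node (`Acc.left`, `Acc.right`, `chA`, `chB` computed with `ix = min i I = i`).  `Ref.trans`.
`acc_end_left`, `acc_end_right`: at the end of a stage `i ≥ 1`.  `acc_zero`: at the end of stage `0`, a leaf with formula `reduceX [] n (O ++ M)` which is satisfiable by
`reduceX_complete` with `G = []` (the hypothesis `hG` is void).
-/

set_option autoImplicit false

namespace Pool.Agent.H46.SK.Pars

open Finset Pool.Agent.H14.ETH

variable {k : ℕ} {s : ℝ} (P : Pars k s)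

theorem cpa_ndead {v : ℕ → Bool} {L : LFam} (hv : satBy v (toF L)) : ¬ Dead (toF L) :=
  fun hd => not_satisfiable_of_dead hd ((satisfiable_iff L).2 ⟨v, hv⟩)

theorem cpa_live {v : ℕ → Bool} {L : LFam} (hL : LInv L) (hv : satBy v (toF L)) :
    deadL L = false := by
  by_contra hc
  have : deadL L = true := by simpa using hc
  exact cpa_ndead hv ((deadL_iff hL).1 this)

theorem cpa_ix {i n : ℕ} (hi : i ≤ P.I) (X : LFam × LFam) : P.ix (nd0 n i X) = i :=
  min_eq_left hi

theorem cpa_hits {i n : ℕ} (hi : i ≤ P.I) (O M : LFam) :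
    P.hits (nd0 n i (O, M)) = hitsM k (P.S i).W.th O M := by
  unfold hits
  rw [cpa_ix P hi]
  rfl

theorem cpa_isEmpty {i n : ℕ} (hi : i ≤ P.I) {O M : LFam}
    (he : hitsM k (P.S i).W.th O M ≠ []) : (P.hits (nd0 n i (O, M))).isEmpty = false := by
  rw [cpa_hits P hi]
  cases h : hitsM k (P.S i).W.th O M with
  | nil => exact absurd h he
  | cons a l => rfl

theorem cpa_leaf_step {i n : ℕ} (hi : i ≤ P.I) {v : ℕ → Bool} {O M : LFam}
    (h : GoodM (P.S i).W n O M) (hv : satBy v (toF (O ++ M)))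
    (he : hitsM k (P.S i).W.th O M ≠ []) : P.leaf (nd0 n i (O, M)) = false := by
  have h1 := cpa_isEmpty P (n := n) hi he
  have h2 := cpa_live h.linv hv
  unfold leaf
  rw [h1]
  show (bif decide (0 = 0) then deadL (O ++ M) || (false && decide (i = 0)) else _) = false
  rw [h2]
  simp

theorem cpa_chA {i n : ℕ} (hi : i ≤ P.I) {O M : LFam}
    (he : hitsM k (P.S i).W.th O M ≠ []) :
    P.chA (nd0 n i (O, M)) = nd0 n i (stepMA k (P.S i).W.th O M) := by
  have h1 := cpa_isEmpty P (n := n) hi he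
  unfold chA
  rw [h1, cpa_ix P hi]
  rfl

theorem cpa_chB {i n : ℕ} (hi : i ≤ P.I) {O M : LFam}
    (he : hitsM k (P.S i).W.th O M ≠ []) :
    P.chB (nd0 n i (O, M)) = nd0 n i (stepMB k (P.S i).W.th O M) := by
  have h1 := cpa_isEmpty P (n := n) hi he
  unfold chB
  rw [h1, cpa_ix P hi]
  rfl

theorem cpa_aux (hs : 0 < s) {i n : ℕ} (hi : i ≤ P.I) {v : ℕ → Bool} : ∀ (j : ℕ) (O M : LFam),
    GoodM (P.S i).W n O M → satBy v (toF (O ++ M)) →
    3 * s / 4 * n + P.γ i * n - wgt (P.S i).W.a (toF M) ≤ j * (P.S i).η →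
    ∃ O' M' : LFam, GoodM (P.S i).W n O' M' ∧ hitsM k (P.S i).W.th O' M' = [] ∧
      satBy v (toF (O' ++ M')) ∧ Ref k (toF (O ++ M)) (toF (O' ++ M')) ∧
      (P.Ac (nd0 n i (O', M')) → P.Ac (nd0 n i (O, M))) := by
  intro j
  induction j with
  | zero =>
    intro O M h hv hj
    by_cases he : hitsM k (P.S i).W.th O M = []
    · exact ⟨O, M, h, he, hv, Ref.refl _ _, id⟩
    · exfalso
      obtain ⟨hA, hB, _, _, hiff, x, y, hx, _, hy, _, _, hwA, hwB⟩ := h.step (P.S i) he
      have hη := (P.S i).η_pos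
      have key : ∀ O' M' : LFam, GoodM (P.S i).W n O' M' → satBy v (toF (O' ++ M')) →
          wgt (P.S i).W.a (toF M') ≤ 3 * s / 4 * n + P.γ i * n := by
        intro O' M' h' hv'
        have h1 := MInv.wgt_le (P.S i) h'.inv
        have h2 : (num (toF (O' ++ M')) 1 : ℝ) ≤ n := by
          exact_mod_cast num_one_le h'.inv.ov (cpa_ndead hv')
        have h3 : 3 * s / 4 * num (toF (O' ++ M')) 1 ≤ 3 * s / 4 * n :=
          mul_le_mul_of_nonneg_left h2 (by positivity)
        linarith
      rw [Nat.cast_zero, zero_mul] at hj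
      rcases (hiff v).1 hv with hv' | hv'
      · have := key _ _ hA hv'
        linarith
      · have := key _ _ hB hv'
        linarith
  | succ j ih =>
    intro O M h hv hj
    by_cases he : hitsM k (P.S i).W.th O M = []
    · exact ⟨O, M, h, he, hv, Ref.refl _ _, id⟩
    · obtain ⟨hA, hB, hRA, hRB, hiff, x, y, hx, _, hy, _, _, hwA, hwB⟩ := h.step (P.S i) he
      have hl := cpa_leaf_step P (n := n) hi h hv he
      push_cast at hj
      rcases (hiff v).1 hv with hv' | hv'
      · obtain ⟨O', M', h1, h2, h3, h4, h5⟩ := ih _ _ hA hv' (by linarith)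
        refine ⟨O', M', h1, h2, h3, hRA.trans h4, fun ha => ?_⟩
        refine Acc.left hl ?_
        rw [cpa_chA P hi he]
        exact h5 ha
      · obtain ⟨O', M', h1, h2, h3, h4, h5⟩ := ih _ _ hB hv' (by linarith)
        refine ⟨O', M', h1, h2, h3, hRB.trans h4, fun ha => ?_⟩
        refine Acc.right hl ?_
        rw [cpa_chB P hi he]
        exact h5 ha

theorem exists_end (hs : 0 < s) {i n : ℕ} (hi : i ≤ P.I) {v : ℕ → Bool} {O M : LFam}
    (h : GoodM (P.S i).W n O M) (hv : satBy v (toF (O ++ M))) :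
    ∃ O' M' : LFam, GoodM (P.S i).W n O' M' ∧ hitsM k (P.S i).W.th O' M' = [] ∧
      satBy v (toF (O' ++ M')) ∧ Ref k (toF (O ++ M)) (toF (O' ++ M')) ∧
      (P.Ac (nd0 n i (O', M')) → P.Ac (nd0 n i (O, M))) := by
  obtain ⟨j, hj⟩ := Archimedean.arch
    (3 * s / 4 * n + P.γ i * n - wgt (P.S i).W.a (toF M)) (P.S i).η_pos
  rw [nsmul_eq_mul] at hj
  exact cpa_aux P hs hi j O M h hv hj

theorem acc_end_left {i n : ℕ} (h1 : 1 ≤ i) (hi : i ≤ P.I) {v : ℕ → Bool} {O M : LFam}
    (h : GoodM (P.S i).W n O M) (hv : satBy v (toF (O ++ M)))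
    (he : hitsM k (P.S i).W.th O M = []) (ha : P.Ac (nd1 n i (O ++ M) [])) :
    P.Ac (nd0 n i (O, M)) := by
  have h2 : P.hits (nd0 n i (O, M)) = [] := by rw [cpa_hits P hi, he]
  have h3 := cpa_live h.linv hv
  have h4 : decide (i = 0) = false := by simpa using (by omega : i ≠ 0)
  refine Acc.left ?_ ?_
  · unfold leaf
    rw [h2]
    show (bif decide (0 = 0) then deadL (O ++ M) || (true && decide (i = 0)) else _) = false
    rw [h3, h4]
    simp
  · have : P.chA (nd0 n i (O, M)) = nd1 n i (O ++ M) [] := by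
      unfold chA
      rw [h2]
      rfl
    rw [this]
    exact ha

theorem acc_end_right {i n : ℕ} (hi : i + 1 ≤ P.I) {v : ℕ → Bool} {O M : LFam}
    (h : GoodM (P.S (i + 1)).W n O M) (hv : satBy v (toF (O ++ M)))
    (he : hitsM k (P.S (i + 1)).W.th O M = [])
    (ha : P.Ac (nd0 n i (nonuL (O ++ M), unitL (O ++ M)))) : P.Ac (nd0 n (i + 1) (O, M)) := by
  have h2 : P.hits (nd0 n (i + 1) (O, M)) = [] := by rw [cpa_hits P hi, he]
  have h3 := cpa_live h.linv hv
  refine Acc.right ?_ ?_
  · unfold leaf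
    rw [h2]
    show (bif decide (0 = 0) then deadL (O ++ M) || (true && decide (i + 1 = 0)) else _) = false
    rw [h3]
    simp
  · have : P.chB (nd0 n (i + 1) (O, M)) = nd0 n i (nonuL (O ++ M), unitL (O ++ M)) := by
      unfold chB
      rw [h2]
      rfl
    rw [this]
    exact ha

theorem acc_zero {n : ℕ} {v : ℕ → Bool} {O M : LFam}
    (h : GoodM (P.S 0).W n O M) (hv : satBy v (toF (O ++ M)))
    (he : hitsM k (P.S 0).W.th O M = []) (hU : n ≤ P.uq * num (toF (O ++ M)) 1) :
    P.Ac (nd0 n 0 (O, M)) := by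
  have h2 : P.hits (nd0 n 0 (O, M)) = [] := by rw [cpa_hits P (Nat.zero_le _), he]
  have h3 := cpa_live h.linv hv
  refine Acc.leaf ?_ ?_
  · unfold leaf
    rw [h2]
    show (bif decide (0 = 0) then deadL (O ++ M) || (true && decide (0 = 0)) else _) = true
    simp
  · have h4 : decide (n ≤ P.uq * (unitL (O ++ M)).length) = true := by
      rw [length_unitL h.linv]
      exact decide_eq_true hU
    have : P.fml (nd0 n 0 (O, M)) = reduceX [] n (O ++ M) := by
      unfold fml
      show (bif decide (0 = 0) then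
        (bif !(deadL (O ++ M)) && decide (n ≤ P.uq * (unitL (O ++ M)).length) then
          reduceX [] n (O ++ M) else (0, [[]])) else _) = _
      rw [h3, h4]
      simp
    rw [this]
    refine reduceX_complete h.linv h.inv.ov h.inv.anti (cpa_ndead hv) hv ?_
    rintro D _ ⟨l, _, m, _, _, hl, _⟩
    exact absurd hl List.not_mem_nil

end Pool.Agent.H46.SK.Pars
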