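import Pool.Agent.H46.SK.SND

/-!
# Module CPB: acceptance of the nodes of modes 1 and 2

* `acc_bits`: `nd1 n i L (c :: b)` is a child of `nd1 n i L b` if `b.length < bits i n` (`ix = min i I = i`; mode 1 is never a leaf); induction on `b`.
* `acc_sel`: induction on `R` (for all `G`, `c`): if `R = x :: R'`: `x ∈ bad`: then `c ≥ 1` and the first child is `nd2 n i L R' G (c - 1)`; `x ∉ bad`: the second child
  `nd2 n i L R' (x :: G) c`.  `R = []`: a leaf with formula `reduceX G n L`.
* `acc_items`: combine: `acc_bits` for the full list `b`, then `chA (nd1 n i L b) = start i n L b = nd2 n i L X [] (X.length / 2 ^ w)` as the test is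
  passed, then `acc_sel` with `c = X.length / 2 ^ w ≥ bad.card` (`Nat.le_div_iff_mul_le`); the final list `G'` of good items has the elements of `X \ bad`;
  `reduceX_complete`.
-/

set_option autoImplicit false

namespace Pool.Agent.H46.SK.Pars

open Finset Pool.Agent.H14.ETH

variable {k : ℕ} {s : ℝ} (P : Pars k s)

theorem CPB_leaf1 (n i : ℕ) (L : LFam) (b : List Bool) : P.leaf (nd1 n i L b) = false := rfl

theorem CPB_chA1 {n i : ℕ} (hi : i ≤ P.I) {L : LFam} {b : List Bool}
    (hb : b.length < P.bits i n) : P.chA (nd1 n i L b) = nd1 n i L (true :: b) := by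
  have h1 : P.ix (nd1 n i L b) = i := min_eq_left hi
  have h2 : (b.length < P.bits (P.ix (nd1 n i L b)) n) := by rw [h1]; exact hb
  have : P.chA (nd1 n i L b) = bif decide (b.length < P.bits (P.ix (nd1 n i L b)) n) then
      nd1 n i L (true :: b) else P.start (P.ix (nd1 n i L b)) n L b := rfl
  rw [this, decide_eq_true h2]
  rfl

theorem CPB_chB1 {n i : ℕ} (hi : i ≤ P.I) {L : LFam} {b : List Bool}
    (hb : b.length < P.bits i n) : P.chB (nd1 n i L b) = nd1 n i L (false :: b) := by
  have h1 : P.ix (nd1 n i L b) = i := min_eq_left hi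
  have h2 : (b.length < P.bits (P.ix (nd1 n i L b)) n) := by rw [h1]; exact hb
  have : P.chB (nd1 n i L b) = bif decide (b.length < P.bits (P.ix (nd1 n i L b)) n) then
      nd1 n i L (false :: b) else ndF := rfl
  rw [this, decide_eq_true h2]
  rfl

theorem CPB_chA1' {n i : ℕ} (hi : i ≤ P.I) {L : LFam} {b : List Bool}
    (hb : ¬ b.length < P.bits i n) : P.chA (nd1 n i L b) = P.start i n L b := by
  have h1 : P.ix (nd1 n i L b) = i := min_eq_left hi
  have h2 : ¬ (b.length < P.bits (P.ix (nd1 n i L b)) n) := by rw [h1]; exact hb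
  have : P.chA (nd1 n i L b) = bif decide (b.length < P.bits (P.ix (nd1 n i L b)) n) then
      nd1 n i L (true :: b) else P.start (P.ix (nd1 n i L b)) n L b := rfl
  rw [this, decide_eq_false h2, h1]
  rfl

theorem acc_bits {i n : ℕ} (hi : i ≤ P.I) {L : LFam} {b : List Bool}
    (hb : b.length ≤ P.bits i n) (ha : P.Ac (nd1 n i L b)) : P.Ac (nd1 n i L []) := by
  induction b with
  | nil => exact ha
  | cons c b ih =>
    have hb' : b.length < P.bits i n := by
      simpa [Nat.succ_le_iff] using hb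
    refine ih hb'.le ?_
    cases c with
    | true => exact Acc.left (P.CPB_leaf1 n i L b) (by rw [P.CPB_chA1 hi hb']; exact ha)
    | false => exact Acc.right (P.CPB_leaf1 n i L b) (by rw [P.CPB_chB1 hi hb']; exact ha)

theorem acc_sel {i n : ℕ} {L : LFam} (bad : Finset ℕ) :
    ∀ (R G : List ℕ) (c : ℕ), R.Nodup → (bad ∩ R.toFinset).card ≤ c →
      (∀ G' : List ℕ, (∀ x, x ∈ G' ↔ (x ∈ G ∨ (x ∈ R ∧ x ∉ bad))) →
        Satisfiable (reduceX G' n L).2) → P.Ac (nd2 n i L R G c) := by
  intro R
  induction R with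
  | nil =>
    intro G c _ _ h
    exact Acc.leaf rfl (h G (by simp))
  | cons x R ih =>
    intro G c hnd hc h
    rw [List.nodup_cons] at hnd
    obtain ⟨hx, hnd⟩ := hnd
    by_cases hb : x ∈ bad
    · have hcard : (bad ∩ (x :: R).toFinset).card = (bad ∩ R.toFinset).card + 1 := by
        rw [List.toFinset_cons, Finset.inter_insert_of_mem hb, Finset.card_insert_of_notMem]
        simp [hx]
      have hc1 : (bad ∩ R.toFinset).card ≤ c - 1 := by omega
      have hc0 : c ≠ 0 := by omega
      refine Acc.left rfl ?_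
      have e : P.chA (nd2 n i L (x :: R) G c) = nd2 n i L R G (c - 1) := by
        have : P.chA (nd2 n i L (x :: R) G c) = bif decide (c = 0) then ndF else
          nd2 n i L R G (c - 1) := rfl
        rw [this, decide_eq_false hc0]
        rfl
      rw [e]
      refine ih G (c - 1) hnd hc1 (fun G' hG' => h G' (fun z => ?_))
      rw [hG' z, List.mem_cons]
      constructor
      · rintro (h1 | ⟨h1, h2⟩)
        · exact Or.inl h1
        · exact Or.inr ⟨Or.inr h1, h2⟩
      · rintro (h1 | ⟨h1 | h1, h2⟩)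
        · exact Or.inl h1
        · exact absurd hb (h1 ▸ h2)
        · exact Or.inr ⟨h1, h2⟩
    · have hcard : (bad ∩ R.toFinset).card ≤ c := by
        refine le_trans (Finset.card_le_card ?_) hc
        rw [List.toFinset_cons]
        exact Finset.inter_subset_inter_left (Finset.subset_insert _ _)
      refine Acc.right rfl ?_
      have e : P.chB (nd2 n i L (x :: R) G c) = nd2 n i L R (x :: G) c := rfl
      rw [e]
      refine ih (x :: G) c hnd hcard (fun G' hG' => h G' (fun z => ?_))
      rw [hG' z, List.mem_cons, List.mem_cons]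
      constructor
      · rintro ((h1 | h1) | ⟨h1, h2⟩)
        · exact Or.inr ⟨Or.inl h1, by rw [h1]; exact hb⟩
        · exact Or.inl h1
        · exact Or.inr ⟨Or.inr h1, h2⟩
      · rintro (h1 | ⟨h1 | h1, h2⟩)
        · exact Or.inl (Or.inr h1)
        · exact Or.inl (Or.inl h1)
        · exact Or.inr ⟨h1, h2⟩

theorem CPB_nodup_items (n t : ℕ) (b : List Bool) (L : LFam) : (itemsL n t b L).Nodup := by
  unfold itemsL
  exact ((List.nodup_range (n := n)).sublist (chunkSel_sublist _ _ _ _)).filter _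

theorem acc_items {i n : ℕ} (hi : i ≤ P.I) {L : LFam} (hL : Fine k n L) {v : ℕ → Bool}
    (hv : satBy v (toF L)) {b : List Bool} (hb : b.length = P.t i * (Nat.size n + 1))
    (hn : n ≤ 4 * 2 ^ P.t i * (itemsL n (P.t i) b L).length)
    {bad : Finset ℕ} (hbad : bad ⊆ (itemsL n (P.t i) b L).toFinset)
    (hbc : 2 ^ P.w * bad.card ≤ (itemsL n (P.t i) b L).length)
    (hG : ∀ D ∈ toF L, (∃ l ∈ D, ∃ m ∈ D, l ≠ m ∧
        l.1 ∈ (itemsL n (P.t i) b L).toFinset \ bad ∧
        m.1 ∈ (itemsL n (P.t i) b L).toFinset \ bad) →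
      ∃ l ∈ D, v l.1 = l.2 ∧ l.1 ∉ (itemsL n (P.t i) b L).toFinset \ bad) :
    P.Ac (nd1 n i L []) := by
  have hbits : b.length = P.bits i n := hb
  refine P.acc_bits hi hbits.le ?_
  refine Acc.left (P.CPB_leaf1 n i L b) ?_
  rw [P.CPB_chA1' hi (by omega)]
  have e : P.start i n L b = nd2 n i L (itemsL n (P.t i) b L) []
      ((itemsL n (P.t i) b L).length / 2 ^ P.w) := by
    unfold start
    rw [decide_eq_true hn]
    rfl
  rw [e]
  refine P.acc_sel bad _ _ _ (CPB_nodup_items _ _ _ _) ?_ ?_
  · refine le_trans (Finset.card_le_card Finset.inter_subset_left) ?_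
    rw [Nat.le_div_iff_mul_le (pow_pos (by norm_num) _), mul_comm]
    exact hbc
  · intro G' hG'
    have hmem : ∀ x, x ∈ G' ↔ x ∈ (itemsL n (P.t i) b L).toFinset \ bad := by
      intro x
      rw [hG' x]
      simp
    refine reduceX_complete hL.linv hL.ov hL.anti hL.live hv ?_
    rintro D hD ⟨l, hl, m, hm, hne, h1, h2⟩
    obtain ⟨l', hl', h3, h4⟩ := hG D hD ⟨l, hl, m, hm, hne, (hmem _).1 h1, (hmem _).1 h2⟩
    exact ⟨l', hl', h3, fun h => h4 ((hmem _).1 h)⟩

end Pool.Agent.H46.SK.Pars
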