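import Pool.Agent.H46.SK.CPA
import Pool.Agent.H46.SK.CPB

/-!
# Module CPC: completeness

`descend`: induction on `i`.  Start at stage `i` with `(O, M)`; `exists_end` gives `(O', M')`; put `F i = toF (O' ++ M')`.  If the node is not accepted, then the end node is not accepted.
For `i = 0`: `F j = toF (O' ++ M')` for all `j`; `acc_zero` gives `uq * U < n`.  For `i + 1`: `acc_end_left`: `nd1 n (i+1) (O' ++ M') []` is not accepted; `acc_end_right`: the
start of stage `i` with `(nonuL .., unitL ..)` (`GoodM.restart`, same `toF`) is not accepted, induction hypothesis, and redefine `F (i + 1)`.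
`complete`: suppose the start of stage `I` is not accepted; take `F` from `descend`.  It is a `Chain`, and the degree bounds hold by `GoodM.noHit` with `(c, p) = (q + 1, q)`, so
`P.pig` applies.  (a) `ε / 2 ^ (k-2) * n ≤ #unitT v n (F 0) ≤ num (F 0) 1 < n / uq`, contradicting `hu` (`n > 0`).  (b) `#critNew v n (F (i+1)) (F i) < ε n` for
some `i < I`: `unitT v n (F i) ⊆ unitT v n (F 0)` (`Chain.crit_down` for the clause `{(x, v x)}`, the clause found is nonempty), so `#unitT v n (F i) ≤ n / uq`; `exists_items`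
with `L = O' ++ M'` of stage `i + 1`, `𝒟 = F i`, `Λ = Lam (S i).W`, `u = 1 / uq` (`hεu`, `ht`), then `acc_items`: `nd1 n (i+1) L []` is accepted, a contradiction.
-/

set_option autoImplicit false

namespace Pool.Agent.H46.SK.Pars

open Finset Pool.Agent.H14.ETH

variable {k : ℕ} {s : ℝ} (P : Pars k s)

/-- The result of following `v` from stage `i` on, without acceptance. -/
structure Run (n : ℕ) (v : ℕ → Bool) (i : ℕ) (F : ℕ → Fam) : Prop where
  chain : Chain k n v i F
  fine : ∀ j ≤ i, ∀ D ∈ F j, 1 ≤ D.card ∧ D.card ≤ k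
  deg : ∀ j ≤ i, ∀ q, 1 ≤ q → q < k → ∀ l : Lit, dg (F j) (q + 1) {l} < (P.S j).W.th q
  card : ∀ j ≤ i, (F j).card ≤ Lam (P.S j).W * n
  rej : ∀ j < i, ∃ L : LFam, Fine k n L ∧ toF L = F (j + 1) ∧ ¬ P.Ac (nd1 n (j + 1) L [])
  units : P.uq * num (F 0) 1 < n

theorem CPC_live {v : ℕ → Bool} {𝒞 : Fam} (h : satBy v 𝒞) : ¬ Dead 𝒞 := by
  rintro ⟨x, b, h1, h2⟩
  obtain ⟨l, hl, hl'⟩ := h _ h1
  obtain ⟨m, hm, hm'⟩ := h _ h2
  rw [mem_singleton] at hl hm
  subst hl hm
  simp only at hl' hm'
  rw [hl'] at hm'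
  cases b <;> simp at hm'

theorem CPC_deg {n i : ℕ} {O M : LFam} (h : GoodM (P.S i).W n O M)
    (he : hitsM k (P.S i).W.th O M = []) :
    ∀ q, 1 ≤ q → q < k → ∀ l : Lit, dg (toF (O ++ M)) (q + 1) {l} < (P.S i).W.th q := by
  intro q h1 h2 l
  exact h.noHit he (q + 1) q h1 (by omega) (by omega) {l} (by simp)

theorem CPC_fine {n i : ℕ} {v : ℕ → Bool} {O M : LFam} (h : GoodM (P.S i).W n O M)
    (hv : satBy v (toF (O ++ M))) : Fine k n (O ++ M) where
  linv := h.linv
  ov := h.inv.ov
  anti := h.inv.anti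
  size := h.inv.size
  nt := h.nt
  live := CPC_live hv

theorem descend (hk : 3 ≤ k) (hs : 0 < s) {n : ℕ} {v : ℕ → Bool} : ∀ (i : ℕ), i ≤ P.I →
    ∀ O M : LFam, GoodM (P.S i).W n O M → satBy v (toF (O ++ M)) → ¬ P.Ac (nd0 n i (O, M)) →
    ∃ F : ℕ → Fam, P.Run n v i F ∧ Ref k (toF (O ++ M)) (F i) := by
  intro i
  induction i with
  | zero =>
    intro hi O M h hv hna
    obtain ⟨O', M', hG, he, hv', href, hacc⟩ := P.exists_end hs hi h hv
    refine ⟨fun _ => toF (O' ++ M'), ?_, href⟩
    refine ⟨⟨?_, ?_, ?_, ?_⟩, ?_, ?_, ?_, ?_, ?_⟩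
    · intro j _; exact hG.inv.ov
    · intro j _; exact hG.inv.anti
    · intro j _; exact hv'
    · intro j hj; omega
    · intro j _; exact hG.inv.size
    · intro j hj
      obtain rfl : j = 0 := by omega
      exact P.CPC_deg hG he
    · intro j hj
      obtain rfl : j = 0 := by omega
      exact hG.inv.card_le (CPC_live hv') (hG.noHit he)
    · intro j hj; omega
    · by_contra hc
      exact hna (hacc (P.acc_zero hG hv' he (not_lt.1 hc)))
  | succ i ih =>
    intro hi O M h hv hna
    obtain ⟨O', M', hG, he, hv', href, hacc⟩ := P.exists_end hs hi h hv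
    have h1 : ¬ P.Ac (nd1 n (i + 1) (O' ++ M') []) := fun ha =>
      hna (hacc (P.acc_end_left (by omega) hi hG hv' he ha))
    have h2 : ¬ P.Ac (nd0 n i (nonuL (O' ++ M'), unitL (O' ++ M'))) := fun ha =>
      hna (hacc (P.acc_end_right hi hG hv' he ha))
    obtain ⟨r1, r2, -⟩ := hG.restart (by omega : 2 ≤ k) (P.S i).top
    obtain ⟨F0, hR, hRef⟩ := ih (by omega) _ _ r1 (by rw [r2]; exact hv') h2
    have f1 : ∀ j, j ≤ i → Function.update F0 (i + 1) (toF (O' ++ M')) j = F0 j := by
      intro j hj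
      exact Function.update_of_ne (by omega) _ _
    have f2 : Function.update F0 (i + 1) (toF (O' ++ M')) (i + 1) = toF (O' ++ M') :=
      Function.update_self _ _ _
    have cs : ∀ {p : ℕ → Fam → Prop}, (∀ j ≤ i, p j (F0 j)) → p (i + 1) (toF (O' ++ M')) →
        ∀ j ≤ i + 1, p j (Function.update F0 (i + 1) (toF (O' ++ M')) j) := by
      intro p ha hb j hj
      rcases Nat.lt_or_ge i j with hij | hij
      · obtain rfl : j = i + 1 := by omega
        rw [f2]; exact hb
      · rw [f1 j hij]; exact ha j hij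
    refine ⟨Function.update F0 (i + 1) (toF (O' ++ M')), ?_, by rw [f2]; exact href⟩
    refine ⟨⟨?_, ?_, ?_, ?_⟩, ?_, ?_, ?_, ?_, ?_⟩
    · exact cs (p := fun _ G => Over n G) hR.chain.ov hG.inv.ov
    · exact cs (p := fun _ G => Anti G) hR.chain.anti hG.inv.anti
    · exact cs (p := fun _ G => satBy v G) hR.chain.sat hv'
    · intro j hj
      rcases Nat.lt_or_ge j i with hij | hij
      · rw [f1 j (by omega), f1 (j + 1) (by omega)]
        exact hR.chain.ref j hij
      · obtain rfl : j = i := by omega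
        rw [f1 j le_rfl, f2, ← r2]
        exact hRef
    · exact cs (p := fun _ G => ∀ D ∈ G, 1 ≤ D.card ∧ D.card ≤ k) hR.fine hG.inv.size
    · exact cs (p := fun j G => ∀ q, 1 ≤ q → q < k → ∀ l : Lit,
        dg G (q + 1) {l} < (P.S j).W.th q) hR.deg (P.CPC_deg hG he)
    · exact cs (p := fun j G => G.card ≤ Lam (P.S j).W * n) hR.card
        (hG.inv.card_le (CPC_live hv') (hG.noHit he))
    · intro j hj
      rcases Nat.lt_or_ge j i with hij | hij
      · rw [f1 (j + 1) (by omega)]
        exact hR.rej j hij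
      · obtain rfl : j = i := by omega
        exact ⟨O' ++ M', P.CPC_fine hG hv', f2.symm, h1⟩
    · rw [f1 0 (by omega)]
      exact hR.units

theorem CPC_unit_le {n : ℕ} {v : ℕ → Bool} {𝒟 : Fam} : (unitT v n 𝒟).card ≤ num 𝒟 1 := by
  unfold unitT num
  apply Finset.card_le_card_of_injOn (fun x => ({(x, v x)} : Finset Lit))
  · intro x hx
    simp only [coe_filter, Set.mem_ofPred_eq, mem_range] at hx ⊢
    exact ⟨hx.2, card_singleton _⟩
  · intro x _ y _ hxy
    simp only [singleton_inj, Prod.mk.injEq] at hxy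
    exact hxy.1

theorem complete (hk : 3 ≤ k) (hs : 0 < s) {n : ℕ} (hn : 0 < n) {v : ℕ → Bool} {O M : LFam}
    (h : GoodM (P.S P.I).W n O M) (hv : satBy v (toF (O ++ M))) :
    P.Ac (nd0 n P.I (O, M)) := by
  by_contra hna
  obtain ⟨F, hR, -⟩ := P.descend hk hs P.I le_rfl O M h hv hna
  have hn' : (0 : ℝ) < n := by exact_mod_cast hn
  have huq : (0 : ℝ) < P.uq := by
    have := P.huq
    exact_mod_cast this
  have hun : ((num (F 0) 1 : ℕ) : ℝ) ≤ 1 / P.uq * n := by
    have h1 : ((P.uq * num (F 0) 1 : ℕ) : ℝ) ≤ (n : ℕ) := by exact_mod_cast hR.units.le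
    push_cast at h1
    rw [div_mul_eq_mul_div, one_mul, le_div_iff₀ huq]
    linarith
  rcases P.pig n v F hR.chain hR.deg with ha | ⟨i, hi, hb⟩
  · have h1 : ((unitT v n (F 0)).card : ℝ) ≤ num (F 0) 1 := by
      exact_mod_cast CPC_unit_le
    have h2 := mul_lt_mul_of_pos_right P.hu hn'
    linarith
  · obtain ⟨L, hL, hLF, hrej⟩ := hR.rej i hi
    have hsat : satBy v (toF L) := by rw [hLF]; exact hR.chain.sat _ (by omega)
    have hsub : unitT v n (F i) ⊆ unitT v n (F 0) := by
      intro x hx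
      unfold unitT at hx ⊢
      rw [mem_filter] at hx ⊢
      refine ⟨hx.1, ?_⟩
      have hcr : Crit v x {(x, v x)} := by
        unfold Crit
        ext l
        simp only [mem_filter, mem_singleton]
        constructor
        · exact fun h => h.1
        · rintro rfl; exact ⟨rfl, rfl⟩
      obtain ⟨D, hD, hDs, hDc⟩ := hR.chain.crit_down (Nat.zero_le i) (by omega) hx.2 hcr
      have hmem : (x, v x) ∈ D := by
        have : (x, v x) ∈ D.filter (fun l => v l.1 = l.2) := by
          rw [hDc]; exact mem_singleton_self _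
        exact (mem_filter.1 this).1
      have : D = {(x, v x)} := Finset.Subset.antisymm hDs (singleton_subset_iff.2 hmem)
      rwa [this] at hD
    have hu : ((unitT v n (F i)).card : ℝ) ≤ 1 / P.uq * n := by
      have h1 : ((unitT v n (F i)).card : ℝ) ≤ num (F 0) 1 := by
        exact_mod_cast (card_le_card hsub).trans CPC_unit_le
      linarith
    obtain ⟨b, hb1, hb2, bad, hbad, hbc, hG⟩ := exists_items (k := k) (n := n) (by omega)
      (v := v) (L := L) hL.linv hL.ov hL.anti hL.nt hsat (hR.chain.ov i (by omega))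
      (hR.chain.sat i (by omega)) (fun D hD => (hR.fine i (by omega) D hD).2)
      (by rw [hLF]; exact hR.chain.ref i hi) (Λ := Lam (P.S i).W) (w := P.w) (t := P.t (i + 1))
      (by unfold Lam; omega) (hR.card i (by omega)) (ε := P.ε) (u := 1 / P.uq) hu
      (by rw [hLF]; exact hb.le) P.hεu (P.ht i hi)
    exact hrej (P.acc_items (by omega) hL hsat hb1 hb2 hbad hbc hG)

end Pool.Agent.H46.SK.Pars
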