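import Pool.Agent.H46.SK.Node

/-!
# Module NDS: sizes of the nodes

`sz` of a tuple is computed by `Poly.sz_pair`, `Poly.sz_nat`; lists of clauses by `sz_fam_le` (file `Pool/Agent/H14/Size.lean`; for the pair `O`,
`M` use that both are sublists of `O ++ M`, so `LInv`, `Over` and the size bounds pass), lists of numbers less than `n` without repetitions by
`sz_list_le` (each element has `sz ≤ 2 n + 1`, length at most `n`), lists of bits by `sz_list_le` and `sz_bool`; the number of bits is at
most `P.t i * (Nat.size n + 1) ≤ T (n + 1)` with `T = ∑_(i ≤ I) t i` (`Nat.size n ≤ n`).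
-/

set_option autoImplicit false

namespace Pool.Agent.H46.SK

open Finset Pool.Agent.H14.ETH Pool.Agent.H83

/-- Size bound for families. -/
def NDS_fam (k n : ℕ) : ℕ :=
  ((k + 1) * (2 * n + 1) ^ k) * ((k * (2 * n + 6 + 1) + 1) + 1) + 1

theorem NDS_fam_PB (k : ℕ) : PB (NDS_fam k) := by
  unfold NDS_fam
  have h1 : PB (fun n => 2 * n + 1) := ((PB.const 2).mul PB.id).add (PB.const 1)
  have h2 : PB (fun n => 2 * n + 6 + 1) := (((PB.const 2).mul PB.id).add (PB.const 6)).add
    (PB.const 1)
  have h3 : PB (fun n => (k + 1) * (2 * n + 1) ^ k) := (PB.const (k + 1)).mul (h1.pow k)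
  have h4 : PB (fun n => (k * (2 * n + 6 + 1) + 1) + 1) :=
    (((PB.const k).mul h2).add (PB.const 1)).add (PB.const 1)
  exact (h3.mul h4).add (PB.const 1)

theorem NDS_sz_nats {n : ℕ} {R : List ℕ} (hR : R.Nodup) (h : ∀ x ∈ R, x < n) :
    sz R ≤ n * (2 * n + 1 + 1) + 1 := by
  have h1 := E14.sz_list_le R (2 * n + 1) (by
    intro x hx
    rw [Poly.sz_nat]
    have := h x hx
    omega)
  have h2 : R.length ≤ n := by
    rw [← List.toFinset_card_of_nodup hR]
    have : R.toFinset ⊆ Finset.range n := by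
      intro x hx
      exact Finset.mem_range.2 (h x (List.mem_toFinset.1 hx))
    simpa using Finset.card_le_card this
  exact h1.trans (by have := Nat.mul_le_mul_right (2 * n + 1 + 1) h2; omega)

theorem NDS_sz_bits {B : ℕ} {b : List Bool} (h : b.length ≤ B) : sz b ≤ B * 4 + 1 := by
  have h1 := E14.sz_list_le b 3 (fun x _ => Poly.sz_bool x)
  omega

theorem NDS_linv {O M : LFam} (h : LInv (O ++ M)) : LInv O ∧ LInv M := by
  obtain ⟨h1, h2⟩ := h
  rw [List.map_append] at h2
  exact ⟨⟨fun C hC => h1 C (List.mem_append_left _ hC), (List.nodup_append.1 h2).1⟩,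
    ⟨fun C hC => h1 C (List.mem_append_right _ hC), (List.nodup_append.1 h2).2.1⟩⟩

namespace Pars

variable {k : ℕ} {s : ℝ} (P : Pars k s)

theorem exists_size_bound : ∃ S : ℕ → ℕ, PB S ∧ ∀ (m : ℕ) (N : Nd), P.Pre m N → sz N ≤ S m := by
  classical
  set T : ℕ := ∑ j ∈ Finset.range (P.I + 1), P.t j with hT
  have hid : PB (fun m : ℕ => m + k) := PB.id.add (PB.const k)
  have hn : PB (fun m : ℕ => (m + k) * (2 * (m + k) + 1 + 1) + 1) :=
    (hid.mul ((((PB.const 2).mul hid).add (PB.const 1)).add (PB.const 1))).add (PB.const 1)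
  have hb : PB (fun m : ℕ => (T * (m + k + 1)) * 4 + 1) :=
    (((PB.const T).mul (hid.add (PB.const 1))).mul (PB.const 4)).add (PB.const 1)
  have hf : PB (fun m : ℕ => NDS_fam k (m + k)) := (NDS_fam_PB k).comp hid
  refine ⟨fun m => ((NDS_fam k (m + k) + NDS_fam k (m + k)) + ((T * (m + k + 1)) * 4 + 1)) +
    (((m + k) * (2 * (m + k) + 1 + 1) + 1) + ((m + k) * (2 * (m + k) + 1 + 1) + 1)) +
    (4 * (m + k) + 2 * P.I + 40), ?_, ?_⟩
  · exact (((hf.add hf).add hb).add (hn.add hn)).add
      ((((PB.const 4).mul hid).add (PB.const (2 * P.I))).add (PB.const 40))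
  · intro m N hN
    rcases hN with ⟨i, O, M, rfl, hi, h⟩ | ⟨i, L, b, rfl, _, hi, h, hb⟩ |
      ⟨i, L, R, G, c, rfl, hi, h, hnd, hX, hc⟩ | rfl
    · obtain ⟨l1, l2⟩ := NDS_linv h.linv
      have e := toF_append O M
      have s1 := E14.sz_fam_le l1 (m := m + k) (k := k)
        (fun C hC => h.inv.ov C (by rw [e]; exact Finset.mem_union_left _ hC))
        (fun C hC => (h.inv.size C (by rw [e]; exact Finset.mem_union_left _ hC)).2)
      have s2 := E14.sz_fam_le l2 (m := m + k) (k := k)
        (fun C hC => h.inv.ov C (by rw [e]; exact Finset.mem_union_right _ hC))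
        (fun C hC => (h.inv.size C (by rw [e]; exact Finset.mem_union_right _ hC)).2)
      simp only [nd0, Poly.sz_pair, Poly.sz_nat, Poly.sz_nil]
      unfold NDS_fam
      omega
    · have s1 := E14.sz_fam_le h.linv h.ov (fun C hC => (h.size C hC).2)
      have hb' : b.length ≤ T * (m + k + 1) := by
        refine hb.trans ?_
        unfold bits
        have h1 : P.t i ≤ T := Finset.single_le_sum (f := fun j => P.t j)
          (fun _ _ => Nat.zero_le _) (Finset.mem_range.2 (by omega))
        have h2 : Nat.size (m + k) ≤ m + k := Nat.size_le.2 Nat.lt_two_pow_self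
        exact Nat.mul_le_mul h1 (by omega)
      have s2 := NDS_sz_bits hb'
      simp only [nd1, Poly.sz_pair, Poly.sz_nat, Poly.sz_nil]
      unfold NDS_fam
      omega
    · have s1 := E14.sz_fam_le h.linv h.ov (fun C hC => (h.size C hC).2)
      have hR : R.Nodup := (List.nodup_append.1 hnd).1
      have hG : G.Nodup := (List.nodup_append.1 hnd).2.1
      have s2 := NDS_sz_nats hR (fun x hx => (hX x (List.mem_append_left _ hx)).1)
      have s3 := NDS_sz_nats hG (fun x hx => (hX x (List.mem_append_right _ hx)).1)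
      simp only [nd2, Poly.sz_pair, Poly.sz_nat, Poly.sz_nil]
      unfold NDS_fam
      omega
    · simp only [ndF, Poly.sz_pair, Poly.sz_nat, Poly.sz_nil]
      omega

end Pars

end Pool.Agent.H46.SK
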