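import Pool.Agent.H46.SK.Node
import Pool.Agent.H14.Gap
import Pool.Agent.H14.IpzK

/-!
# Module PFB: polynomial time computability of the steps and of the reduction

Style of `Pool/Agent/H14/PFns.lean` (`pStepAL`, `pStepBL`, `pReduceL`).
-/

set_option autoImplicit false

namespace Pool.Agent.H83.E46

open Pool.Agent.H14.ETH Pool.Agent.H46.SK Pool.Agent.H83.E14

variable {α : Type} [Enc α]

theorem pCutL {Q L : α → LFam} (hQ : Poly Q) (hL : Poly L) : Poly (fun a => cutL (Q a) (L a)) :=
  Poly.filter (f := fun a C => !((Q a).any (fun P => subl P C))) hL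
    (Poly.not (Poly.any (f := fun (p : α × List Lit) P => subl P p.2) (hQ.comp Poly.fst)
      (pSubl Poly.snd (Poly.snd' Poly.fst))))

theorem pHitsM (k : ℕ) (th : ℕ → ℕ) {O N : α → LFam} (hO : Poly O) (hN : Poly N) :
    Poly (fun a => hitsM k th (O a) (N a)) :=
  pHitsAll th (rulesList k) (Poly.append hO hN)

theorem pStepMA (k : ℕ) (th : ℕ → ℕ) {O N : α → LFam} (hO : Poly O) (hN : Poly N) :
    Poly (fun a => stepMA k th (O a) (N a)) := by
  refine (Poly.listCases (l := fun a => hitsM k th (O a) (N a)) (f := fun a => (O a, N a))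
    (g := fun a x _ => (cutL [x.2] (O a), addL [x.2] (N a))) (pHitsM _ _ hO hN) (hO.pair hN)
    ?_).congr ?_
  · refine (pCutL (Poly.cons ?_ (Poly.const [])) (hO.comp Poly.fst)).pair
      (pAddL (Poly.cons ?_ (Poly.const [])) (hN.comp Poly.fst))
    · exact Poly.snd' (Poly.fst' Poly.snd)
    · exact Poly.snd' (Poly.fst' Poly.snd)
  · intro a
    unfold stepMA
    cases hitsM k th (O a) (N a) <;> rfl

theorem pStepMB (k : ℕ) (th : ℕ → ℕ) {O N : α → LFam} (hO : Poly O) (hN : Poly N) :
    Poly (fun a => stepMB k th (O a) (N a)) := by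
  refine (Poly.listCases (l := fun a => hitsM k th (O a) (N a)) (f := fun a => (O a, N a))
    (g := fun a x _ => (cutL (petalsL x.1 x.2 (O a ++ N a)) (O a),
      addL (petalsL x.1 x.2 (O a ++ N a)) (N a))) (pHitsM _ _ hO hN) (hO.pair hN) ?_).congr ?_
  · have h1 : Poly (fun p : α × (ℕ × List Lit) × List (ℕ × List Lit) =>
        petalsL p.2.1.1 p.2.1.2 (O p.1 ++ N p.1)) := by
      refine pPetalsL ?_ ?_ (Poly.append (hO.comp Poly.fst) (hN.comp Poly.fst))
      · exact Poly.fst' (Poly.fst' Poly.snd)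
      · exact Poly.snd' (Poly.fst' Poly.snd)
    exact (pCutL h1 (hO.comp Poly.fst)).pair (pAddL h1 (hN.comp Poly.fst))
  · intro a
    unfold stepMB
    cases hitsM k th (O a) (N a) <;> rfl

theorem pNonuL {L : α → LFam} (hL : Poly L) : Poly (fun a => nonuL (L a)) :=
  Poly.filter (f := fun (_ : α) (C : List Lit) => !(decide (C.length = 1))) hL
    (Poly.not (Poly.natEq (Poly.length Poly.snd) (Poly.const 1)))

theorem pUnitL {L : α → LFam} (hL : Poly L) : Poly (fun a => unitL (L a)) :=
  Poly.filter (f := fun (_ : α) (C : List Lit) => decide (C.length = 1)) hL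
    (Poly.natEq (Poly.length Poly.snd) (Poly.const 1))

theorem pTrimL {G : α → List ℕ} {K : α → LFam} (hG : Poly G) (hK : Poly K) :
    Poly (fun a => trimL (G a) (K a)) := by
  unfold trimL
  refine Poly.map (f := fun (a : α) (C : List Lit) =>
    bif decide (2 ≤ (C.filter (fun l => memN l.1 (G a))).length)
    then C.filter (fun l => !(memN l.1 (G a))) else C) hK ?_
  refine Poly.cond (Poly.natLe (Poly.const 2) (Poly.length ?_)) ?_ Poly.snd
  · exact Poly.filter (f := fun (p : α × List Lit) l => memN l.1 (G p.1)) Poly.snd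
      (pMemN (Poly.fst' Poly.snd) (hG.comp (Poly.fst' Poly.fst)))
  · exact Poly.filter (f := fun (p : α × List Lit) l => !(memN l.1 (G p.1))) Poly.snd
      (Poly.not (pMemN (Poly.fst' Poly.snd) (hG.comp (Poly.fst' Poly.fst))))

theorem pfb_goneX {G : α → List ℕ} {L : α → LFam} (hG : Poly G) (hL : Poly L) :
    Poly (fun a => goneX (G a) (L a)) :=
  Poly.append hG (Poly.map (f := fun (_ : α) (l : Lit) => l.1) (pUnitsL hL) (Poly.fst' Poly.snd))

theorem pReduceX {G : α → List ℕ} {n : α → ℕ} {L : α → LFam} (hG : Poly G) (hn : Poly n)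
    (hL : Poly L) : Poly (fun a => reduceX (G a) (n a) (L a)) :=
  (pRankL (pfb_goneX hG hL) hn).pair (pRenL (pfb_goneX hG hL) (pDedupF
    (Poly.map (f := fun (_ : α) C => dedupC C)
      (pElimL hG (pTrimL hG (pCoreL hL))) (pDedupC Poly.snd))))

end Pool.Agent.H83.E46
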