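import Pool.Agent.H46.SK.PFA
import Pool.Agent.H46.SK.PFB

/-!
# Module PFC: polynomial time computability of the functions of the tree

`pSwitch`: by induction on `I`: `min (i a) (I + 1) = if i a ≤ I then min (i a) I else I + 1`.  The functions `chA`, `chB`, `leaf`, `fml`
are cascades of `bif`; the projections `Nd.md`, ... are compositions of `Poly.fst`, `Poly.snd`.  In `chA`, `chB`, `leaf` the stage enters only through
`ix N = min N.st I`: apply `pSwitch` to `f i N = ...` with `P.ix N` replaced by `i`.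
-/

set_option autoImplicit false

namespace Pool.Agent.H83.E46

open Pool.Agent.H14.ETH Pool.Agent.H46.SK Pool.Agent.H83.E14

variable {α β : Type} [Enc α] [Enc β]

theorem pSwitch (I : ℕ) (f : ℕ → α → β) {i : α → ℕ} (hi : Poly i)
    (hf : ∀ j ≤ I, Poly (f j)) : Poly (fun a => f (min (i a) I) a) := by
  induction I with
  | zero => exact (hf 0 le_rfl).congr fun a => by rw [Nat.min_zero]
  | succ I ih =>
    have h1 := ih (fun j hj => hf j (hj.trans (Nat.le_succ I)))
    refine (Poly.cond (c := fun a => decide (i a ≤ I)) (f := fun a => f (min (i a) I) a)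
      (g := fun a => f (I + 1) a) (Poly.natLe hi (Poly.const I)) h1 (hf (I + 1) le_rfl)).congr
      fun a => ?_
    by_cases h : i a ≤ I
    · simp only [h, decide_true, cond_true]
      rw [Nat.min_eq_left h, Nat.min_eq_left (h.trans (Nat.le_succ I))]
    · simp only [h, decide_false, cond_false]
      rw [Nat.min_eq_right (by omega)]

/-! ### Nodes -/

theorem PFC_md {N : α → H46.SK.Nd} (hN : Poly N) : Poly (fun a => (N a).md) := Poly.fst' hN

theorem PFC_nn {N : α → H46.SK.Nd} (hN : Poly N) : Poly (fun a => (N a).nn) := Poly.fst' (Poly.snd' hN)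

theorem PFC_st {N : α → H46.SK.Nd} (hN : Poly N) : Poly (fun a => (N a).st) :=
  Poly.fst' (Poly.snd' (Poly.snd' hN))

theorem PFC_oo {N : α → H46.SK.Nd} (hN : Poly N) : Poly (fun a => (N a).oo) :=
  Poly.fst' (Poly.snd' (Poly.snd' (Poly.snd' hN)))

theorem PFC_ma {N : α → H46.SK.Nd} (hN : Poly N) : Poly (fun a => (N a).ma) :=
  Poly.fst' (Poly.snd' (Poly.snd' (Poly.snd' (Poly.snd' hN))))

theorem PFC_bi {N : α → H46.SK.Nd} (hN : Poly N) : Poly (fun a => (N a).bi) :=
  Poly.fst' (Poly.snd' (Poly.snd' (Poly.snd' (Poly.snd' (Poly.snd' hN)))))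

theorem PFC_rr {N : α → H46.SK.Nd} (hN : Poly N) : Poly (fun a => (N a).rr) :=
  Poly.fst' (Poly.snd' (Poly.snd' (Poly.snd' (Poly.snd' (Poly.snd' (Poly.snd' hN))))))

theorem PFC_gg {N : α → H46.SK.Nd} (hN : Poly N) : Poly (fun a => (N a).gg) :=
  Poly.fst' (Poly.snd' (Poly.snd' (Poly.snd' (Poly.snd' (Poly.snd' (Poly.snd' (Poly.snd' hN)))))))

theorem PFC_bu {N : α → H46.SK.Nd} (hN : Poly N) : Poly (fun a => (N a).bu) :=
  Poly.snd' (Poly.snd' (Poly.snd' (Poly.snd' (Poly.snd' (Poly.snd' (Poly.snd' (Poly.snd' hN)))))))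

theorem PFC_nd0 {n i : α → ℕ} {X : α → LFam × LFam} (hn : Poly n) (hi : Poly i) (hX : Poly X) :
    Poly (fun a => nd0 (n a) (i a) (X a)) :=
  (Poly.const 0).pair (hn.pair (hi.pair ((Poly.fst' hX).pair ((Poly.snd' hX).pair
    ((Poly.const []).pair ((Poly.const []).pair ((Poly.const []).pair (Poly.const 0))))))))

theorem PFC_nd1 {n i : α → ℕ} {L : α → LFam} {b : α → List Bool} (hn : Poly n) (hi : Poly i)
    (hL : Poly L) (hb : Poly b) : Poly (fun a => nd1 (n a) (i a) (L a) (b a)) :=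
  (Poly.const 1).pair (hn.pair (hi.pair ((Poly.const []).pair (hL.pair
    (hb.pair ((Poly.const []).pair ((Poly.const []).pair (Poly.const 0))))))))

theorem PFC_nd2 {n i : α → ℕ} {L : α → LFam} {R G : α → List ℕ} {m : α → ℕ} (hn : Poly n)
    (hi : Poly i) (hL : Poly L) (hR : Poly R) (hG : Poly G) (hm : Poly m) :
    Poly (fun a => nd2 (n a) (i a) (L a) (R a) (G a) (m a)) :=
  (Poly.const 2).pair (hn.pair (hi.pair ((Poly.const []).pair (hL.pair
    ((Poly.const []).pair (hR.pair (hG.pair hm)))))))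

variable {k : ℕ} {s : ℝ} (P : Pars k s)

theorem PFC_bits (j : ℕ) {n : α → ℕ} (hn : Poly n) : Poly (fun a => P.bits j (n a)) :=
  Poly.mul (Poly.const _) (Poly.succ (pSize hn))

theorem PFC_start (j : ℕ) {n : α → ℕ} {L : α → LFam} {b : α → List Bool} (hn : Poly n)
    (hL : Poly L) (hb : Poly b) : Poly (fun a => P.start j (n a) (L a) (b a)) := by
  have h1 := pItemsL (P.t j) hn hb hL
  unfold Pars.start
  refine Poly.cond (Poly.natLe hn (Poly.mul (Poly.const _) (Poly.length h1))) ?_ (Poly.const _)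
  exact PFC_nd2 hn (Poly.const j) hL h1 (Poly.const []) (pDivConst _ (Poly.length h1))

/-- `chA` with fixed stage. -/
def PFC_fA (j : ℕ) (N : H46.SK.Nd) : H46.SK.Nd :=
  bif decide (N.md = 0) then
    bif (hitsM k (P.S j).W.th N.oo N.ma).isEmpty then nd1 N.nn N.st (N.oo ++ N.ma) []
    else nd0 N.nn N.st (stepMA k (P.S j).W.th N.oo N.ma)
  else bif decide (N.md = 1) then
    bif decide (N.bi.length < P.bits j N.nn) then nd1 N.nn N.st N.ma (true :: N.bi)
    else P.start j N.nn N.ma N.bi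
  else
    bif decide (N.bu = 0) then ndF else nd2 N.nn N.st N.ma N.rr.tail N.gg (N.bu - 1)

/-- `chB` with fixed stage. -/
def PFC_fB (j : ℕ) (N : H46.SK.Nd) : H46.SK.Nd :=
  bif decide (N.md = 0) then
    bif (hitsM k (P.S j).W.th N.oo N.ma).isEmpty then
      nd0 N.nn (N.st - 1) (nonuL (N.oo ++ N.ma), unitL (N.oo ++ N.ma))
    else nd0 N.nn N.st (stepMB k (P.S j).W.th N.oo N.ma)
  else bif decide (N.md = 1) then
    bif decide (N.bi.length < P.bits j N.nn) then nd1 N.nn N.st N.ma (false :: N.bi)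
    else ndF
  else nd2 N.nn N.st N.ma N.rr.tail (N.rr.headD 0 :: N.gg) N.bu

/-- `leaf` with fixed stage. -/
def PFC_fL (j : ℕ) (N : H46.SK.Nd) : Bool :=
  bif decide (N.md = 0) then
    deadL (N.oo ++ N.ma) || ((hitsM k (P.S j).W.th N.oo N.ma).isEmpty && decide (N.st = 0))
  else bif decide (N.md = 1) then false
  else bif decide (N.md = 2) then N.rr.isEmpty
  else true

theorem pChA' : Poly P.chA := by
  have hmd : Poly (fun N : H46.SK.Nd => N.md) := PFC_md Poly.id
  have hnn : Poly (fun N : H46.SK.Nd => N.nn) := PFC_nn Poly.id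
  have hst : Poly (fun N : H46.SK.Nd => N.st) := PFC_st Poly.id
  have hoo : Poly (fun N : H46.SK.Nd => N.oo) := PFC_oo Poly.id
  have hma : Poly (fun N : H46.SK.Nd => N.ma) := PFC_ma Poly.id
  have hbi : Poly (fun N : H46.SK.Nd => N.bi) := PFC_bi Poly.id
  have hrr : Poly (fun N : H46.SK.Nd => N.rr) := PFC_rr Poly.id
  have hgg : Poly (fun N : H46.SK.Nd => N.gg) := PFC_gg Poly.id
  have hbu : Poly (fun N : H46.SK.Nd => N.bu) := PFC_bu Poly.id
  refine (pSwitch P.I (PFC_fA P) hst (fun j _ => ?_)).congr fun N => rfl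
  unfold PFC_fA
  refine Poly.cond (Poly.natEq hmd (Poly.const 0)) ?_ (Poly.cond (Poly.natEq hmd (Poly.const 1))
    ?_ ?_)
  · refine Poly.cond (Poly.isEmpty (pHitsM k _ hoo hma)) ?_ ?_
    · exact PFC_nd1 hnn hst (Poly.append hoo hma) (Poly.const [])
    · exact PFC_nd0 hnn hst (pStepMA k _ hoo hma)
  · refine Poly.cond (Poly.natLt (Poly.length hbi) (PFC_bits P j hnn)) ?_ ?_
    · exact PFC_nd1 hnn hst hma (Poly.cons (Poly.const true) hbi)
    · exact PFC_start P j hnn hma hbi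
  · refine Poly.cond (Poly.natEq hbu (Poly.const 0)) (Poly.const _) ?_
    exact PFC_nd2 hnn hst hma (Poly.tail hrr) hgg (Poly.pred hbu)

theorem pChB' : Poly P.chB := by
  have hmd : Poly (fun N : H46.SK.Nd => N.md) := PFC_md Poly.id
  have hnn : Poly (fun N : H46.SK.Nd => N.nn) := PFC_nn Poly.id
  have hst : Poly (fun N : H46.SK.Nd => N.st) := PFC_st Poly.id
  have hoo : Poly (fun N : H46.SK.Nd => N.oo) := PFC_oo Poly.id
  have hma : Poly (fun N : H46.SK.Nd => N.ma) := PFC_ma Poly.id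
  have hbi : Poly (fun N : H46.SK.Nd => N.bi) := PFC_bi Poly.id
  have hrr : Poly (fun N : H46.SK.Nd => N.rr) := PFC_rr Poly.id
  have hgg : Poly (fun N : H46.SK.Nd => N.gg) := PFC_gg Poly.id
  have hbu : Poly (fun N : H46.SK.Nd => N.bu) := PFC_bu Poly.id
  refine (pSwitch P.I (PFC_fB P) hst (fun j _ => ?_)).congr fun N => rfl
  unfold PFC_fB
  refine Poly.cond (Poly.natEq hmd (Poly.const 0)) ?_ (Poly.cond (Poly.natEq hmd (Poly.const 1))
    ?_ ?_)
  · refine Poly.cond (Poly.isEmpty (pHitsM k _ hoo hma)) ?_ ?_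
    · exact PFC_nd0 hnn (Poly.pred hst) ((pNonuL (Poly.append hoo hma)).pair
        (pUnitL (Poly.append hoo hma)))
    · exact PFC_nd0 hnn hst (pStepMB k _ hoo hma)
  · refine Poly.cond (Poly.natLt (Poly.length hbi) (PFC_bits P j hnn)) ?_ (Poly.const _)
    exact PFC_nd1 hnn hst hma (Poly.cons (Poly.const false) hbi)
  · exact PFC_nd2 hnn hst hma (Poly.tail hrr) (Poly.cons (Poly.headD 0 hrr) hgg) hbu

theorem pLeaf' : Poly P.leaf := by
  have hmd : Poly (fun N : H46.SK.Nd => N.md) := PFC_md Poly.id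
  have hst : Poly (fun N : H46.SK.Nd => N.st) := PFC_st Poly.id
  have hoo : Poly (fun N : H46.SK.Nd => N.oo) := PFC_oo Poly.id
  have hma : Poly (fun N : H46.SK.Nd => N.ma) := PFC_ma Poly.id
  have hrr : Poly (fun N : H46.SK.Nd => N.rr) := PFC_rr Poly.id
  refine (pSwitch P.I (PFC_fL P) hst (fun j _ => ?_)).congr fun N => rfl
  unfold PFC_fL
  refine Poly.cond (Poly.natEq hmd (Poly.const 0)) ?_ (Poly.cond (Poly.natEq hmd (Poly.const 1))
    (Poly.const _) (Poly.cond (Poly.natEq hmd (Poly.const 2)) (Poly.isEmpty hrr) (Poly.const _)))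
  exact Poly.or (pDeadL (Poly.append hoo hma)) (Poly.and (Poly.isEmpty (pHitsM k _ hoo hma))
    (Poly.natEq hst (Poly.const 0)))

theorem pFml' : Poly P.fml := by
  have hmd : Poly (fun N : H46.SK.Nd => N.md) := PFC_md Poly.id
  have hnn : Poly (fun N : H46.SK.Nd => N.nn) := PFC_nn Poly.id
  have hoo : Poly (fun N : H46.SK.Nd => N.oo) := PFC_oo Poly.id
  have hma : Poly (fun N : H46.SK.Nd => N.ma) := PFC_ma Poly.id
  have hgg : Poly (fun N : H46.SK.Nd => N.gg) := PFC_gg Poly.id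
  unfold Pars.fml
  refine Poly.cond (Poly.natEq hmd (Poly.const 0)) (Poly.cond ?_ ?_ (Poly.const _))
    (Poly.cond (Poly.natEq hmd (Poly.const 2)) (pReduceX hgg hnn hma) (Poly.const _))
  · exact Poly.and (Poly.not (pDeadL (Poly.append hoo hma))) (Poly.natLe hnn (Poly.mul
      (Poly.const _) (Poly.length (pUnitL (Poly.append hoo hma)))))
  · exact pReduceX (Poly.const []) hnn (Poly.append hoo hma)

theorem pRoot' : Poly P.root := by
  unfold Pars.root
  exact PFC_nd0 (Poly.add Poly.fst (Poly.const k)) (Poly.const _)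
    ((pInitF k Poly.fst Poly.snd).pair (Poly.const []))

end Pool.Agent.H83.E46
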