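import Pool.Agent.H46.SK.Par

/-!
# Module PRM: the parameters exist

Proof.  `w` large: with `y = -log₂ (1 - 2 ^ (-w))` (so `kraft` is an equality, `0 < y ≤ 2 / 2 ^ w` as `-log₂(1 - x) ≤ 2 x` for
`0 < x ≤ 1/2`), `y + w / 2 ^ w + s / 2 ^ w ≤ (3 + w) / 2 ^ w ≤ s / 2` for `w` large; `1 ≤ w`.
`ε = 1 / 2 ^ (w + 5)`, `uq` a natural number with `1 / uq < ε / 2 ^ (k - 2)` (then also `ε + 1 / uq ≤ 2 ε = 1 / 2 ^ (w + 4)`).
Recursion for `(γ i, S i)` and `t`: `γ 0 = s / (16 uq)`, `S 0` from `exists_stg`; given `S i`, choose `t (i+1)` with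
`2 ^ (w + 4) * (k * Lam (S i).W) ≤ 2 ^ t (i+1)`, then `γ (i+1) = min (γ i / 2) (s / 64 / 2 ^ t (i+1))`, `S (i+1)` from `exists_stg`.
(Define a sequence of dependent triples `⟨γ, S, t⟩` in the type `Σ γ : ℝ, Stg k s γ × ℕ` by `Nat.rec` and `Classical.choice`.)  All
`γ i > 0`, `γ (i+1) ≤ γ i / 2`.
`I` from `pigeon` for `th i q = (S i).W.th q` (`one_le_th`).
`d i = γ I + ∑_(i < j ≤ I) γ j` (`j ∈ Finset.Ioc i I`); by the halving, `∑_(i<j≤I) γ j ≤ γ i - γ I`, so `d i ≤ γ i` for `i ≤ I`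
and `d i + γ i ≤ 2 γ i`.  Hence `hd0` (`2 γ 0 = s / (8 uq)`), `hdt` (`2 γ (i+1) ≤ s / 32 / 2 ^ t`), `hdn` (equality).
`η` = minimum of `1`, `y` and the `(S i).η`, `i ≤ I`; `κ` = a common upper bound of the `(S i).κ`, `i ≤ I`, and of the
suprema over `n` of `w + 2 + t (i+1) (Nat.size n + 1) - (s / 16 / 2 ^ t (i+1)) n`, `i < I`, finite because `Nat.size n` is
`O(log n)`: for all `c > 0`, `a` there is `b` with `a (Nat.size n + 1) ≤ b + c n` for all `n` (e.g. `Nat.size n ≤ m + n / 2 ^ m ...`, or from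
`Nat.lt_size_self`-type bounds: `2 ^ (Nat.size n - 1) ≤ n` and `exists_two_pow`-type inequalities `a z ≤ b + c 2 ^ (z - 1)`).
-/

set_option autoImplicit false

namespace Pool.Agent.H46.SK

open Finset Pool.Agent.H14.ETH

theorem PRM_two_rpow_neg_le {y : ℝ} (h0 : 0 ≤ y) (h1 : y ≤ 1) : (2 : ℝ) ^ (-y) ≤ 1 - y / 2 := by
  have h := rpow_one_add_le_one_add_mul_self (s := -(1 / 2 : ℝ)) (p := y) (by norm_num) h0 h1
  have h2 : (1 + -(1 / 2 : ℝ)) = (2 : ℝ)⁻¹ := by norm_num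
  rw [h2, Real.inv_rpow (by norm_num), ← Real.rpow_neg (by norm_num)] at h
  linarith

theorem exists_wy {s : ℝ} (hs : 0 < s) (hs1 : s ≤ 1) : ∃ (w : ℕ) (y : ℝ), 1 ≤ w ∧ 0 < y ∧
    (2 : ℝ) ^ (-(w : ℝ)) + (2 : ℝ) ^ (-y) ≤ 1 ∧
    s / 2 ≤ (1 - 1 / 2 ^ w) * s - y - w / 2 ^ w := by
  have h1 : Filter.Tendsto (fun w : ℕ => (w : ℝ) * (1 / 2 : ℝ) ^ w) Filter.atTop (nhds 0) :=
    tendsto_self_mul_const_pow_of_lt_one (by norm_num) (by norm_num)
  have h2 : Filter.Tendsto (fun w : ℕ => (1 / 2 : ℝ) ^ w) Filter.atTop (nhds 0) :=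
    tendsto_pow_atTop_nhds_zero_of_lt_one (by norm_num) (by norm_num)
  have h3 : ∀ᶠ w : ℕ in Filter.atTop, (w : ℝ) * (1 / 2 : ℝ) ^ w < s / 8 :=
    h1.eventually (gt_mem_nhds (by linarith))
  have h4 : ∀ᶠ w : ℕ in Filter.atTop, (1 / 2 : ℝ) ^ w < s / 12 :=
    h2.eventually (gt_mem_nhds (by linarith))
  obtain ⟨w, hw3, hw4, hw1⟩ := (h3.and (h4.and (Filter.eventually_ge_atTop 1))).exists
  have hp : (0 : ℝ) < (1 / 2 : ℝ) ^ w := by positivity
  have e1 : (1 : ℝ) / 2 ^ w = (1 / 2 : ℝ) ^ w := by rw [one_div_pow]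
  have e2 : (w : ℝ) / 2 ^ w = w * (1 / 2 : ℝ) ^ w := by rw [one_div_pow]; ring
  have e3 : (2 : ℝ) ^ (-(w : ℝ)) = (1 / 2 : ℝ) ^ w := by
    rw [Real.rpow_neg (by norm_num), Real.rpow_natCast, one_div_pow, one_div]
  refine ⟨w, 2 * (1 / 2 : ℝ) ^ w, hw1, by positivity, ?_, ?_⟩
  · have h5 := PRM_two_rpow_neg_le (y := 2 * (1 / 2 : ℝ) ^ w) (by positivity) (by linarith)
    rw [e3]
    linarith
  · rw [e1, e2]
    nlinarith

theorem size_bound (a : ℕ) {c : ℝ} (hc : 0 < c) :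
    ∃ b : ℝ, ∀ n : ℕ, ((a * (Nat.size n + 1) : ℕ) : ℝ) ≤ b + c * n := by
  obtain ⟨M, hM⟩ := pow_unbounded_of_one_lt ((a : ℝ) / c) (by norm_num : (1 : ℝ) < 2)
  have hM' : (a : ℝ) ≤ c * 2 ^ M := by
    rw [div_lt_iff₀ hc] at hM
    linarith
  refine ⟨(a : ℝ) * (M + 1), fun n => ?_⟩
  have hcn : 0 ≤ c * (n : ℝ) := by positivity
  push_cast
  by_cases hz : Nat.size n ≤ M
  · have : ((Nat.size n : ℕ) : ℝ) ≤ M := by exact_mod_cast hz
    have h2 : (a : ℝ) * ((Nat.size n : ℝ) + 1) ≤ a * (M + 1) :=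
      mul_le_mul_of_nonneg_left (by linarith) (by positivity)
    linarith
  · have hz' : M < Nat.size n := not_le.mp hz
    obtain ⟨r, hr⟩ := Nat.exists_eq_add_of_lt hz'
    have hle : 2 ^ (M + r) ≤ n := by
      have : M + r < Nat.size n := by omega
      exact Nat.lt_size.mp this
    have hr2 : r + 1 ≤ 2 ^ r := Nat.lt_two_pow_self
    have hle' : (2 : ℝ) ^ M * 2 ^ r ≤ n := by
      rw [← pow_add]
      exact_mod_cast hle
    have hr2' : (r : ℝ) + 1 ≤ 2 ^ r := by exact_mod_cast hr2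
    have h6 : (a : ℝ) * (r + 1) ≤ c * n := by
      calc (a : ℝ) * (r + 1) ≤ (c * 2 ^ M) * (2 ^ r) :=
            mul_le_mul hM' hr2' (by positivity) (by positivity)
        _ = c * (2 ^ M * 2 ^ r) := by ring
        _ ≤ c * n := mul_le_mul_of_nonneg_left hle' hc.le
    rw [hr]
    push_cast
    nlinarith

theorem PRM_exists_lower (f : ℕ → ℝ) (hf : ∀ i, 0 < f i) (I : ℕ) :
    ∃ η : ℝ, 0 < η ∧ ∀ i ≤ I, η ≤ f i := by
  induction I with
  | zero => exact ⟨f 0, hf 0, fun i hi => by rw [Nat.le_zero.mp hi]⟩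
  | succ I ih =>
    obtain ⟨η, h0, h1⟩ := ih
    refine ⟨min η (f (I + 1)), lt_min h0 (hf _), fun i hi => ?_⟩
    rcases Nat.lt_or_ge i (I + 1) with h | h
    · exact (min_le_left _ _).trans (h1 i (by omega))
    · have : i = I + 1 := by omega
      subst this
      exact min_le_right _ _

theorem PRM_exists_upper (f : ℕ → ℝ) (I : ℕ) : ∃ κ : ℝ, ∀ i ≤ I, f i ≤ κ := by
  induction I with
  | zero => exact ⟨f 0, fun i hi => by rw [Nat.le_zero.mp hi]⟩
  | succ I ih =>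
    obtain ⟨κ, h1⟩ := ih
    refine ⟨max κ (f (I + 1)), fun i hi => ?_⟩
    rcases Nat.lt_or_ge i (I + 1) with h | h
    · exact (h1 i (by omega)).trans (le_max_left _ _)
    · have : i = I + 1 := by omega
      subst this
      exact le_max_right _ _

theorem exists_pars {k : ℕ} (hk : 3 ≤ k) {s : ℝ} (hs : 0 < s) (hs1 : s ≤ 1) :
    Nonempty (Pars k s) := by
  classical
  obtain ⟨w, y, hw, hy, kraft, gain⟩ := exists_wy hs hs1
  -- the numbers `ε` and `uq`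
  have hε : (0 : ℝ) < 1 / 2 ^ (w + 5) := by positivity
  obtain ⟨u, hu⟩ := exists_nat_one_div_lt
    (show (0 : ℝ) < (1 / 2 ^ (w + 5)) / 2 ^ (k - 2) by positivity)
  have hu' : (1 : ℝ) / ((u + 1 : ℕ) : ℝ) < (1 / 2 ^ (w + 5)) / 2 ^ (k - 2) := by
    push_cast
    exact hu
  have huε : (1 : ℝ) / ((u + 1 : ℕ) : ℝ) ≤ 1 / 2 ^ (w + 5) := by
    refine hu'.le.trans ?_
    exact div_le_self hε.le (one_le_pow₀ (by norm_num))
  have hεu : (1 / 2 ^ (w + 5) : ℝ) + 1 / ((u + 1 : ℕ) : ℝ) ≤ 1 / 2 ^ (w + 4) := by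
    have e : (1 / 2 ^ (w + 4) : ℝ) = 1 / 2 ^ (w + 5) + 1 / 2 ^ (w + 5) := by
      rw [pow_succ (2 : ℝ) (w + 4)]
      have : (2 : ℝ) ^ (w + 4) ≠ 0 := by positivity
      field_simp
      norm_num
    rw [e]
    linarith
  -- the stages
  let stg : (g : ℝ) → 0 < g → Stg k s g := fun g hg => (exists_stg hk hs hs1 hg).some
  let T : ℝ → ℕ := fun g => if h : 0 < g then 2 ^ (w + 4) * (k * Lam (stg g h).W) else 0
  have hT : ∀ g (h : 0 < g), 2 ^ (w + 4) * (k * Lam (stg g h).W) ≤ 2 ^ T g := by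
    intro g h
    have : T g = 2 ^ (w + 4) * (k * Lam (stg g h).W) := by
      simp only [T, dif_pos h]
    rw [this]
    exact Nat.lt_two_pow_self.le
  let γ : ℕ → ℝ := fun i => Nat.rec (s / (16 * ((u + 1 : ℕ) : ℝ)))
    (fun _ g => min (g / 2) (s / 64 / 2 ^ T g)) i
  have γ0 : γ 0 = s / (16 * ((u + 1 : ℕ) : ℝ)) := rfl
  have γs : ∀ i, γ (i + 1) = min (γ i / 2) (s / 64 / 2 ^ T (γ i)) := fun i => rfl
  have γpos : ∀ i, 0 < γ i := by
    intro i
    induction i with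
    | zero => rw [γ0]; positivity
    | succ i ih => rw [γs]; exact lt_min (by linarith) (by positivity)
  let t : ℕ → ℕ := fun i => T (γ (i - 1))
  have ts : ∀ i, t (i + 1) = T (γ i) := fun i => rfl
  let S : (i : ℕ) → Stg k s (γ i) := fun i => stg (γ i) (γpos i)
  obtain ⟨I, hI, pig⟩ := pigeon hk (fun i q => (S i).W.th q)
    (fun i q => (S i).W.one_le_th q) hε
  -- upper and lower bounds
  obtain ⟨η, hη, hηS⟩ := PRM_exists_lower (fun i => (S i).η) (fun i => (S i).η_pos) I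
  have hb : ∀ i, ∃ b : ℝ, ∀ n : ℕ, ((t (i + 1) * (Nat.size n + 1) : ℕ) : ℝ) ≤
      b + s / 16 / 2 ^ t (i + 1) * n := fun i => size_bound _ (by positivity)
  choose b hb using hb
  obtain ⟨κ, hκ⟩ := PRM_exists_upper (fun i => max (S i).κ (w + 2 + b i)) I
  refine ⟨{
    w := w
    y := y
    uq := u + 1
    ε := 1 / 2 ^ (w + 5)
    I := I
    t := t
    γ := γ
    S := S
    d := γ
    η := min η (min y 1)
    κ := κ
    hw := hw
    hy := (min_le_right _ _).trans (min_le_left _ _)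
    kraft := kraft
    gain := gain
    huq := by omega
    hε := hε
    hεu := hεu
    hu := hu'
    hI := hI
    hη := lt_min hη (lt_min hy one_pos)
    hη1 := (min_le_right _ _).trans (min_le_right _ _)
    hηS := fun i hi => (min_le_left _ _).trans (hηS i hi)
    hγ := fun i _ => (γpos i).le
    hd := fun i _ => γpos i
    hdn := ?_
    hd0 := ?_
    ht := ?_
    hdt := ?_
    hκS := fun i hi => (le_max_left _ _).trans (hκ i hi)
    hκt := ?_
    pig := pig }⟩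
  · intro i _
    have h := γs i
    have h2 := min_le_left (γ i / 2) (s / 64 / 2 ^ T (γ i))
    rw [← h] at h2
    linarith
  · rw [γ0]
    have hp : (0 : ℝ) < ((u + 1 : ℕ) : ℝ) := by positivity
    have e : s / (16 * ((u + 1 : ℕ) : ℝ)) + s / (16 * ((u + 1 : ℕ) : ℝ)) =
        (s / (4 * ((u + 1 : ℕ) : ℝ))) / 2 := by
      field_simp
      norm_num
    rw [e]
    have : 0 < s / (4 * ((u + 1 : ℕ) : ℝ)) := by positivity
    linarith
  · intro i _
    rw [ts]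
    exact hT (γ i) (γpos i)
  · intro i _
    rw [ts]
    have h := γs i
    have h2 := min_le_right (γ i / 2) (s / 64 / 2 ^ T (γ i))
    rw [← h] at h2
    have h3 : s / 64 / 2 ^ T (γ i) = (s / 16 / 2 ^ T (γ i)) / 4 := by ring
    have h4 : 0 < s / 16 / 2 ^ T (γ i) := by positivity
    rw [h3] at h2
    linarith
  · intro i hi n
    have h1 := hb i n
    have h2 := (le_max_right (S i).κ (w + 2 + b i)).trans (hκ i hi.le)
    linarith

end Pool.Agent.H46.SK
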