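import Pool.Agent.H46.SK.Base
import Pool.Agent.H14.Solve
import Pool.Agent.H14.PFns
import Pool.Agent.H14.Size

/-!
# Module TRE: from a branching tree with a potential to an algorithm

Proof: adapt `Pool.Agent.H83.E14.gap_of_par` (file `Pool/Agent/H14/Gap.lean`) or the end of `Pool/Agent/H14/SparseK.lean`.
Use `solvableIn_of_eval` with `out N = encodeCNF (fml N).1 (fml N).2`, `init w = root (parse w)` (`pParse`,
`parse_encodeCNF`, `pEncodeCNF`), and `eval_of_pot` with `P := P n`, `ans N = decide (Acc isLeaf childA childB sat N)`,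
`sat N = Satisfiable (fml N).2` (classical decidability).  At a leaf `Acc N ↔ sat N`, at an inner node
`Acc N ↔ Acc (childA N) ∨ Acc (childB N)` (cases on `Acc`).  The machine for `K`-SAT answers `decide (Satisfiable G)` on
`encodeCNF n' G` within `c 2 ^ (σ n') ≤ C 2 ^ (pot N)`.  Depth bound: `d ≤ pot / η ≤ (c₀ + ρ n) / η ≤ K1 + K2 n`.
Length of the input: `length_encodeCNF_le`.
-/

set_option autoImplicit false

namespace Pool.Agent.H46.SK

open Finset Pool.Agent.H14.ETH Pool.Agent.H83 Pool.Agent.H14.XCmd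

theorem TRE_acc_leaf {Node : Type} {isLeaf : Node → Bool} {childA childB : Node → Node}
    {sat : Node → Prop} {N : Node} (h : isLeaf N = true) :
    Acc isLeaf childA childB sat N ↔ sat N := by
  constructor
  · intro hA
    cases hA with
    | leaf _ h2 => exact h2
    | left h1 _ => rw [h] at h1; exact absurd h1 (by simp)
    | right h1 _ => rw [h] at h1; exact absurd h1 (by simp)
  · exact fun h2 => Acc.leaf h h2

theorem TRE_acc_node {Node : Type} {isLeaf : Node → Bool} {childA childB : Node → Node}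
    {sat : Node → Prop} {N : Node} (h : isLeaf N = false) :
    Acc isLeaf childA childB sat N ↔
      (Acc isLeaf childA childB sat (childA N) ∨ Acc isLeaf childA childB sat (childB N)) := by
  constructor
  · intro hA
    cases hA with
    | leaf h1 _ => rw [h] at h1; exact absurd h1 (by simp)
    | left _ h2 => exact Or.inl h2
    | right _ h2 => exact Or.inr h2
  · rintro (h2 | h2)
    · exact Acc.left h h2
    · exact Acc.right h h2

theorem solvableIn_of_tree {Node : Type} [Enc Node] {k K : ℕ} {σ ρ ρ' : ℝ}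
    (hK : SolvableIn K σ) (hρ0 : 0 ≤ ρ)
    {isLeaf : Node → Bool} {childA childB : Node → Node} {fml : Node → ℕ × LFam}
    {root : ℕ × LFam → Node}
    (pl : Pool.Agent.H83.Poly isLeaf) (pA : Pool.Agent.H83.Poly childA)
    (pB : Pool.Agent.H83.Poly childB) (pf : Pool.Agent.H83.Poly fml)
    (pr : Pool.Agent.H83.Poly root)
    (P : ℕ → Node → Prop) (pot : Node → ℝ) {η c₀ : ℝ} (hη : 0 < η)
    {S : ℕ → ℕ} (hS : PB S) (hsz : ∀ m N, P m N → sz N ≤ S m)
    (hpos : ∀ m N, P m N → 0 ≤ pot N)
    (hleaf : ∀ m N, P m N → isLeaf N = true →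
      IsCNF K (fml N).1 (fml N).2 ∧ σ * (fml N).1 ≤ pot N)
    (hnode : ∀ m N, P m N → isLeaf N = false → P m (childA N) ∧ P m (childB N) ∧
      ∃ x y : ℝ, η ≤ x ∧ η ≤ y ∧ pot (childA N) ≤ pot N - x ∧ pot (childB N) ≤ pot N - y ∧
        (2 : ℝ) ^ (-x) + (2 : ℝ) ^ (-y) ≤ 1)
    (hroot : ∀ (n : ℕ) (F : LFam), IsCNF k n F → P n (root (n, F)) ∧
      pot (root (n, F)) ≤ c₀ + ρ * n ∧
      (Acc isLeaf childA childB (fun N => Satisfiable (fml N).2) (root (n, F)) ↔ Satisfiable F))
    (hρ : ρ < ρ') : SolvableIn k ρ' := by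
  classical
  obtain ⟨M, c, hM⟩ := hK
  set C : ℝ := max c 1 with hC
  have hC1 : 1 ≤ C := le_max_right _ _
  have hcC : c ≤ C := le_max_left _ _
  set K1 : ℕ := ⌈c₀ / η⌉₊ with hK1
  set K2 : ℕ := ⌈ρ / η⌉₊ with hK2
  set D : ℝ := (2 : ℝ) ^ c₀ with hD
  have hD0 : 0 < D := by positivity
  refine solvableIn_of_eval (M := M) (isLeaf := isLeaf) (childA := childA) (childB := childB)
    (out := fun N => encodeCNF (fml N).1 (fml N).2) (init := fun w => root (parse w))
    pl pA pB (E14.pEncodeCNF (Pool.Agent.H83.Poly.fst' pf) (Pool.Agent.H83.Poly.snd' pf))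
    (pr.comp E14.pParse)
    (C := max C 2 * D) (ρ := ρ)
    (q := fun n => (S n + (K1 + K2 * n)) +
      (n + ((k + 1) * (2 * n + 1) ^ k) * (k * n + 1))) ?_ ?_ hρ
  · refine (hS.add ((PB.const K1).add
      ((PB.const K2).mul PB.id))).add (PB.id.add ((PB.const (k + 1)).mul
        ((((PB.const 2).mul PB.id).add (PB.const 1)).pow k) |>.mul
          (((PB.const k).mul PB.id).add (PB.const 1))))
  · intro n F hF
    have hroot' : root (parse (encodeCNF n F)) = root (n, F) := by
      rw [parse_encodeCNF]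
    obtain ⟨hP, hpotr, hacc⟩ := hroot n F hF
    have key := eval_of_pot (M := M) (isLeaf := isLeaf) (childA := childA) (childB := childB)
      (out := fun N => encodeCNF (fml N).1 (fml N).2) (S := S n) (P n) pot
      (fun N => decide (Acc isLeaf childA childB (fun N => Satisfiable (fml N).2) N))
      (η := η) (C := C) hη (fun N hN => hsz n N hN) (fun N hN => hpos n N hN) ?_ ?_
      (by linarith) _ hP
    · obtain ⟨t, cc, d, he, ht, hcc, hd⟩ := key
      have hans : decide (Acc isLeaf childA childB (fun N => Satisfiable (fml N).2)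
          (root (n, F))) = decide (Satisfiable F) := decide_eq_decide.2 hacc
      have h2pot : (2 : ℝ) ^ pot (root (n, F)) ≤ D * (2 : ℝ) ^ (ρ * n) := by
        rw [hD, ← Real.rpow_add (by norm_num)]
        exact Real.rpow_le_rpow_of_exponent_le (by norm_num) hpotr
      have hX : (0 : ℝ) ≤ D * (2 : ℝ) ^ (ρ * n) := by positivity
      have hlen := E14.length_encodeCNF_le hF
      refine ⟨t, cc, d, S n, ?_, ?_, ?_, ?_, ?_, ?_⟩
      · rw [hroot']
        have e : @decide (Satisfiable F) (Classical.propDecidable _) = decide (Satisfiable F) := by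
          congr
        rw [e, ← hans]
        exact he
      · calc (t : ℝ) ≤ C * (2 : ℝ) ^ pot (root (n, F)) := ht
          _ ≤ C * (D * (2 : ℝ) ^ (ρ * n)) :=
            mul_le_mul_of_nonneg_left h2pot (by linarith)
          _ ≤ max C 2 * (D * (2 : ℝ) ^ (ρ * n)) :=
            mul_le_mul_of_nonneg_right (le_max_left _ _) hX
          _ = _ := by ring
      · calc (cc : ℝ) ≤ 2 * (2 : ℝ) ^ pot (root (n, F)) := by linarith
          _ ≤ 2 * (D * (2 : ℝ) ^ (ρ * n)) :=
            mul_le_mul_of_nonneg_left h2pot (by norm_num)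
          _ ≤ max C 2 * (D * (2 : ℝ) ^ (ρ * n)) :=
            mul_le_mul_of_nonneg_right (le_max_right _ _) hX
          _ = _ := by ring
      · have h1 : (d : ℝ) ≤ K1 + K2 * n := by
          have h2 : (d : ℝ) ≤ (c₀ + ρ * n) / η :=
            hd.trans (div_le_div_of_nonneg_right hpotr hη.le)
          have h3 : (c₀ + ρ * n) / η = c₀ / η + ρ / η * n := by
            field_simp
          have h4 := Nat.le_ceil (c₀ / η)
          have h5 := mul_le_mul_of_nonneg_right (Nat.le_ceil (ρ / η))
            (Nat.cast_nonneg (α := ℝ) n)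
          rw [h3] at h2
          linarith
        have h6 : d ≤ K1 + K2 * n := by exact_mod_cast h1
        omega
      · omega
      · omega
    · intro N hN hl
      obtain ⟨h2, h4⟩ := hleaf n N hN hl
      obtain ⟨t, ht, hans⟩ := hM (fml N).1 (fml N).2 h2
      refine ⟨t, ?_, ?_⟩
      · have e : decide (Acc isLeaf childA childB (fun N => Satisfiable (fml N).2) N) =
            @decide (Satisfiable (fml N).2) (Classical.propDecidable _) := by
          rw [decide_eq_decide]
          exact TRE_acc_leaf hl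
        rw [e]
        exact hans
      · refine ht.trans ?_
        have h5 : (2 : ℝ) ^ (σ * (fml N).1) ≤ (2 : ℝ) ^ pot N :=
          Real.rpow_le_rpow_of_exponent_le (by norm_num) h4
        have h6 : (0 : ℝ) ≤ (2 : ℝ) ^ (σ * (fml N).1) := by positivity
        calc c * (2 : ℝ) ^ (σ * (fml N).1) ≤ C * (2 : ℝ) ^ (σ * (fml N).1) :=
              mul_le_mul_of_nonneg_right hcC h6
          _ ≤ _ := mul_le_mul_of_nonneg_left h5 (by linarith)
    · intro N hN hl
      obtain ⟨h1, h2, x, y, h5⟩ := hnode n N hN hl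
      refine ⟨h1, h2, ?_, x, y, h5⟩
      rw [← Bool.decide_or]
      exact decide_eq_decide.2 (TRE_acc_node hl)

end Pool.Agent.H46.SK
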