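import Pool.Agent.H46.SK.CPC
import Pool.Agent.H46.SK.NDS
import Pool.Agent.H46.SK.PFC
import Pool.Agent.H46.SK.PRM
import Pool.Agent.H46.SK.TRE
import Pool.Agent.H14.EquivK

/-!
# Module FIN: the gap
-/

set_option autoImplicit false

namespace Pool.Agent.H46.SK

open Finset Pool.Agent.H14.ETH Pool.Agent.H83

namespace Pars

variable {k : ℕ} {s : ℝ} (P : Pars k s)

theorem root_good (hk : 3 ≤ k) {n : ℕ} {F : LFam} (hF : IsCNF k n F) :
    GoodM (P.S P.I).W (n + k) (initF k n F) [] where
  linv := by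
    rw [List.append_nil]
    exact initF_linv hF
  inv := by
    rw [List.append_nil]
    have hsz : ∀ C ∈ toF (initF k n F), C.card = k := initF_size hF
    have he : toF ([] : LFam) = ∅ := rfl
    refine ⟨initF_over hF, anti_of_card hsz, fun C hC => by rw [hsz C hC]; omega, ?_, ?_, ?_⟩
    · rw [he]; exact Finset.empty_subset _
    · intro C hC h1
      rw [hsz C hC] at h1
      omega
    · rw [he]
      refine ⟨by intro C hC; simp at hC, by intro C hC; simp at hC, by intro C hC; simp at hC, ?_,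
        Or.inl (P.S P.I).top⟩
      intro i _ G _ _
      have : dg (∅ : Fam) i G = 0 := by simp [dg, sups]
      omega
  nt := by
    rw [List.append_nil]
    exact initF_nt hF

theorem gap (hk : 3 ≤ k) (hs : 0 < s) {σ : ℝ} (hσ : s ≤ σ) (h : SolvableIn (2 * k - 2) σ)
    {ρ' : ℝ} (hρ : σ - P.δ < ρ') : SolvableIn k ρ' := by
  obtain ⟨S, hS, hsz⟩ := P.exists_size_bound
  have hd : P.δ ≤ s / 4 := by
    have h1 := P.aux_d hs le_rfl
    have h2 := P.hγ P.I le_rfl
    unfold δ
    linarith
  refine solvableIn_of_tree h (ρ := σ - P.δ) (by linarith) (E46.pLeaf' P) (E46.pChA' P)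
    (E46.pChB' P) (E46.pFml' P) (E46.pRoot' P) P.Pre (P.pot σ) (η := P.η)
    (c₀ := P.κ + P.I + (σ - P.δ) * k) P.hη hS hsz
    (fun m N hN => P.pot_nonneg hs hσ hN) (fun m N hN hl => P.leaf_spec hk hs hσ hN hl)
    (fun m N hN hl => P.node_spec hk hs hσ hN hl) ?_ hρ
  intro n F hF
  have hg := P.root_good hk hF
  have hpre : P.Pre n (P.root (n, F)) := Or.inl ⟨P.I, initF k n F, [], rfl, le_rfl, hg⟩
  refine ⟨hpre, ?_, ?_⟩
  · have hκ : 0 ≤ P.κ := by
      have h1 := P.hκS 0 (Nat.zero_le _)
      have h2 := (P.S 0).η_pos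
      have h3 := (P.S 0).η_le_κ
      linarith
    have hI : (0 : ℝ) ≤ P.I := Nat.cast_nonneg _
    have hn : (0 : ℝ) ≤ n := Nat.cast_nonneg _
    have hk0 : (0 : ℝ) ≤ k := Nat.cast_nonneg _
    have h1 : 0 ≤ (σ - P.δ) * k := mul_nonneg (by linarith) hk0
    have h2 : 0 ≤ (σ - P.δ) * n := mul_nonneg (by linarith) hn
    unfold pot
    rw [if_pos (show (P.root (n, F)).md = 0 from rfl)]
    split_ifs with hdead
    · linarith
    · have e1 : (P.root (n, F)).st = P.I := rfl
      have e2 : (P.root (n, F)).nn = n + k := rfl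
      have e3 : (P.root (n, F)).ma = [] := rfl
      have e4 : wgt (P.S P.I).W.a (toF ([] : LFam)) = 0 := by
        simp [wgt, toF]
      rw [e1, e2, e3, e4]
      push_cast
      unfold δ
      linarith
  · constructor
    · intro ha
      have h1 := P.sound hk hs hpre ha
      have e : (P.root (n, F)).oo ++ (P.root (n, F)).ma = initF k n F := by
        show initF k n F ++ [] = _
        rw [List.append_nil]
      rw [e] at h1
      exact (satisfiable_initF hF).1 h1
    · intro hsat
      have h1 := (satisfiable_initF hF).2 hsat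
      obtain ⟨v, hv⟩ := (satisfiable_iff _).1 h1
      refine P.complete hk hs (by omega) hg (v := v) ?_
      rw [List.append_nil]
      exact hv

end Pars

/-- The gap between the exponents of `k`-SAT and `(2k-2)`-SAT. -/
theorem satExp_lt {k : ℕ} (hk : 3 ≤ k) (h : 0 < satExp (2 * k - 2)) :
    satExp k < satExp (2 * k - 2) := by
  have hs : 0 < min (satExp (2 * k - 2)) 1 := lt_min h one_pos
  obtain ⟨P⟩ := exists_pars hk hs (min_le_right _ _)
  have hδ : 0 < P.δ := P.hd P.I le_rfl
  have hδs : P.δ ≤ min (satExp (2 * k - 2)) 1 / 4 := by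
    have h1 := P.aux_d hs le_rfl
    have h2 := P.hγ P.I le_rfl
    unfold Pars.δ
    linarith
  have h2 : satExp k + P.δ ≤ satExp (2 * k - 2) := by
    refine le_csInf (expSet_nonempty_of_pos h) ?_
    rintro σ ⟨hσ0, hσ⟩
    have h1 : min (satExp (2 * k - 2)) 1 ≤ σ := (min_le_left _ _).trans (satExp_le hσ0 hσ)
    have h2 : satExp k ≤ σ - P.δ := by
      refine le_of_forall_gt_imp_ge_of_dense fun ρ hρ => ?_
      exact satExp_le (by linarith) (P.gap hk hs h1 hσ hρ)
    linarith
  linarith

/-- For every `k ≥ 3` the exponential time hypothesis is equivalent to `s_k < s_(2k-2)`. -/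
theorem eth_iff_lt {k : ℕ} (hk : 3 ≤ k) :
    (∀ j : ℕ, 3 ≤ j → 0 < satExp j) ↔ satExp k < satExp (2 * k - 2) :=
  ⟨fun h => satExp_lt hk (h _ (by omega)), fun h => eth_of_lt hk h⟩

end Pool.Agent.H46.SK
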