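import Pool.Agent.H46.SK.Base

/-!
# Module HSA: averages over masks

`lists m` is the finset of all lists of Booleans of length `m` (there are `2 ^ m` of them).
`chi b x` is the parity of the bits of `x` in the mask `b`; for `x ≠ y` less than `2 ^ r`, exactly half of the
masks of length `r` separate `x` and `y` (if `x`, `y` differ in the bit `j`, then flipping `b_j` changes
`xor (chi b x) (chi b y)`; or by induction on `r`: `chi (c :: b) x = xor (c && x odd) (chi b (x/2))`; if
`x/2 ≠ y/2` use the induction hypothesis for each `c`, else `x`, `y` have different parities and the
separation is decided by `c`).  With the constant `c₀` in front: `par (c₀ :: b) x = xor c₀ (chi b x)`, so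
for a mask of length `r + 1`: `x` is selected for exactly half of the masks, and both `x`, `y` for exactly a
quarter.
-/

set_option autoImplicit false

namespace Pool.Agent.H46.SK

open Finset

/-- The lists of Booleans of length `m`. -/
def blists : ℕ → Finset (List Bool)
  | 0 => {[]}
  | m + 1 => (blists m).image (fun b => true :: b) ∪ (blists m).image (fun b => false :: b)

theorem hsa_disj (m : ℕ) : Disjoint ((blists m).image (fun b => true :: b))
    ((blists m).image (fun b => false :: b)) := by
  rw [Finset.disjoint_left]
  intro b h1 h2
  obtain ⟨c, _, rfl⟩ := Finset.mem_image.1 h1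
  obtain ⟨d, _, h⟩ := Finset.mem_image.1 h2
  simp at h

theorem hsa_card_filter (m : ℕ) (P : List Bool → Prop) [DecidablePred P] :
    ((blists (m + 1)).filter P).card =
      ((blists m).filter (fun b => P (true :: b))).card +
      ((blists m).filter (fun b => P (false :: b))).card := by
  have e : ∀ c : Bool, (((blists m).image (fun b => c :: b)).filter P).card =
      ((blists m).filter (fun b => P (c :: b))).card := by
    intro c
    rw [Finset.filter_image, Finset.card_image_of_injective]
    intro a b h
    simpa using h
  rw [blists, Finset.filter_union, Finset.card_union_of_disjoint, e, e]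
  exact Finset.disjoint_filter_filter (hsa_disj m)

theorem mem_blists {m : ℕ} {b : List Bool} : b ∈ blists m ↔ b.length = m := by
  induction m generalizing b with
  | zero => simp [blists]
  | succ m ih =>
    rw [blists, Finset.mem_union, Finset.mem_image, Finset.mem_image]
    constructor
    · rintro (⟨a, ha, rfl⟩ | ⟨a, ha, rfl⟩)
      · simp [ih.1 ha]
      · simp [ih.1 ha]
    · intro h
      cases b with
      | nil => simp at h
      | cons c a =>
        have ha : a ∈ blists m := ih.2 (by simpa using h)
        cases c
        · exact Or.inr ⟨a, ha, rfl⟩
        · exact Or.inl ⟨a, ha, rfl⟩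

theorem card_blists (m : ℕ) : (blists m).card = 2 ^ m := by
  induction m with
  | zero => simp [blists]
  | succ m ih =>
    have h := hsa_card_filter m (fun _ => True)
    simp only [Finset.filter_true] at h
    rw [h, ih, pow_succ]
    ring

theorem hsa_compl (m : ℕ) (P : List Bool → Prop) [DecidablePred P] :
    ((blists m).filter P).card + ((blists m).filter (fun b => ¬ P b)).card = 2 ^ m := by
  rw [Finset.card_filter_add_card_filter_not, card_blists]

theorem card_par (r x : ℕ) :
    ((blists (r + 1)).filter (fun b => par b x = true)).card = 2 ^ r := by
  rw [hsa_card_filter, ← hsa_compl r (fun b => chi b x = true), add_comm]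
  congr 2
  · ext b; simp [par]
  · ext b; simp [par]

theorem hsa_eq : ∀ (r : ℕ) {x y : ℕ}, x < 2 ^ r → y < 2 ^ r → x ≠ y →
    ((blists r).filter (fun b => chi b x = chi b y)).card = 2 ^ (r - 1) := by
  intro r
  induction r with
  | zero =>
    intro x y hx hy h
    simp at hx hy
    omega
  | succ r ih =>
    intro x y hx hy h
    have hx' : x / 2 < 2 ^ r := by rw [pow_succ] at hx; omega
    have hy' : y / 2 < 2 ^ r := by rw [pow_succ] at hy; omega
    rw [hsa_card_filter, Nat.add_sub_cancel]
    by_cases e : x / 2 = y / 2
    · have hp : decide (x % 2 = 1) ≠ decide (y % 2 = 1) := by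
        intro hh
        have : (x % 2 = 1) ↔ (y % 2 = 1) := decide_eq_decide.1 hh
        omega
      have h1 : (blists r).filter (fun b => chi (true :: b) x = chi (true :: b) y) = ∅ := by
        rw [Finset.filter_eq_empty_iff]
        intro b _ hb
        simp only [chi, Bool.true_and, e] at hb
        apply hp
        revert hb
        generalize decide (x % 2 = 1) = u
        generalize decide (y % 2 = 1) = v
        generalize chi b (y / 2) = w
        cases u <;> cases v <;> cases w <;> simp
      have h2 : (blists r).filter (fun b => chi (false :: b) x = chi (false :: b) y) = blists r := by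
        rw [Finset.filter_eq_self]
        intro b _
        simp only [chi, e, Bool.false_and]
      rw [h1, h2, card_blists]
      simp
    · have hr : 1 ≤ r := by
        rcases Nat.eq_zero_or_pos r with h0 | h0
        · subst h0
          simp at hx' hy'
          omega
        · exact h0
      have k1 := ih hx' hy' e
      have k2 := hsa_compl r (fun b => chi b (x / 2) = chi b (y / 2))
      rw [k1] at k2
      have k3 : (2 : ℕ) ^ r = 2 ^ (r - 1) + 2 ^ (r - 1) := by
        obtain ⟨s, rfl⟩ : ∃ s, r = s + 1 := ⟨r - 1, by omega⟩
        rw [Nat.add_sub_cancel, pow_succ]
        ring
      have h2 : ((blists r).filter (fun b => chi (false :: b) x = chi (false :: b) y)).card =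
          2 ^ (r - 1) := by
        rw [← k1]
        congr 1
        apply Finset.filter_congr
        intro b _
        simp [chi]
      have h1 : ((blists r).filter (fun b => chi (true :: b) x = chi (true :: b) y)).card =
          2 ^ (r - 1) := by
        by_cases hp : decide (x % 2 = 1) = decide (y % 2 = 1)
        · rw [← k1]
          congr 1
          apply Finset.filter_congr
          intro b _
          simp only [chi, Bool.true_and, hp]
          generalize decide (y % 2 = 1) = v
          cases v <;> simp
        · have k4 : ((blists r).filter (fun b => ¬ chi b (x / 2) = chi b (y / 2))).card =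
              2 ^ (r - 1) := by omega
          rw [← k4]
          congr 1
          apply Finset.filter_congr
          intro b _
          simp only [chi, Bool.true_and]
          revert hp
          generalize decide (x % 2 = 1) = u
          generalize decide (y % 2 = 1) = v
          generalize chi b (y / 2) = w
          generalize chi b (x / 2) = z
          cases u <;> cases v <;> cases w <;> cases z <;> simp
      rw [h1, h2, k3]

theorem card_par_par {r x y : ℕ} (hr : 1 ≤ r) (hx : x < 2 ^ r) (hy : y < 2 ^ r) (h : x ≠ y) :
    ((blists (r + 1)).filter (fun b => par b x = true ∧ par b y = true)).card = 2 ^ (r - 1) := by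
  rw [← hsa_eq r hx hy h, hsa_card_filter, ← Finset.card_union_of_disjoint]
  · congr 1
    rw [← Finset.filter_or]
    apply Finset.filter_congr
    intro b _
    simp only [par]
    generalize chi b x = u
    generalize chi b y = v
    cases u <;> cases v <;> simp
  · rw [Finset.disjoint_filter]
    intro b _ h1 h2
    simp only [par] at h1 h2
    revert h1 h2
    generalize chi b x = u
    generalize chi b y = v
    cases u <;> cases v <;> simp

end Pool.Agent.H46.SK
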