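import Pool.Agent.H46.SK.HSA

/-!
# Module HSB: successive halving

`psi α β B E X = |X| - α |X ∩ B| - β #{e ∈ E : e ⊆ X}`.  For a random mask the average of
`psi α (2 β) B E X₁`, `X₁` the selected part of `X`, is `|X|/2 - α |X ∩ B|/2 - 2 β e(X)/4 = psi α β B E X / 2`
(linearity and `card_par`, `card_par_par`, `card_blists`; if `r = 0` then all elements are `0`, so no pair
`e.1 ≠ e.2` lies in `X` and `e(X) = 0`), so some mask reaches the average (`halve`).  Iterate (`exists_chunk`), by induction on `t`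
for all `X` and `β`: the first mask is `b₁`, `List.take (r+1) (b₁ ++ b') = b₁`, `List.drop (r+1) (b₁ ++ b') = b'`.
-/

set_option autoImplicit false

namespace Pool.Agent.H46.SK

open Finset

/-- The potential for the choice of the items. -/
noncomputable def psi (α β : ℝ) (B : Finset ℕ) (E : Finset (ℕ × ℕ)) (X : Finset ℕ) : ℝ :=
  X.card - α * (X ∩ B).card - β * (E.filter (fun e => e.1 ∈ X ∧ e.2 ∈ X)).card

private theorem HSB_sum_card (r : ℕ) (Y : Finset ℕ) :
    ∑ b ∈ blists (r + 1), ((Y.filter (fun x => par b x = true)).card : ℝ) = 2 ^ r * (Y.card : ℝ) := by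
  have e1 : ∀ b : List Bool, ((Y.filter (fun x => par b x = true)).card : ℝ)
      = ∑ x ∈ Y, (if par b x = true then (1 : ℝ) else 0) := by
    intro b
    rw [Finset.card_filter]
    push_cast
    rfl
  simp only [e1]
  rw [Finset.sum_comm]
  have e2 : ∀ x ∈ Y, ∑ b ∈ blists (r + 1), (if par b x = true then (1 : ℝ) else 0) = 2 ^ r := by
    intro x _
    have := card_par r x
    rw [Finset.card_filter] at this
    have h2 : ((∑ b ∈ blists (r + 1), (if par b x = true then 1 else 0) : ℕ) : ℝ)
        = ((2 ^ r : ℕ) : ℝ) := by rw [this]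
    push_cast at h2
    exact h2
  rw [Finset.sum_congr rfl e2, Finset.sum_const, nsmul_eq_mul]
  ring

private theorem HSB_sum_pairs {r : ℕ} (E : Finset (ℕ × ℕ)) (X : Finset ℕ)
    (hX : ∀ x ∈ X, x < 2 ^ r) (hE : ∀ e ∈ E, e.1 ≠ e.2) :
    ∑ b ∈ blists (r + 1), ((E.filter (fun e => e.1 ∈ X.filter (fun x => par b x = true) ∧
      e.2 ∈ X.filter (fun x => par b x = true))).card : ℝ)
      = 2 ^ r / 2 * ((E.filter (fun e => e.1 ∈ X ∧ e.2 ∈ X)).card : ℝ) := by
  have e1 : ∀ b : List Bool, ((E.filter (fun e => e.1 ∈ X.filter (fun x => par b x = true) ∧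
      e.2 ∈ X.filter (fun x => par b x = true))).card : ℝ)
      = ∑ e ∈ E.filter (fun e => e.1 ∈ X ∧ e.2 ∈ X),
        (if par b e.1 = true ∧ par b e.2 = true then (1 : ℝ) else 0) := by
    intro b
    have h1 : E.filter (fun e => e.1 ∈ X.filter (fun x => par b x = true) ∧
      e.2 ∈ X.filter (fun x => par b x = true))
      = (E.filter (fun e => e.1 ∈ X ∧ e.2 ∈ X)).filter
        (fun e => par b e.1 = true ∧ par b e.2 = true) := by
      ext e
      simp only [Finset.mem_filter]
      tauto
    rw [h1, Finset.card_filter]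
    push_cast
    rfl
  simp only [e1]
  rw [Finset.sum_comm]
  have e2 : ∀ e ∈ E.filter (fun e => e.1 ∈ X ∧ e.2 ∈ X), ∑ b ∈ blists (r + 1),
      (if par b e.1 = true ∧ par b e.2 = true then (1 : ℝ) else 0) = 2 ^ r / 2 := by
    intro e he
    rw [Finset.mem_filter] at he
    obtain ⟨he0, he1, he2⟩ := he
    have hne := hE e he0
    have hl1 := hX _ he1
    have hl2 := hX _ he2
    have hr : 1 ≤ r := by
      by_contra hcon
      have : r = 0 := by omega
      subst this
      rw [pow_zero] at hl1 hl2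
      omega
    have := card_par_par hr hl1 hl2 hne
    rw [Finset.card_filter] at this
    have h2 : ((∑ b ∈ blists (r + 1), (if par b e.1 = true ∧ par b e.2 = true then 1 else 0) : ℕ) : ℝ)
        = ((2 ^ (r - 1) : ℕ) : ℝ) := by rw [this]
    push_cast at h2
    rw [h2]
    obtain ⟨m, rfl⟩ : ∃ m, r = m + 1 := ⟨r - 1, by omega⟩
    rw [Nat.add_sub_cancel, pow_succ]
    ring
  rw [Finset.sum_congr rfl e2, Finset.sum_const, nsmul_eq_mul]
  ring

theorem halve {r : ℕ} (α β : ℝ) (B : Finset ℕ) (E : Finset (ℕ × ℕ)) (X : Finset ℕ)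
    (hX : ∀ x ∈ X, x < 2 ^ r) (hE : ∀ e ∈ E, e.1 ≠ e.2) : ∃ b : List Bool, b.length = r + 1 ∧
      psi α β B E X / 2 ≤ psi α (2 * β) B E (X.filter (fun x => par b x = true)) := by
  have hne : (blists (r + 1)).Nonempty := by
    rw [← Finset.card_pos, card_blists]
    positivity
  have hsum : ∑ b ∈ blists (r + 1), psi α β B E X / 2
      ≤ ∑ b ∈ blists (r + 1), psi α (2 * β) B E (X.filter (fun x => par b x = true)) := by
    apply le_of_eq
    rw [Finset.sum_const, nsmul_eq_mul, card_blists]
    unfold psi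
    rw [Finset.sum_sub_distrib, Finset.sum_sub_distrib, ← Finset.mul_sum, ← Finset.mul_sum,
      HSB_sum_card, HSB_sum_pairs E X hX hE]
    have e1 : ∀ b : List Bool, X.filter (fun x => par b x = true) ∩ B
        = (X ∩ B).filter (fun x => par b x = true) := by
      intro b
      rw [Finset.filter_inter]
    simp only [e1]
    rw [HSB_sum_card]
    push_cast
    rw [pow_succ]
    ring
  obtain ⟨b, hb, hle⟩ := Finset.exists_le_of_sum_le hne hsum
  exact ⟨b, mem_blists.1 hb, hle⟩

theorem exists_chunk {r : ℕ} (t : ℕ) (α β : ℝ) (B : Finset ℕ) (E : Finset (ℕ × ℕ)) (X : List ℕ)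
    (hX : ∀ x ∈ X, x < 2 ^ r) (hE : ∀ e ∈ E, e.1 ≠ e.2) :
    ∃ b : List Bool, b.length = t * (r + 1) ∧
      psi α β B E X.toFinset / 2 ^ t ≤ psi α (2 ^ t * β) B E (chunkSel (r + 1) t b X).toFinset := by
  induction t generalizing X β with
  | zero =>
    refine ⟨[], by simp, ?_⟩
    simp [chunkSel]
  | succ t ih =>
    obtain ⟨b₁, hb₁, h1⟩ := halve (r := r) α β B E X.toFinset
      (fun x hx => hX x (List.mem_toFinset.1 hx)) hE
    obtain ⟨b', hb', h2⟩ := ih (2 * β) (X.filter (fun x => par b₁ x))
      (fun x hx => hX x (List.mem_filter.1 hx).1)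
    refine ⟨b₁ ++ b', ?_, ?_⟩
    · rw [List.length_append, hb₁, hb']; ring
    · have e1 : chunkSel (r + 1) (t + 1) (b₁ ++ b') X
          = chunkSel (r + 1) t b' (X.filter (fun x => par b₁ x)) := by
        show chunkSel (r + 1) t ((b₁ ++ b').drop (r + 1))
          (X.filter (fun x => par ((b₁ ++ b').take (r + 1)) x)) = _
        rw [List.drop_left' hb₁, List.take_left' hb₁]
      rw [e1]
      have e2 : (X.filter (fun x => par b₁ x)).toFinset
          = X.toFinset.filter (fun x => par b₁ x = true) := by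
        rw [List.toFinset_filter]
      rw [e2] at h2
      have e3 : (2 : ℝ) ^ (t + 1) * β = 2 ^ t * (2 * β) := by ring
      rw [e3]
      refine le_trans ?_ h2
      have e4 : psi α β B E X.toFinset / 2 ^ (t + 1) = psi α β B E X.toFinset / 2 / 2 ^ t := by
        rw [pow_succ]; field_simp
      rw [e4]
      exact div_le_div_of_nonneg_right h1 (by positivity)

theorem chunkSel_sublist (m t : ℕ) (b : List Bool) (X : List ℕ) :
    (chunkSel m t b X).Sublist X := by
  induction t generalizing b X with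
  | zero => exact List.Sublist.refl _
  | succ t ih =>
    show (chunkSel m t (b.drop m) (X.filter (fun x => par (b.take m) x))).Sublist X
    exact (ih _ _).trans List.filter_sublist

end Pool.Agent.H46.SK
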