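import Pool.Agent.H46.SK.HSB

/-!
# Module ITM: the items procedure succeeds (Lemma A)

`L` is the family `F_i` at the end of stage `i`, `𝒟 = F_(i-1)` the family at the end of the next stage.

Proof.  Let `Λ ≥ 1`, `k ≥ 2`.  For each `D ∈ 𝒟` let `P(D)` be the set of the variables of its true literals, nonempty
because `v` satisfies `𝒟`.  Let `E` be the set of the pairs `e D` : for `D ∈ 𝒟` with `|P(D)| ≥ 2` one pair of
different elements of `P(D)`; for `D ∈ 𝒟` critical for `x` all pairs `(x, z)` with `z ≠ x` a variable of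
`D`.  Each `D` contributes at most `k` pairs (`k ≥ 2 > 1` or `k - 1`), so `#E ≤ k Λ n`.  Let
`B = unitT v n 𝒟 ∪ critNew v n (toF L) 𝒟`, `#B ≤ (ε + u) n ≤ n / 2 ^ (w + 4)`.
Apply `exists_chunk` with `r = Nat.size n` (`x < n` implies `x < 2 ^ r`), `X = List.range n`, `α = 2 ^ (w + 2)`,
`β = 1 / (4 k Λ)`: `psi α β B E (range n) ≥ n - n / 4 - n / 4 = n / 2`.  So for `Y = chunkSel ...`:
`n / 2 ^ (t + 1) ≤ |Y| - α |Y ∩ B| - 2 ^ t β e(Y)`, whence `|Y| ≥ n / 2 ^ (t+1)`, `|Y ∩ B| ≤ |Y| / 2 ^ (w+2)`,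
`e(Y) ≤ |Y| 4 k Λ / 2 ^ t ≤ |Y| / 2 ^ (w + 2)`.
The items are `X = itemsL n t b L` = `Y` without the variables of unit clauses of `L`.  A unit clause `{(x,c)}` of
`toF L` has `c = v x` and contains some `D ∈ 𝒟`, nonempty, so `{(x, v x)} ∈ 𝒟` and `x ∈ B`.  So
`|X| ≥ |Y| - |Y ∩ B| ≥ (3/4) |Y|` (as `w ≥ 0`), in particular `n ≤ 4 * 2 ^ t * |X|`.
`bad` = `(X ∩ B) ∪ {e.1 : e ∈ E, e ⊆ X}`; `#bad ≤ |Y| / 2 ^ (w+1) ≤ (3/4) |Y| / 2 ^ w ≤ |X| / 2 ^ w`.
Claim: let `X' = X \ bad` and let `D ∈ toF L` contain two different literals with variables in `X'`; then `D` has a true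
literal with variable outside `X'`.  Otherwise `P(D) ⊆ X'`.  Take `H ∈ 𝒟`, `H ⊆ D` (`Ref`).  `P(H) ⊆ P(D) ⊆ X'`.
If `|P(H)| ≥ 2` then its pair `e` is in `E`, inside `X`, so `e.1 ∈ bad`: contradiction.  So `H` is critical for some `x ∈ X'`.
If `H.card = 1` then `x ∈ unitT ⊆ B`, contradiction.  If `H ∉ toF L` then `x ∈ critNew ⊆ B`, contradiction.  So `H ∈ toF L`, and
`H = D` as `toF L` is an antichain.  `D` has two different literals with variables in `X'`; they have different variables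
(`D` has no complementary literals, `NT`), so one of them has a variable `z ≠ x`, `z ∈ X'`, and `(x, z) ∈ E` lies inside
`X`: so `x ∈ bad`, a contradiction.
(`n = 0`: everything is empty; the proof covers it.)
-/

set_option autoImplicit false

namespace Pool.Agent.H46.SK

open Finset Pool.Agent.H14.ETH

/-- The pairs of one clause: the variable of a chosen true literal and another variable. -/
theorem itm_pairs {k : ℕ} {v : ℕ → Bool} {𝒟 : Fam} (hDs : satBy v 𝒟)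
    (hsz : ∀ D ∈ 𝒟, D.card ≤ k) :
    ∃ (x : Finset Lit → ℕ) (E : Finset (ℕ × ℕ)), E.card ≤ k * 𝒟.card ∧ (∀ e ∈ E, e.1 ≠ e.2) ∧
      (∀ D ∈ 𝒟, (x D, v (x D)) ∈ D ∧ ∀ l ∈ D, l.1 ≠ x D → (x D, l.1) ∈ E) := by
  classical
  have h1 : ∀ D ∈ 𝒟, ∃ x : ℕ, (x, v x) ∈ D := by
    intro D hD
    obtain ⟨l, hl, hv⟩ := hDs D hD
    refine ⟨l.1, ?_⟩
    have : (l.1, v l.1) = l := by rw [hv]
    rw [this]; exact hl
  choose! x hx using h1
  refine ⟨x, 𝒟.biUnion (fun D => (D.filter (fun l => l.1 ≠ x D)).image (fun l => (x D, l.1))),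
    ?_, ?_, ?_⟩
  · rw [mul_comm]
    refine Finset.card_biUnion_le_card_mul _ _ _ (fun D hD => ?_)
    exact (Finset.card_image_le).trans ((Finset.card_filter_le _ _).trans (hsz D hD))
  · intro e he
    rw [Finset.mem_biUnion] at he
    obtain ⟨D, hD, he⟩ := he
    rw [Finset.mem_image] at he
    obtain ⟨l, hl, rfl⟩ := he
    rw [Finset.mem_filter] at hl
    exact fun h => hl.2 h.symm
  · intro D hD
    refine ⟨hx D hD, fun l hl hne => ?_⟩
    rw [Finset.mem_biUnion]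
    refine ⟨D, hD, ?_⟩
    rw [Finset.mem_image]
    exact ⟨l, Finset.mem_filter.2 ⟨hl, hne⟩, rfl⟩

/-- The logical part. -/
theorem itm_claim {k n : ℕ} {v : ℕ → Bool} {L : LFam} (ha : Anti (toF L)) (hnt : NT (toF L))
    {𝒟 : Fam} (hD : Over n 𝒟) (href : Ref k (toF L) 𝒟) {x : Finset Lit → ℕ}
    {E : Finset (ℕ × ℕ)} (hE : ∀ D ∈ 𝒟, (x D, v (x D)) ∈ D ∧ ∀ l ∈ D, l.1 ≠ x D → (x D, l.1) ∈ E)
    {X bad : Finset ℕ} (hb1 : ∀ y ∈ X, y ∈ unitT v n 𝒟 → y ∈ bad)
    (hb2 : ∀ y ∈ X, y ∈ critNew v n (toF L) 𝒟 → y ∈ bad)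
    (hb3 : ∀ e ∈ E, e.1 ∈ X → e.2 ∈ X → e.1 ∈ bad)
    {D : Finset Lit} (hDL : D ∈ toF L)
    (htwo : ∃ l ∈ D, ∃ m ∈ D, l ≠ m ∧ l.1 ∈ X \ bad ∧ m.1 ∈ X \ bad) :
    ∃ l ∈ D, v l.1 = l.2 ∧ l.1 ∉ X \ bad := by
  classical
  by_contra hcon
  push Not at hcon
  obtain ⟨H, hH, hHD⟩ := href.1 D hDL
  obtain ⟨hx1, hx2⟩ := hE H hH
  have hxX : x H ∈ X \ bad := hcon (x H, v (x H)) (hHD hx1) rfl
  rw [Finset.mem_sdiff] at hxX
  -- no other variable of `H` is in `X'`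
  have hno : ∀ l ∈ H, l.1 ∈ X \ bad → l.1 = x H := by
    intro l hl hlX
    by_contra hne
    rw [Finset.mem_sdiff] at hlX
    exact hxX.2 (hb3 _ (hx2 l hl hne) hxX.1 hlX.1)
  have hcrit : Crit v (x H) H := by
    unfold Crit
    ext l
    rw [Finset.mem_filter, Finset.mem_singleton]
    constructor
    · rintro ⟨hl, hv⟩
      have h1 := hno l hl (hcon l (hHD hl) hv)
      rw [← h1, hv]
    · rintro rfl
      exact ⟨hx1, rfl⟩
  have hxn : x H < n := by
    have := hD H hH hx1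
    rwa [mem_lits] at this
  have hHL : H ∈ toF L := by
    by_contra hHL
    have hcard : H.card ≠ 1 := by
      intro h1
      obtain ⟨l, hl⟩ := Finset.card_eq_one.1 h1
      have h3 : ∀ z ∈ H, z = l := by
        intro z hz
        rw [hl] at hz
        exact Finset.mem_singleton.1 hz
      have h2 : l = (x H, v (x H)) := (h3 _ hx1).symm
      apply hxX.2
      apply hb1 _ hxX.1
      unfold unitT
      rw [Finset.mem_filter, Finset.mem_range, ← h2, ← hl]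
      exact ⟨hxn, hH⟩
    have hpos : 0 < H.card := Finset.card_pos.2 ⟨_, hx1⟩
    apply hxX.2
    apply hb2 _ hxX.1
    unfold critNew
    rw [Finset.mem_filter, Finset.mem_range]
    exact ⟨hxn, H, hH, hHL, by omega, hcrit⟩
  have hHD' : H = D := ha H hHL D hDL hHD
  subst hHD'
  obtain ⟨l, hl, m, hm, hlm, hlX, hmX⟩ := htwo
  have h1 := hno l hl hlX
  have h2 := hno m hm hmX
  have h3 : m.2 = !l.2 := by
    have : l.2 ≠ m.2 := by
      intro h
      apply hlm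
      exact Prod.ext (h1.trans h2.symm) h
    cases hl2 : l.2 <;> cases hm2 : m.2 <;> simp_all
  have h4 : (l.1, l.2) ∈ H := hl
  apply hnt H hDL l.1 l.2 h4
  have h5 : (l.1, !l.2) = m := by rw [← h3, h1, ← h2]
  rw [h5]; exact hm

/-- The arithmetic part. -/
theorem itm_num {w t kΛ : ℕ} {n Y YB eY X : ℝ} (hkΛ : 1 ≤ kΛ) (ht : 2 ^ (w + 4) * kΛ ≤ 2 ^ t)
    (hYB : 0 ≤ YB) (heY : 0 ≤ eY)
    (h : n / 2 / 2 ^ t ≤ Y - 2 ^ (w + 2) * YB - 2 ^ t * (1 / (4 * kΛ)) * eY) (hX : Y - YB ≤ X)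
    (hn : 0 ≤ n) :
    n ≤ 4 * 2 ^ t * X ∧ 2 ^ w * (YB + eY) ≤ X := by
  have hT : (0 : ℝ) < 2 ^ t := by positivity
  have hk : (1 : ℝ) ≤ kΛ := by exact_mod_cast hkΛ
  have ht' : (2 : ℝ) ^ (w + 4) * kΛ ≤ 2 ^ t := by exact_mod_cast ht
  have hW : (1 : ℝ) ≤ 2 ^ w := one_le_pow₀ (by norm_num)
  have e2 : (2 : ℝ) ^ (w + 2) = 4 * 2 ^ w := by rw [pow_add]; ring
  have e4 : (2 : ℝ) ^ (w + 4) = 16 * 2 ^ w := by rw [pow_add]; ring
  rw [e2] at h
  rw [e4] at ht'
  have hc : 4 * (2 : ℝ) ^ w ≤ 2 ^ t * (1 / (4 * kΛ)) := by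
    rw [mul_one_div, le_div_iff₀ (by positivity)]
    linarith
  have h1 : 0 ≤ n / 2 / 2 ^ t := by positivity
  have h2 : 4 * 2 ^ w * eY ≤ 2 ^ t * (1 / (4 * kΛ)) * eY := mul_le_mul_of_nonneg_right hc heY
  have h3 : n / 2 / 2 ^ t ≤ Y - 4 * 2 ^ w * YB - 4 * 2 ^ w * eY := by linarith
  have h4 : YB ≤ 2 ^ w * YB := by nlinarith
  have h5 : 0 ≤ 2 ^ w * eY := by positivity
  have h6 : 0 ≤ 2 ^ w * YB := by positivity
  constructor
  · have h7 : n / 2 / 2 ^ t ≤ X := by linarith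
    rw [div_div, div_le_iff₀ (by positivity)] at h7
    nlinarith
  · rw [mul_add]
    linarith

theorem exists_items {k n : ℕ} (hk : 2 ≤ k) {v : ℕ → Bool} {L : LFam} (hL : LInv L)
    (hov : Over n (toF L)) (ha : Anti (toF L)) (hnt : NT (toF L)) (hs : satBy v (toF L))
    {𝒟 : Fam} (hD : Over n 𝒟) (hDs : satBy v 𝒟) (hsz : ∀ D ∈ 𝒟, D.card ≤ k)
    (href : Ref k (toF L) 𝒟) {Λ w t : ℕ} (hΛ : 1 ≤ Λ) (hcard : 𝒟.card ≤ Λ * n) {ε u : ℝ}
    (hu : ((unitT v n 𝒟).card : ℝ) ≤ u * n) (hε : ((critNew v n (toF L) 𝒟).card : ℝ) ≤ ε * n)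
    (hεu : ε + u ≤ 1 / 2 ^ (w + 4)) (ht : 2 ^ (w + 4) * (k * Λ) ≤ 2 ^ t) :
    ∃ b : List Bool, b.length = t * (Nat.size n + 1) ∧
      n ≤ 4 * 2 ^ t * (itemsL n t b L).length ∧
      ∃ bad : Finset ℕ, bad ⊆ (itemsL n t b L).toFinset ∧
        2 ^ w * bad.card ≤ (itemsL n t b L).length ∧
        ∀ D ∈ toF L, (∃ l ∈ D, ∃ m ∈ D, l ≠ m ∧ l.1 ∈ (itemsL n t b L).toFinset \ bad ∧
            m.1 ∈ (itemsL n t b L).toFinset \ bad) →
          ∃ l ∈ D, v l.1 = l.2 ∧ l.1 ∉ (itemsL n t b L).toFinset \ bad := by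
  classical
  obtain ⟨x, E, hEc, hEne, hEx⟩ := itm_pairs hDs hsz
  set B : Finset ℕ := unitT v n 𝒟 ∪ critNew v n (toF L) 𝒟 with hB
  have hkΛ : 1 ≤ k * Λ := Nat.mul_pos (by omega) hΛ
  obtain ⟨b, hbl, hb⟩ := exists_chunk (r := Nat.size n) t ((2 : ℝ) ^ (w + 2))
    (1 / (4 * ((k * Λ : ℕ) : ℝ))) B E (List.range n)
    (fun y hy => lt_of_lt_of_le (List.mem_range.1 hy) (Nat.lt_size_self n).le) hEne
  set Yl : List ℕ := chunkSel (Nat.size n + 1) t b (List.range n) with hYl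
  set Y : Finset ℕ := Yl.toFinset with hY
  have hsub : Yl.Sublist (List.range n) := chunkSel_sublist _ _ _ _
  have hYnd : Yl.Nodup := List.nodup_range.sublist hsub
  set Xl : List ℕ := itemsL n t b L with hXl
  have hXeq : Xl = Yl.filter (fun y => !(hasVar y (unitsL L))) := rfl
  set X : Finset ℕ := Xl.toFinset with hX
  have hXnd : Xl.Nodup := by rw [hXeq]; exact hYnd.filter _
  have hXcard : X.card = Xl.length := List.toFinset_card_of_nodup hXnd
  have hXY : X ⊆ Y := by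
    intro y hy
    rw [hX, hXeq, List.mem_toFinset, List.mem_filter] at hy
    rw [hY, List.mem_toFinset]; exact hy.1
  have hYn : ∀ y ∈ Y, y < n := by
    intro y hy
    rw [hY, List.mem_toFinset] at hy
    exact List.mem_range.1 (hsub.subset hy)
  have hYX : Y \ (Y ∩ B) ⊆ X := by
    intro y hy
    rw [Finset.mem_sdiff, Finset.mem_inter] at hy
    rw [hX, hXeq, List.mem_toFinset, List.mem_filter]
    refine ⟨by rw [← List.mem_toFinset]; exact hy.1, ?_⟩
    rw [Bool.not_eq_true', ← Bool.not_eq_true]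
    intro hv
    apply hy.2
    refine ⟨hy.1, ?_⟩
    rw [hasVar_iff'] at hv
    obtain ⟨c, hc⟩ := hv
    rw [mem_unitsL, unit_mem_toF hL] at hc
    have hvc : v y = c := by
      obtain ⟨l, hl, hlv⟩ := hs _ hc
      rw [Finset.mem_singleton] at hl
      subst hl; exact hlv
    obtain ⟨D, hDD, hDc⟩ := href.1 _ hc
    have hDeq : D = {(y, v y)} := by
      rw [← hvc] at hDc
      rcases Finset.subset_singleton_iff.1 hDc with h | h
      · exfalso
        obtain ⟨l, hl, _⟩ := hDs D hDD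
        rw [h] at hl; simp at hl
      · exact h
    rw [hB, Finset.mem_union]
    left
    unfold unitT
    rw [Finset.mem_filter, Finset.mem_range, ← hDeq]
    exact ⟨hYn y hy.1, hDD⟩
  -- the counting
  have hBcard : (B.card : ℝ) ≤ n / 2 ^ (w + 4) := by
    have h1 : (B.card : ℝ) ≤ (unitT v n 𝒟).card + (critNew v n (toF L) 𝒟).card := by
      exact_mod_cast Finset.card_union_le _ _
    have hn : (0 : ℝ) ≤ n := Nat.cast_nonneg n
    calc (B.card : ℝ) ≤ u * n + ε * n := by linarith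
      _ = (ε + u) * n := by ring
      _ ≤ 1 / 2 ^ (w + 4) * n := mul_le_mul_of_nonneg_right hεu hn
      _ = n / 2 ^ (w + 4) := by ring
  have hEcard : (E.card : ℝ) ≤ (k * Λ : ℕ) * n := by
    have h1 : E.card ≤ k * Λ * n := by
      calc E.card ≤ k * 𝒟.card := hEc
        _ ≤ k * (Λ * n) := Nat.mul_le_mul_left _ hcard
        _ = k * Λ * n := by ring
    exact_mod_cast h1
  have hstart : (n : ℝ) / 2 ≤ psi ((2 : ℝ) ^ (w + 2)) (1 / (4 * ((k * Λ : ℕ) : ℝ))) B E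
      (List.range n).toFinset := by
    unfold psi
    have h1 : ((List.range n).toFinset.card : ℝ) = n := by
      rw [List.toFinset_card_of_nodup List.nodup_range, List.length_range]
    have h2 : (((List.range n).toFinset ∩ B).card : ℝ) ≤ B.card := by
      exact_mod_cast Finset.card_le_card Finset.inter_subset_right
    have h3 : ((E.filter (fun e => e.1 ∈ (List.range n).toFinset ∧
        e.2 ∈ (List.range n).toFinset)).card : ℝ) ≤ E.card := by
      exact_mod_cast Finset.card_filter_le _ _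
    have hkΛ' : (0 : ℝ) < ((k * Λ : ℕ) : ℝ) := by exact_mod_cast hkΛ
    have h4 : (2 : ℝ) ^ (w + 2) * (((List.range n).toFinset ∩ B).card : ℝ) ≤ n / 4 := by
      calc (2 : ℝ) ^ (w + 2) * (((List.range n).toFinset ∩ B).card : ℝ)
          ≤ (2 : ℝ) ^ (w + 2) * (n / 2 ^ (w + 4)) :=
            mul_le_mul_of_nonneg_left (h2.trans hBcard) (by positivity)
        _ = n / 4 := by
            rw [show w + 4 = (w + 2) + 2 by ring, pow_add (2 : ℝ) (w + 2) 2]
            field_simp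
            norm_num
    have h5 : 1 / (4 * ((k * Λ : ℕ) : ℝ)) * ((E.filter (fun e => e.1 ∈ (List.range n).toFinset ∧
        e.2 ∈ (List.range n).toFinset)).card : ℝ) ≤ n / 4 := by
      calc _ ≤ 1 / (4 * ((k * Λ : ℕ) : ℝ)) * ((k * Λ : ℕ) * n) :=
            mul_le_mul_of_nonneg_left (h3.trans hEcard) (by positivity)
        _ = n / 4 := by field_simp
    rw [h1]
    linarith
  have hmain : (n : ℝ) / 2 / 2 ^ t ≤ (Y.card : ℝ) - 2 ^ (w + 2) * ((Y ∩ B).card : ℝ)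
      - 2 ^ t * (1 / (4 * ((k * Λ : ℕ) : ℝ)))
        * ((E.filter (fun e => e.1 ∈ Y ∧ e.2 ∈ Y)).card : ℝ) := by
    have h1 : (n : ℝ) / 2 / 2 ^ t ≤ psi ((2 : ℝ) ^ (w + 2)) (1 / (4 * ((k * Λ : ℕ) : ℝ))) B E
      (List.range n).toFinset / 2 ^ t := div_le_div_of_nonneg_right hstart (by positivity)
    exact h1.trans hb
  have hXcard2 : (Y.card : ℝ) - ((Y ∩ B).card : ℝ) ≤ X.card := by
    have h1 : Y.card ≤ X.card + (Y ∩ B).card := by
      calc Y.card = (Y \ (Y ∩ B)).card + (Y ∩ B).card :=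
            (Finset.card_sdiff_add_card_eq_card Finset.inter_subset_left).symm
        _ ≤ X.card + (Y ∩ B).card := Nat.add_le_add_right (Finset.card_le_card hYX) _
    have h2 : (Y.card : ℝ) ≤ X.card + (Y ∩ B).card := by exact_mod_cast h1
    linarith
  obtain ⟨r1, r2⟩ := itm_num (w := w) (t := t) hkΛ (by
      calc 2 ^ (w + 4) * (k * Λ) ≤ 2 ^ t := ht) (Nat.cast_nonneg _) (Nat.cast_nonneg _) hmain
      hXcard2 (Nat.cast_nonneg n)
  refine ⟨b, hbl, ?_, (X ∩ B) ∪ (E.filter (fun e => e.1 ∈ X ∧ e.2 ∈ X)).image Prod.fst, ?_, ?_, ?_⟩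
  · rw [hXcard] at r1
    exact_mod_cast r1
  · apply Finset.union_subset Finset.inter_subset_left
    intro y hy
    rw [Finset.mem_image] at hy
    obtain ⟨e, he, rfl⟩ := hy
    rw [Finset.mem_filter] at he
    exact he.2.1
  · have h1 : ((X ∩ B) ∪ (E.filter (fun e => e.1 ∈ X ∧ e.2 ∈ X)).image Prod.fst).card
        ≤ (Y ∩ B).card + (E.filter (fun e => e.1 ∈ Y ∧ e.2 ∈ Y)).card := by
      refine (Finset.card_union_le _ _).trans (Nat.add_le_add ?_ ?_)
      · exact Finset.card_le_card (Finset.inter_subset_inter_right hXY)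
      · refine Finset.card_image_le.trans (Finset.card_le_card ?_)
        intro e he
        rw [Finset.mem_filter] at he ⊢
        exact ⟨he.1, hXY he.2.1, hXY he.2.2⟩
    rw [hXcard] at r2
    have h2 : 2 ^ w * ((Y ∩ B).card + (E.filter (fun e => e.1 ∈ Y ∧ e.2 ∈ Y)).card)
        ≤ Xl.length := by exact_mod_cast r2
    exact (Nat.mul_le_mul_left _ h1).trans h2
  · intro D hDL htwo
    refine itm_claim ha hnt hD href hEx ?_ ?_ ?_ hDL htwo
    · intro y hy hyu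
      rw [Finset.mem_union]; left
      rw [Finset.mem_inter, hB, Finset.mem_union]
      exact ⟨hy, Or.inl hyu⟩
    · intro y hy hyc
      rw [Finset.mem_union]; left
      rw [Finset.mem_inter, hB, Finset.mem_union]
      exact ⟨hy, Or.inr hyc⟩
    · intro e he h1 h2
      rw [Finset.mem_union]; right
      rw [Finset.mem_image]
      exact ⟨e, Finset.mem_filter.2 ⟨he, h1, h2⟩, rfl⟩

end Pool.Agent.H46.SK
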