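import Pool.Agent.H46.SK.Base

/-!
# Module MRK: the steps of a stage on families with marks

`𝒞` is the family, `𝒩 ⊆ 𝒞` the marked subfamily (all unit clauses are marked).  Everything is close
to `Pool/Agent/H14/WS.lean` (`WS.stepA`, `WS.stepB`, `WS.wgt_step`, `WS.Inv.add`, `WS.num_le`,
`WS.num_le_of_noHit`) and `Pool/Agent/H14/Fam.lean`.

* `stepA`: `W.wgt_step` and `WS.Inv.add` are applied to `𝒩` (whose invariant is `h.wi`), with
  `hnew` for `𝒩` from `heart_new` for `𝒞` and `𝒩 ⊆ 𝒞`; the degree invariant of `𝒩` is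
  `DegInv.stepA` for `𝒩`, as `NoHit` passes from `𝒞` to the subfamily `𝒩`.
* `stepB`: the same; the new degree invariant `DegInv W.th k (addAll (petals 𝒞 c H) 𝒩)` is proved
  exactly as `DegInv.stepB` (there `𝒩 = 𝒞`): the petals containing `G` inject into the clauses of
  size `c` of `𝒞` containing `H ∪ G` (`dg_petals_le`), fewer than `th (i - |G|)`.
* `Ref`: `addAll 𝒬 𝒞` refines `𝒞` if every element of `𝒬` has less than `k` elements: a clause of
  `𝒞` is either kept or contains an element of `𝒬`.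
* `restart`: take the unit clauses as the marked clauses; the degree invariant is empty for
  clauses of size one (`G.card < i` and `1 ≤ G.card` force `2 ≤ i`, and there are no clauses of
  size `i ≥ 2` in `𝒩`).
* `wgt_le`: `wgt_eq_sum` for `𝒩`, `num 𝒩 0 = 0`, `num 𝒩 1 = num 𝒞 1` (by `units` and `sub`),
  `W.num_le` for `2 ≤ i < k`, `a k = 0`.
* `card_le`: `𝒞.card = ∑_(i ≤ k) num 𝒞 i` (`wgt_eq_sum` with weights one), `num 𝒞 0 = 0`,
  `num 𝒞 1 ≤ n` (`num_one_le`), `num 𝒞 c ≤ th (c - 1) n` for `2 ≤ c ≤ k` (as in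
  `WS.num_le_of_noHit`, directly from `num_le_of_dg`).
-/

set_option autoImplicit false

namespace Pool.Agent.H46.SK

open Finset Pool.Agent.H14.ETH

theorem Ref.refl (k : ℕ) (𝒞 : Fam) : Ref k 𝒞 𝒞 :=
  ⟨fun C hC => ⟨C, hC, Finset.Subset.refl _⟩, fun _ hD => Or.inl hD⟩

theorem Ref.trans {k : ℕ} {𝒞 𝒟 ℰ : Fam} (h : Ref k 𝒞 𝒟) (h' : Ref k 𝒟 ℰ) : Ref k 𝒞 ℰ := by
  constructor
  · intro C hC
    obtain ⟨D, hD, hDC⟩ := h.1 C hC
    obtain ⟨E, hE, hED⟩ := h'.1 D hD
    exact ⟨E, hE, hED.trans hDC⟩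
  · intro E hE
    rcases h'.2 E hE with h1 | h1
    · exact h.2 E h1
    · exact Or.inr h1

theorem mrk_dg_mono {𝒞 𝒩 : Fam} (h : 𝒩 ⊆ 𝒞) (i : ℕ) (G : Finset Lit) : dg 𝒩 i G ≤ dg 𝒞 i G := by
  unfold dg
  refine Finset.card_le_card fun C hC => ?_
  rw [mem_sups] at hC ⊢
  exact ⟨h hC.1, hC.2⟩

theorem mrk_noHit {th : ℕ → ℕ} {c p : ℕ} {𝒞 𝒩 : Fam} (h : 𝒩 ⊆ 𝒞) (hn : NoHit th c p 𝒞) :
    NoHit th c p 𝒩 := fun G hG => (mrk_dg_mono h c G).trans_lt (hn G hG)

theorem mrk_ref {k q : ℕ} {𝒞 𝒬 : Fam} (hqk : q < k) (hQ : ∀ X ∈ 𝒬, X.card = q) :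
    Ref k 𝒞 (addAll 𝒬 𝒞) := by
  constructor
  · intro C hC
    by_cases hP : ∃ P ∈ 𝒬, P ⊆ C
    · obtain ⟨P, hP, hPC⟩ := hP
      exact ⟨P, mem_addAll.2 (Or.inl hP), hPC⟩
    · push Not at hP
      exact ⟨C, mem_addAll.2 (Or.inr ⟨hC, hP⟩), Finset.Subset.refl _⟩
  · intro D hD
    rcases mem_addAll.1 hD with h1 | h1
    · right
      rw [hQ D h1]
      exact hqk
    · exact Or.inl h1.1

variable {k : ℕ} {W : WS k} {n : ℕ} {𝒞 𝒩 : Fam}

theorem mrk_add (h : MInv W n 𝒞 𝒩) {𝒬 : Fam} {q : ℕ} (hq1 : 1 ≤ q) (hqk : q < k)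
    (hQ : ∀ X ∈ 𝒬, X.card = q) (hnew : ∀ X ∈ 𝒬, ∀ C ∈ 𝒞, ¬ C ⊆ X) (hQa : Anti 𝒬)
    (hQo : Over n 𝒬) (hdeg : DegInv W.th k (addAll 𝒬 𝒩)) :
    MInv W n (addAll 𝒬 𝒞) (addAll 𝒬 𝒩) where
  ov := by
    intro C hC
    rcases mem_addAll.1 hC with h1 | h1
    · exact hQo C h1
    · exact h.ov C h1.1
  anti := h.anti.addAll hQa hnew
  size := by
    intro C hC
    rcases mem_addAll.1 hC with h1 | h1
    · rw [hQ C h1]; omega
    · exact h.size C h1.1
  sub := by
    intro C hC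
    rw [mem_addAll] at hC ⊢
    rcases hC with h1 | h1
    · exact Or.inl h1
    · exact Or.inr ⟨h.sub h1.1, h1.2⟩
  units := by
    intro C hC h1
    rw [mem_addAll] at hC ⊢
    rcases hC with h2 | h2
    · exact Or.inl h2
    · exact Or.inr ⟨h.units C h2.1 h1, h2.2⟩
  wi := WS.Inv.add W h.wi hq1 hqk hQ (fun X hX C hC => hnew X hX C (h.sub hC)) hQa hQo hdeg

theorem MInv.stepA (h : MInv W n 𝒞 𝒩) {c p : ℕ} {H : Finset Lit} (hit : W.Hit 𝒞 c p H) :
    MInv W n (addAll {H} 𝒞) (addAll {H} 𝒩) ∧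
      wgt W.a 𝒩 + W.net (c - p) ≤ wgt W.a (addAll {H} 𝒩) ∧ Ref k 𝒞 (addAll {H} 𝒞) := by
  have h1 := hit.hp
  have h2 := hit.hpc
  have h3 := hit.hck
  have hd : 0 < dg 𝒞 c H := lt_of_lt_of_le (W.one_le_th p) hit.le
  have hnew : ∀ X ∈ ({H} : Fam), ∀ C ∈ 𝒞, ¬ C ⊆ X := by
    intro X hX
    rw [mem_singleton] at hX
    subst hX
    exact heart_new h.anti (by rw [hit.card]; omega) hd
  have hQ : ∀ X ∈ ({H} : Fam), X.card = c - p := by
    intro X hX
    rw [mem_singleton] at hX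
    rw [hX, hit.card]
  refine ⟨mrk_add h (q := c - p) (by omega) (by omega) hQ hnew (anti_singleton H) ?_ ?_, ?_,
    mrk_ref (q := c - p) (by omega) hQ⟩
  · intro X hX
    rw [mem_singleton] at hX
    subst hX
    obtain ⟨C, hC, _, hXC⟩ := hit.sub_mem
    exact hXC.trans (h.ov C hC)
  · exact h.wi.deg.stepA W.one_le_th h2 h1 hit.card
      (fun c' p' a1 a2 a3 => mrk_noHit h.sub (hit.no1 c' p' a1 a2 a3))
  · have := W.wgt_step h.wi (p := c - p) (by omega) (by omega) hQ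
      (fun X hX C hC => hnew X hX C (h.sub hC))
    simpa using this

theorem mrk_degB {th : ℕ → ℕ} {k c p : ℕ} {𝒞 𝒩 : Fam} {H : Finset Lit} (hsub : 𝒩 ⊆ 𝒞)
    (h : DegInv th k 𝒩) (hpc : p < c) (hH : H.card = c - p)
    (hno : ∀ c' p', 1 ≤ p' → p' < c' → c' < c → NoHit th c' p' 𝒞)
    (hno2 : ∀ p', 1 ≤ p' → p' < p → NoHit th c p' 𝒞) :
    DegInv th k (addAll (petals 𝒞 c H) 𝒩) := by
  intro i hi G hG1 hGi
  have h1 := dg_union_le (petals 𝒞 c H) 𝒩 i G
  by_cases hip : i = p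
  · have h3 := hno i (i - G.card) (by omega) (by omega) (by omega) G (by omega)
    have h3' := mrk_dg_mono hsub i G
    by_cases hd : Disjoint H G
    · have h4 := dg_petals_le 𝒞 c H i G
      have h5 := hno2 (i - G.card) (by omega) (by omega) (H ∪ G) (by
        rw [Finset.card_union_of_disjoint hd]; omega)
      omega
    · have h4 := dg_petals_eq_zero (𝒞 := 𝒞) (c := c) i hd
      omega
  · have h2 : dg (petals 𝒞 c H) i G = 0 := dg_eq_zero (p := p) (fun P hP => by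
      rw [card_of_mem_petals hP, hH]; omega) hip G
    have := h i hi G hG1 hGi
    omega

theorem MInv.stepB (h : MInv W n 𝒞 𝒩) {c p : ℕ} {H : Finset Lit} (hit : W.Hit 𝒞 c p H) :
    MInv W n (addAll (petals 𝒞 c H) 𝒞) (addAll (petals 𝒞 c H) 𝒩) ∧
      wgt W.a 𝒩 + W.th p * W.net p ≤ wgt W.a (addAll (petals 𝒞 c H) 𝒩) ∧
      Ref k 𝒞 (addAll (petals 𝒞 c H) 𝒞) := by
  have h1 := hit.hp
  have h2 := hit.hpc
  have h3 := hit.hck
  have h4 := hit.card
  have hnew : ∀ X ∈ petals 𝒞 c H, ∀ C ∈ 𝒞, ¬ C ⊆ X := petal_new h.anti (by omega)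
  have hQ : ∀ X ∈ petals 𝒞 c H, X.card = p := by
    intro X hX
    rw [card_of_mem_petals hX, hit.card]; omega
  refine ⟨mrk_add h h1 (by omega) hQ hnew (anti_petals h.anti) ?_ ?_, ?_,
    mrk_ref (q := p) (by omega) hQ⟩
  · intro X hX
    obtain ⟨C, hC, _, _, rfl⟩ := mem_petals.1 hX
    exact sdiff_subset.trans (h.ov C hC)
  · exact mrk_degB h.sub h.wi.deg h2 hit.card hit.no1 hit.no2
  · have h5 := W.wgt_step h.wi h1 (by omega) hQ (fun X hX C hC => hnew X hX C (h.sub hC))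
    rw [card_petals] at h5
    have h6 : (W.th p : ℝ) ≤ dg 𝒞 c H := by exact_mod_cast hit.le
    have h7 := mul_le_mul_of_nonneg_right h6 (W.net_pos p h1 (by omega)).le
    linarith

theorem MInv.restart (hk : 2 ≤ k) (hov : Over n 𝒞) (ha : Anti 𝒞)
    (hs : ∀ C ∈ 𝒞, 1 ≤ C.card ∧ C.card ≤ k) (htop : W.a k = 0) :
    MInv W n 𝒞 (𝒞.filter (fun C => C.card = 1)) where
  ov := hov
  anti := ha
  size := hs
  sub := Finset.filter_subset _ _
  units := fun C hC h1 => mem_filter.2 ⟨hC, h1⟩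
  wi :=
    { ov := fun C hC => hov C (mem_filter.1 hC).1
      anti := fun C hC D hD hCD => ha C (mem_filter.1 hC).1 D (mem_filter.1 hD).1 hCD
      size := fun C hC => by
        have := (mem_filter.1 hC).2
        omega
      deg := by
        intro i hi G hG1 hGi
        have : dg (𝒞.filter (fun C => C.card = 1)) i G = 0 :=
          dg_eq_zero (p := 1) (fun P hP => (mem_filter.1 hP).2) (by omega) G
        omega
      degk := Or.inl htop }

theorem mrk_num_mono {𝒞 𝒩 : Fam} (h : 𝒩 ⊆ 𝒞) (i : ℕ) : num 𝒩 i ≤ num 𝒞 i := by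
  unfold num
  exact Finset.card_le_card (Finset.filter_subset_filter _ h)

theorem mrk_num_zero {k : ℕ} {𝒞 : Fam} (hs : ∀ C ∈ 𝒞, 1 ≤ C.card ∧ C.card ≤ k) :
    num 𝒞 0 = 0 := by
  unfold num
  rw [Finset.card_eq_zero, Finset.filter_eq_empty_iff]
  intro C hC h0
  have := (hs C hC).1
  omega

theorem MInv.wgt_le {s γ : ℝ} (S : Stg k s γ) (h : MInv S.W n 𝒞 𝒩) :
    wgt S.W.a 𝒩 ≤ 3 * s / 4 * num 𝒞 1 + γ * n := by
  rw [wgt_eq_sum (k := k) (fun C hC => (h.wi.size C hC).2)]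
  have hb : ∀ i ∈ Finset.range (k + 1), S.W.a i * (num 𝒩 i : ℝ) ≤
      (if i = 1 then S.W.a 1 * (num 𝒞 1 : ℝ) else 0) +
      (if 2 ≤ i ∧ i < k then S.W.a i * ((2 * S.W.th (i - 1) : ℕ) : ℝ) * n else 0) := by
    intro i hi
    rw [Finset.mem_range] at hi
    rcases Nat.lt_or_ge i 2 with h2 | h2
    · rw [if_neg (show ¬ (2 ≤ i ∧ i < k) from fun hc => absurd hc.1 (not_le.2 h2)), add_zero]
      rcases Nat.eq_zero_or_pos i with h0 | h0
      · rw [h0, mrk_num_zero h.wi.size, if_neg (by omega)]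
        simp
      · have h1 : i = 1 := by omega
        rw [if_pos h1, h1]
        refine mul_le_mul_of_nonneg_left ?_ (S.W.a_nonneg 1)
        exact_mod_cast mrk_num_mono h.sub 1
    · rw [if_neg (by omega), zero_add]
      by_cases hik : i < k
      · rw [if_pos ⟨h2, hik⟩, mul_assoc]
        refine mul_le_mul_of_nonneg_left ?_ (S.W.a_nonneg i)
        exact_mod_cast WS.num_le S.W h.wi h2 hik
      · have : i = k := by omega
        rw [this, S.top, if_neg (by omega)]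
        simp
  refine (Finset.sum_le_sum hb).trans ?_
  rw [Finset.sum_add_distrib]
  have e1 : ∑ i ∈ Finset.range (k + 1), (if i = 1 then S.W.a 1 * (num 𝒞 1 : ℝ) else 0) ≤
      3 * s / 4 * num 𝒞 1 := by
    rw [← S.a1, Finset.sum_ite_eq']
    split_ifs
    · exact le_rfl
    · exact mul_nonneg (S.W.a_nonneg 1) (Nat.cast_nonneg _)
  have e2 : ∑ i ∈ Finset.range (k + 1), (if 2 ≤ i ∧ i < k then
      S.W.a i * ((2 * S.W.th (i - 1) : ℕ) : ℝ) * n else 0) ≤ γ * n := by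
    rw [← Finset.sum_filter]
    have e3 : (Finset.range (k + 1)).filter (fun i => 2 ≤ i ∧ i < k) = Finset.Ico 2 k := by
      ext i
      rw [mem_filter, Finset.mem_range, Finset.mem_Ico]
      omega
    rw [e3, ← Finset.sum_mul]
    exact mul_le_mul_of_nonneg_right S.small (Nat.cast_nonneg _)
  linarith

theorem MInv.card_le (h : MInv W n 𝒞 𝒩) (hd : ¬ Dead 𝒞)
    (hno : ∀ c p, 1 ≤ p → p < c → c ≤ k → NoHit W.th c p 𝒞) : 𝒞.card ≤ Lam W * n := by
  have e1 : 𝒞.card = ∑ i ∈ Finset.range (k + 1), num 𝒞 i := by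
    unfold num
    refine Finset.card_eq_sum_card_fiberwise (f := fun C : Finset Lit => C.card) ?_
    intro C hC
    have := (h.size C hC).2
    exact Finset.mem_coe.2 (Finset.mem_range.2 (Nat.lt_succ_of_le this))
  have hb : ∀ i ∈ Finset.range (k + 1), num 𝒞 i ≤
      (if i = 1 then n else 0) + (if 2 ≤ i then W.th (i - 1) * n else 0) := by
    intro i hi
    rw [Finset.mem_range] at hi
    rcases Nat.lt_or_ge i 2 with h2 | h2
    · rw [if_neg (not_le.2 h2), add_zero]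
      rcases Nat.eq_zero_or_pos i with h0 | h0
      · rw [h0, mrk_num_zero h.size]
        exact Nat.zero_le _
      · have h1 : i = 1 := by omega
        rw [if_pos h1, h1]
        exact num_one_le h.ov hd
    · rw [if_neg (by omega), zero_add, if_pos h2]
      have h3 := num_le_of_dg h.ov (i := i) (D := W.th (i - 1)) (fun l => by
        have := hno i (i - 1) (by omega) (by omega) (by omega) {l} (by simp; omega)
        exact this.le)
      have h4 : 2 * num 𝒞 i ≤ i * num 𝒞 i := Nat.mul_le_mul_right _ h2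
      nlinarith
  rw [e1]
  refine (Finset.sum_le_sum hb).trans ?_
  rw [Finset.sum_add_distrib]
  have e2 : ∑ i ∈ Finset.range (k + 1), (if i = 1 then n else 0) ≤ n := by
    rw [Finset.sum_ite_eq']
    split_ifs
    · exact le_rfl
    · exact Nat.zero_le _
  have e3 : ∑ i ∈ Finset.range (k + 1), (if 2 ≤ i then W.th (i - 1) * n else 0) =
      (∑ c ∈ Finset.Ico 2 (k + 1), W.th (c - 1)) * n := by
    rw [← Finset.sum_filter, Finset.sum_mul]
    refine Finset.sum_congr ?_ fun _ _ => rfl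
    ext i
    rw [mem_filter, Finset.mem_range, Finset.mem_Ico]
    omega
  rw [e3]
  unfold Lam
  rw [Nat.add_mul, Nat.one_mul]
  exact Nat.add_le_add_right e2 _

/-- The weight of the unit clauses. -/
theorem wgt_units {s γ : ℝ} (S : Stg k s γ) :
    wgt S.W.a (𝒞.filter (fun C => C.card = 1)) = 3 * s / 4 * num 𝒞 1 := by
  unfold wgt num
  rw [Finset.sum_congr rfl (g := fun _ => S.W.a 1) (fun C hC => by rw [(mem_filter.1 hC).2]),
    Finset.sum_const, nsmul_eq_mul, S.a1, mul_comm]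

end Pool.Agent.H46.SK
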