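import Pool.Agent.H46.SK.MRK

/-!
# Module MRL: the steps of a stage on lists with marks

List version of `MRK`, close to `Pool/Agent/H14/Step.lean` (`Good.stepA`, `Good.stepB`,
`Good.hit`, `Good.noHit`, `satisfiable_step`).  `toF (O ++ N) = toF O ∪ toF N` (`toF_append`), and
`toF (cutL Q O ++ addL Q N) = addAll (toF Q) (toF (O ++ N))`.  `search_spec` is applied to the list
`O ++ N`.  `LInv (cutL Q O ++ addL Q N)` is `LInv.addL` for `addL Q (O ++ N)` up to a permutation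
(`cutL Q O ++ (Q ++ cutL Q N)` is a permutation of `Q ++ cutL Q (O ++ N)`).
-/

set_option autoImplicit false

namespace Pool.Agent.H46.SK

open Finset Pool.Agent.H14.ETH

/-- The new lists are a permutation of `addL Q (O ++ N)`. -/
theorem mrl_perm (Q O N : LFam) : (cutL Q O ++ addL Q N).Perm (addL Q (O ++ N)) := by
  unfold cutL addL
  rw [List.filter_append, ← List.append_assoc, ← List.append_assoc]
  exact (List.perm_append_comm).append_right _

theorem mrl_toF_perm {L M : LFam} (h : L.Perm M) : toF L = toF M := by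
  ext C
  rw [mem_toF, mem_toF]
  constructor
  · rintro ⟨D, hD, e⟩
    exact ⟨D, h.mem_iff.1 hD, e⟩
  · rintro ⟨D, hD, e⟩
    exact ⟨D, h.mem_iff.2 hD, e⟩

theorem mrl_LInv_perm {L M : LFam} (h : L.Perm M) (hL : LInv L) : LInv M :=
  ⟨fun C hC => hL.1 C (h.mem_iff.2 hC), (h.map _).nodup_iff.1 hL.2⟩

theorem toF_cutL (Q O N : LFam) : toF (cutL Q O ++ addL Q N) = addAll (toF Q) (toF (O ++ N)) := by
  rw [mrl_toF_perm (mrl_perm Q O N), toF_addL]

theorem LInv.cutL {Q O N : LFam} (hQ : LInv Q) (h : LInv (O ++ N)) :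
    LInv (SK.cutL Q O ++ addL Q N) :=
  mrl_LInv_perm (mrl_perm Q O N).symm (Pool.Agent.H14.ETH.LInv.addL hQ h)

variable {k n : ℕ} {s γ : ℝ} {O N : LFam}

theorem GoodM.mrl_hit {W : WS k} (h : GoodM W n O N) {x : ℕ × List Lit} {t : List (ℕ × List Lit)}
    (hx : hitsM k W.th O N = x :: t) :
    ∃ p, W.Hit (toF (O ++ N)) x.1 p x.2.toFinset ∧ x.2.Nodup ∧ x.2.length = x.1 - p := by
  obtain ⟨c, H⟩ := x
  obtain ⟨p, h1, h2, h3, h4, h5, h6, _, h8, h9⟩ := search_spec W.one_le_th h.linv hx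
  refine ⟨p, ⟨h1, h2, h3, ?_, h6, h8, h9⟩, h4, h5⟩
  rw [List.toFinset_card_of_nodup h4, h5]

theorem GoodM.step (S : Stg k s γ) (h : GoodM S.W n O N) (hne : hitsM k S.W.th O N ≠ []) :
    GoodM S.W n (stepMA k S.W.th O N).1 (stepMA k S.W.th O N).2 ∧
    GoodM S.W n (stepMB k S.W.th O N).1 (stepMB k S.W.th O N).2 ∧
    Ref k (toF (O ++ N)) (toF ((stepMA k S.W.th O N).1 ++ (stepMA k S.W.th O N).2)) ∧
    Ref k (toF (O ++ N)) (toF ((stepMB k S.W.th O N).1 ++ (stepMB k S.W.th O N).2)) ∧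
    (∀ v, satBy v (toF (O ++ N)) ↔
      (satBy v (toF ((stepMA k S.W.th O N).1 ++ (stepMA k S.W.th O N).2)) ∨
        satBy v (toF ((stepMB k S.W.th O N).1 ++ (stepMB k S.W.th O N).2)))) ∧
    ∃ x y : ℝ, S.η ≤ x ∧ x ≤ S.κ ∧ S.η ≤ y ∧ y ≤ S.κ ∧ (2 : ℝ) ^ (-x) + (2 : ℝ) ^ (-y) ≤ 1 ∧
      wgt S.W.a (toF N) + x ≤ wgt S.W.a (toF (stepMA k S.W.th O N).2) ∧
      wgt S.W.a (toF N) + y ≤ wgt S.W.a (toF (stepMB k S.W.th O N).2) := by
  obtain ⟨x, t, hx⟩ := List.exists_cons_of_ne_nil hne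
  obtain ⟨p, hit, hnd, hlen⟩ := h.mrl_hit hx
  have eA : stepMA k S.W.th O N = (cutL [x.2] O, addL [x.2] N) := by
    unfold stepMA; rw [hx]
  have eB : stepMB k S.W.th O N =
      (cutL (petalsL x.1 x.2 (O ++ N)) O, addL (petalsL x.1 x.2 (O ++ N)) N) := by
    unfold stepMB; rw [hx]
  rw [eA, eB]
  have fA : toF (cutL [x.2] O ++ addL [x.2] N) = addAll {x.2.toFinset} (toF (O ++ N)) := by
    rw [toF_cutL, toF_singleton]
  have gA : toF (addL [x.2] N) = addAll {x.2.toFinset} (toF N) := by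
    rw [toF_addL, toF_singleton]
  have fB : toF (cutL (petalsL x.1 x.2 (O ++ N)) O ++ addL (petalsL x.1 x.2 (O ++ N)) N) =
      addAll (petals (toF (O ++ N)) x.1 x.2.toFinset) (toF (O ++ N)) := by
    rw [toF_cutL, toF_petalsL h.linv]
  have gB : toF (addL (petalsL x.1 x.2 (O ++ N)) N) =
      addAll (petals (toF (O ++ N)) x.1 x.2.toFinset) (toF N) := by
    rw [toF_addL, toF_petalsL h.linv]
  obtain ⟨a1, a2, a3⟩ := h.inv.stepA hit
  obtain ⟨b1, b2, b3⟩ := h.inv.stepB hit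
  have hp := hit.hp
  have hpc := hit.hpc
  have hck := hit.hck
  have q1 := S.charge1 (x.1 - p) (by omega) (by omega)
  have q2 := S.charge2 p hp (by omega)
  refine ⟨⟨?_, ?_, ?_⟩, ⟨?_, ?_, ?_⟩, ?_, ?_, ?_, S.W.net (x.1 - p), S.W.th p * S.W.net p,
    q1.1, q1.2, q2.1, q2.2, S.W.kraft x.1 p hp hpc hck, ?_, ?_⟩
  · exact LInv.cutL (LInv.singleton hnd) h.linv
  · simp only [fA, gA]; exact a1
  · simp only [fA]
    refine h.nt.addAll ?_
    intro X hX
    rw [mem_singleton] at hX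
    subst hX
    obtain ⟨C, hC, _, hXC⟩ := hit.sub_mem
    exact ⟨C, hC, hXC⟩
  · exact LInv.cutL (h.linv.petalsL _ _) h.linv
  · simp only [fB, gB]; exact b1
  · simp only [fB]
    refine h.nt.addAll ?_
    intro X hX
    obtain ⟨C, hC, _, _, rfl⟩ := mem_petals.1 hX
    exact ⟨C, hC, sdiff_subset⟩
  · simp only [fA]; exact a3
  · simp only [fB]; exact b3
  · intro v
    simp only [fA, fB]
    exact satBy_branch x.1 x.2.toFinset
  · simp only [gA]; exact a2
  · simp only [gB]; exact b2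

theorem GoodM.noHit {W : WS k} (h : GoodM W n O N) (he : hitsM k W.th O N = []) :
    ∀ c p, 1 ≤ p → p < c → c ≤ k → NoHit W.th c p (toF (O ++ N)) :=
  search_nil W.one_le_th h.linv he

/-- The two parts of the list make a permutation of the list. -/
theorem mrl_split (L : LFam) : (nonuL L ++ unitL L).Perm L :=
  (List.perm_append_comm).trans (List.filter_append_perm _ _)

theorem mrl_toF_unitL {L : LFam} (hL : LInv L) :
    toF (unitL L) = (toF L).filter (fun C => C.card = 1) := by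
  ext C
  rw [mem_toF, Finset.mem_filter, mem_toF]
  constructor
  · rintro ⟨D, hD, rfl⟩
    rw [unitL, List.mem_filter, decide_eq_true_iff] at hD
    exact ⟨⟨D, hD.1, rfl⟩, by rw [hL.card_eq hD.1]; exact hD.2⟩
  · rintro ⟨⟨D, hD, rfl⟩, h1⟩
    refine ⟨D, ?_, rfl⟩
    rw [unitL, List.mem_filter, decide_eq_true_iff]
    exact ⟨hD, by rw [← hL.card_eq hD]; exact h1⟩

theorem GoodM.restart (hk : 2 ≤ k) {W W' : WS k} (h : GoodM W n O N) (htop : W'.a k = 0) :
    GoodM W' n (nonuL (O ++ N)) (unitL (O ++ N)) ∧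
      toF (nonuL (O ++ N) ++ unitL (O ++ N)) = toF (O ++ N) ∧
      toF (unitL (O ++ N)) = (toF (O ++ N)).filter (fun C => C.card = 1) := by
  have e1 : toF (nonuL (O ++ N) ++ unitL (O ++ N)) = toF (O ++ N) := mrl_toF_perm (mrl_split _)
  have e2 := mrl_toF_unitL h.linv
  refine ⟨⟨mrl_LInv_perm (mrl_split _).symm h.linv, ?_, ?_⟩, e1, e2⟩
  · rw [e1, e2]
    exact MInv.restart hk h.inv.ov h.inv.anti h.inv.size htop
  · rw [e1]
    exact h.nt

end Pool.Agent.H46.SK
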