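import Pool.Agent.H46.SK.Node
import Pool.Agent.H46.SK.MRL

/-!
# Module ND0: the potential in mode 0

`n = m + k`, `U = num (toF (O ++ M)) 1 ≤ n` (`num_one_le`), `d_i + γ_i ≤ s / 4` (`aux_d`: for `i = 0` by `hd0` and `uq ≥ 1`,
for `i ≥ 1` by `hdt`).  By `MInv.wgt_le`: for a live node
`pot N ≥ κ + i + (σ - d_i - γ_i) n - (3 s / 4) U ≥ κ ≥ (S i).κ` (`pot0_ge`, `κ_le_pot0`).
* `hits ≠ []`: the children are `nd0 n i (stepMA ..)`, `nd0 n i (stepMB ..)` (`ix N = min i I = i`); `GoodM.step`.  A dead child has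
  potential `0 ≤ κ - x ≤ pot N - x`.
* `hits = []`, `i ≥ 1`: `chA = nd1 n i (O ++ M) []` with potential
  `w + 1 + mid σ i n U + bits i n ≤ pot N - 1` by `hκt` (for `i - 1 < I`); `chB = nd0 n (i - 1) (nonuL .., unitL ..)`, `GoodM.restart`,
  `wgt_units`: potential `κ + (i - 1) + (σ - d_(i-1)) n - (3 s / 4) U ≤ pot N - 1` by `hdn`.  Charges `x = y = 1`.
-/

set_option autoImplicit false

namespace Pool.Agent.H46.SK.Pars

open Finset Pool.Agent.H14.ETH

variable {k : ℕ} {s : ℝ} (P : Pars k s)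

theorem aux_d (hs : 0 < s) {i : ℕ} (hi : i ≤ P.I) : P.d i + P.γ i ≤ s / 4 := by
  rcases Nat.eq_zero_or_pos i with rfl | h0
  · have h1 := P.hd0
    have h2 : (1 : ℝ) ≤ P.uq := by exact_mod_cast P.huq
    have h3 : s / (4 * P.uq) ≤ s / 4 := by
      apply div_le_div_of_nonneg_left hs.le (by norm_num)
      linarith
    linarith
  · obtain ⟨j, rfl⟩ : ∃ j, i = j + 1 := ⟨i - 1, by omega⟩
    have h1 := P.hdt j (by omega)
    have h2 : (1 : ℝ) ≤ 2 ^ P.t (j + 1) := one_le_pow₀ (by norm_num)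
    have h3 : s / 16 / 2 ^ P.t (j + 1) ≤ s / 16 := div_le_self (by positivity) h2
    linarith

theorem nd0_pot_live {σ : ℝ} {n i : ℕ} {O M : LFam} (hd : ¬ Dead (toF (O ++ M))) :
    P.pot σ (nd0 n i (O, M)) =
      P.κ + i + (σ - P.d i) * n - wgt (P.S i).W.a (toF M) := by
  unfold pot nd0 Nd.md Nd.oo Nd.ma Nd.st Nd.nn
  simp only [if_true]
  rw [if_neg hd]

theorem nd0_pot_dead {σ : ℝ} {n i : ℕ} {O M : LFam} (hd : Dead (toF (O ++ M))) :
    P.pot σ (nd0 n i (O, M)) = 0 := by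
  unfold pot nd0 Nd.md Nd.oo Nd.ma
  simp only [if_true]
  rw [if_pos hd]

theorem pot0_ge (hs : 0 < s) {σ : ℝ} (hσ : s ≤ σ) {n i : ℕ} {O M : LFam} (hi : i ≤ P.I)
    (h : GoodM (P.S i).W n O M) (hd : ¬ Dead (toF (O ++ M))) :
    P.κ + i + (σ - P.d i - P.γ i) * n - 3 * s / 4 * num (toF (O ++ M)) 1 ≤
      P.pot σ (nd0 n i (O, M)) := by
  rw [P.nd0_pot_live hd]
  have h1 := MInv.wgt_le (P.S i) h.inv
  linarith

theorem κ_le_pot0 (hs : 0 < s) {σ : ℝ} (hσ : s ≤ σ) {n i : ℕ} {O M : LFam} (hi : i ≤ P.I)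
    (h : GoodM (P.S i).W n O M) (hd : ¬ Dead (toF (O ++ M))) :
    P.κ + i ≤ P.pot σ (nd0 n i (O, M)) := by
  have h1 := P.pot0_ge hs hσ hi h hd
  have h2 := P.aux_d hs hi
  have h3 : ((num (toF (O ++ M)) 1 : ℕ) : ℝ) ≤ n := by exact_mod_cast num_one_le h.inv.ov hd
  have h4 : (0 : ℝ) ≤ n := Nat.cast_nonneg n
  have h5 : (s - s / 4) * n ≤ (σ - P.d i - P.γ i) * n :=
    mul_le_mul_of_nonneg_right (by linarith) h4
  have h6 : 3 * s / 4 * (num (toF (O ++ M)) 1 : ℕ) ≤ 3 * s / 4 * n :=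
    mul_le_mul_of_nonneg_left h3 (by positivity)
  linarith

theorem nd0_child {σ : ℝ} {n i : ℕ} {O M O' M' : LFam} {x : ℝ}
    (hd : ¬ Dead (toF (O ++ M))) (hκ : x ≤ P.pot σ (nd0 n i (O, M)))
    (hw : wgt (P.S i).W.a (toF M) + x ≤ wgt (P.S i).W.a (toF M')) :
    P.pot σ (nd0 n i (O', M')) ≤ P.pot σ (nd0 n i (O, M)) - x := by
  by_cases hd' : Dead (toF (O' ++ M'))
  · rw [P.nd0_pot_dead hd']
    linarith
  · rw [P.nd0_pot_live hd', P.nd0_pot_live hd]
    linarith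

theorem node0 (hk : 3 ≤ k) (hs : 0 < s) {σ : ℝ} (hσ : s ≤ σ) {m i : ℕ} {O M : LFam}
    (hi : i ≤ P.I) (h : GoodM (P.S i).W (m + k) O M)
    (hl : P.leaf (nd0 (m + k) i (O, M)) = false) :
    P.Pre m (P.chA (nd0 (m + k) i (O, M))) ∧ P.Pre m (P.chB (nd0 (m + k) i (O, M))) ∧
      ∃ x y : ℝ, P.η ≤ x ∧ P.η ≤ y ∧
        P.pot σ (P.chA (nd0 (m + k) i (O, M))) ≤ P.pot σ (nd0 (m + k) i (O, M)) - x ∧
        P.pot σ (P.chB (nd0 (m + k) i (O, M))) ≤ P.pot σ (nd0 (m + k) i (O, M)) - y ∧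
        (2 : ℝ) ^ (-x) + (2 : ℝ) ^ (-y) ≤ 1 := by
  have hix : P.ix (nd0 (m + k) i (O, M)) = i := by
    unfold ix nd0 Nd.st
    exact min_eq_left hi
  have hhits : P.hits (nd0 (m + k) i (O, M)) = hitsM k (P.S i).W.th O M := by
    unfold hits
    rw [hix]
    rfl
  have hmd : (nd0 (m + k) i (O, M)).md = 0 := rfl
  have hlf : (deadL (O ++ M) || ((hitsM k (P.S i).W.th O M).isEmpty && decide (i = 0))) =
      false := by
    rw [← hhits]
    exact hl
  rw [Bool.or_eq_false_iff] at hlf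
  obtain ⟨hdl, hh⟩ := hlf
  have hd : ¬ Dead (toF (O ++ M)) := by
    rw [← deadL_iff h.linv, hdl]
    simp
  have hκ := P.κ_le_pot0 hs hσ hi h hd
  have hi0 : (0 : ℝ) ≤ i := Nat.cast_nonneg i
  by_cases hne : hitsM k (P.S i).W.th O M = []
  · -- end of the stage
    have hi1 : 1 ≤ i := by
      rw [hne] at hh
      simp at hh
      omega
    have hA : P.chA (nd0 (m + k) i (O, M)) = nd1 (m + k) i (O ++ M) [] := by
      unfold chA
      rw [hmd, hhits, hne]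
      rfl
    have hB : P.chB (nd0 (m + k) i (O, M)) =
        nd0 (m + k) (i - 1) (nonuL (O ++ M), unitL (O ++ M)) := by
      unfold chB
      rw [hmd, hhits, hne]
      rfl
    obtain ⟨g1, g2, g3⟩ := GoodM.restart (W' := (P.S (i - 1)).W) (by omega) h (P.S (i - 1)).top
    have hge := P.pot0_ge hs hσ hi h hd
    rw [hA, hB]
    refine ⟨Or.inr (Or.inl ⟨i, O ++ M, [], rfl, hi1, hi, ?_, by simp⟩),
      Or.inl ⟨i - 1, _, _, rfl, by omega, g1⟩, 1, 1, P.hη1, P.hη1, ?_, ?_, ?_⟩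
    · exact ⟨h.linv, h.inv.ov, h.inv.anti, h.inv.size, h.nt, hd⟩
    · have hp : P.pot σ (nd1 (m + k) i (O ++ M) []) =
          P.w + 1 + P.mid σ i (m + k) (num (toF (O ++ M)) 1) + ((bits P i (m + k) : ℕ) : ℝ) := by
        unfold pot nd1 Nd.md Nd.st Nd.nn Nd.ma Nd.bi
        simp
      have hb := P.hκt (i - 1) (by omega) (m + k)
      have e : i - 1 + 1 = i := by omega
      rw [e] at hb
      rw [hp]
      unfold mid bits
      push_cast at hb hge ⊢
      linarith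
    · have hd' : ¬ Dead (toF (nonuL (O ++ M) ++ unitL (O ++ M))) := by rw [g2]; exact hd
      rw [P.nd0_pot_live hd', g3, wgt_units (P.S (i - 1))]
      have hn := P.hdn (i - 1) (by omega)
      have e : i - 1 + 1 = i := by omega
      rw [e] at hn
      have e2 : ((i - 1 : ℕ) : ℝ) = (i : ℝ) - 1 := by
        rw [Nat.cast_sub hi1]; simp
      rw [e2]
      have h4 : (0 : ℝ) ≤ ((m + k : ℕ) : ℝ) := Nat.cast_nonneg _
      have h5 : (σ - P.d (i - 1)) * ((m + k : ℕ) : ℝ) ≤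
          (σ - P.d i - P.γ i) * ((m + k : ℕ) : ℝ) :=
        mul_le_mul_of_nonneg_right (by linarith) h4
      linarith
    · norm_num [Real.rpow_neg]
  · have hA : P.chA (nd0 (m + k) i (O, M)) =
        nd0 (m + k) i (stepMA k (P.S i).W.th O M) := by
      have hne' : (P.hits (nd0 (m + k) i (O, M))).isEmpty = false := by
        rw [hhits]
        simpa using hne
      unfold chA
      rw [hmd, hne', hix]
      rfl
    have hB : P.chB (nd0 (m + k) i (O, M)) =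
        nd0 (m + k) i (stepMB k (P.S i).W.th O M) := by
      have hne' : (P.hits (nd0 (m + k) i (O, M))).isEmpty = false := by
        rw [hhits]
        simpa using hne
      unfold chB
      rw [hmd, hne', hix]
      rfl
    obtain ⟨gA, gB, -, -, -, x, y, hx1, hx2, hy1, hy2, hxy, wA, wB⟩ := GoodM.step (P.S i) h hne
    have hκS := P.hκS i hi
    have hηS := P.hηS i hi
    rw [hA, hB]
    refine ⟨Or.inl ⟨i, (stepMA k (P.S i).W.th O M).1, (stepMA k (P.S i).W.th O M).2, rfl, hi,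
      gA⟩, Or.inl ⟨i, (stepMB k (P.S i).W.th O M).1, (stepMB k (P.S i).W.th O M).2, rfl, hi,
      gB⟩, x, y, by linarith, by linarith, ?_, ?_, hxy⟩
    · exact P.nd0_child (O' := (stepMA k (P.S i).W.th O M).1) hd (by linarith) wA
    · exact P.nd0_child (O' := (stepMB k (P.S i).W.th O M).1) hd (by linarith) wB

end Pool.Agent.H46.SK.Pars
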