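import Pool.Agent.H46.SK.Node
import Pool.Agent.H46.SK.HSB
import Pool.Agent.H14.Reduce

/-!
# Module ND1: the potential in modes 1 and 2

`n = m + k`, `U = num (toF L) 1 ≤ n` (`num_one_le`).
* `mid_nonneg`: for `1 ≤ i ≤ I`: `d_i + γ_i ≤ s / 16 / 2 ^ t_i ≤ s / 16`, so `mid ≥ (s - s/16 - s/16 - 3 s/4) n ≥ 0`.
* `start_le`: let `x = (itemsL ..).length`, `c = x / 2 ^ w ≤ x / 2 ^ w` (real division).  If `n ≤ 4 2 ^ t x` the potential of
  `nd2 n i L X [] c` is `w + σ (n - U - x) + y x + c (w + σ) ≤ w + σ (n - U) - x (σ (1 - 1/2^w) - y - w / 2^w)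
  ≤ w + σ (n - U) - (s/2) x ≤ w + σ (n - U) - s / 8 / 2 ^ t n ≤ w + mid σ i n U`, using `gain`, `σ ≥ s` and
  `d_i + γ_i ≤ s / 16 / 2 ^ t_i` (`hdt` for `i - 1 < I`).  Otherwise the node is `ndF` with potential `0`.
* `node1`: if `b.length < bits i n` the children are `nd1 n i L (true :: b)`, `nd1 n i L (false :: b)`, potential `- 1` each; else
  (`b.length = bits`) the children are `start` and `ndF`; charges `1`, `1`.  Invariant of `start`: `itemsL` is a sublist of `List.range n`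
  (`chunkSel_sublist`), its elements are no variables of unit clauses, `c ≤ x ≤ n`.
* `node2`: `R = x :: R'`; charges `w`, `y` (`kraft`, `1 ≤ w`, `η ≤ 1`, `η ≤ y`).  Bad child: `ndF` if `c = 0` (potential `0 ≤ pot - w`
  because `U + |G| + |R| ≤ n`: the items are different, less than `n`, and not in `unitVars`; `card_unitVars`), else potential
  `pot - w - y`.  Good child: `pot - y`.
-/

set_option autoImplicit false

namespace Pool.Agent.H46.SK.Pars

open Finset Pool.Agent.H14.ETH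

variable {k : ℕ} {s : ℝ} (P : Pars k s)

theorem count_le {n : ℕ} {L : LFam} (hL : Fine k n L) {X : List ℕ} (hX : X.Nodup)
    (h : ∀ x ∈ X, x < n ∧ hasVar x (unitsL L) = false) : num (toF L) 1 + X.length ≤ n := by
  have h1 : Disjoint (unitVars (toF L)) X.toFinset := by
    rw [Finset.disjoint_left]
    intro x hx hx'
    have h2 := hasVar_unitsL.2 ((mem_unitVars hL.linv).1 hx)
    rw [(h x (List.mem_toFinset.1 hx')).2] at h2
    exact absurd h2 (by simp)
  have h2 : unitVars (toF L) ∪ X.toFinset ⊆ Finset.range n := by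
    intro x hx
    rcases Finset.mem_union.1 hx with hx | hx
    · exact unitVars_subset hL.ov hx
    · exact Finset.mem_range.2 (h x (List.mem_toFinset.1 hx)).1
  have h3 := Finset.card_le_card h2
  rw [Finset.card_union_of_disjoint h1, card_unitVars hL.live, List.toFinset_card_of_nodup hX,
    Finset.card_range] at h3
  exact h3

theorem nd1_loss (hs : 0 < s) {i : ℕ} (h1 : 1 ≤ i) (hi : i ≤ P.I) :
    P.d i + P.γ i ≤ s / 16 / 2 ^ P.t i ∧ s / 16 / 2 ^ P.t i ≤ s / 16 := by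
  have h2 := P.hdt (i - 1) (by omega)
  rw [Nat.sub_add_cancel h1] at h2
  exact ⟨h2, div_le_self (by positivity) (one_le_pow₀ (by norm_num))⟩

theorem mid_nonneg (hs : 0 < s) {σ : ℝ} (hσ : s ≤ σ) {i n U : ℕ} (h1 : 1 ≤ i) (hi : i ≤ P.I)
    (hU : U ≤ n) : 0 ≤ P.mid σ i n U := by
  obtain ⟨h2, h3⟩ := P.nd1_loss hs h1 hi
  have hU' : (U : ℝ) ≤ n := by exact_mod_cast hU
  have hn : (0 : ℝ) ≤ n := Nat.cast_nonneg n
  have e1 : (P.d i + P.γ i) * n ≤ s / 16 * n := mul_le_mul_of_nonneg_right (h2.trans h3) hn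
  have e2 : s / 16 / 2 ^ P.t i * n ≤ s / 16 * n := mul_le_mul_of_nonneg_right h3 hn
  have e3 : s * n ≤ σ * n := mul_le_mul_of_nonneg_right hσ hn
  have e4 : 3 * s / 4 * U ≤ 3 * s / 4 * n := mul_le_mul_of_nonneg_left hU' (by positivity)
  have e5 : 0 ≤ s * n := by positivity
  unfold mid
  nlinarith

theorem nd1_pot_ndF (σ : ℝ) : P.pot σ ndF = 0 := by
  simp [pot, ndF, Nd.md]

theorem nd1_pot_nd1 (σ : ℝ) (n i : ℕ) (L : LFam) (b : List Bool) :
    P.pot σ (nd1 n i L b) =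
      P.w + 1 + P.mid σ i n (num (toF L) 1) + ((P.bits i n : ℕ) - (b.length : ℝ)) := by
  simp [pot, nd1, Nd.md, Nd.st, Nd.nn, Nd.ma, Nd.bi]

theorem nd1_pot_nd2 (σ : ℝ) (n i : ℕ) (L : LFam) (R G : List ℕ) (c : ℕ) :
    P.pot σ (nd2 n i L R G c) =
      P.w + σ * (n - num (toF L) 1 - G.length - R.length) + P.y * R.length + c * (P.w + σ) := by
  simp [pot, nd2, Nd.md, Nd.nn, Nd.ma, Nd.gg, Nd.rr, Nd.bu]

theorem start_le (hs : 0 < s) {σ : ℝ} (hσ : s ≤ σ) {i n : ℕ} {L : LFam} (hL : Fine k n L)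
    (h1 : 1 ≤ i) (hi : i ≤ P.I) (b : List Bool) :
    P.pot σ (P.start i n L b) ≤ P.w + P.mid σ i n (num (toF L) 1) := by
  obtain ⟨h2, h3⟩ := P.nd1_loss hs h1 hi
  have hn : (0 : ℝ) ≤ n := Nat.cast_nonneg n
  have hw : (0 : ℝ) ≤ P.w := Nat.cast_nonneg _
  unfold start
  by_cases hc : n ≤ 4 * 2 ^ P.t i * (itemsL n (P.t i) b L).length
  · rw [decide_eq_true hc, cond_true, P.nd1_pot_nd2]
    set x := (itemsL n (P.t i) b L).length with hx
    have hx0 : (0 : ℝ) ≤ x := Nat.cast_nonneg x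
    have hU0 : (0 : ℝ) ≤ (num (toF L) 1 : ℕ) := Nat.cast_nonneg _
    have hc' : (n : ℝ) ≤ 4 * 2 ^ P.t i * x := by exact_mod_cast hc
    have hdiv : ((x / 2 ^ P.w : ℕ) : ℝ) ≤ (x : ℝ) / 2 ^ P.w := by
      have := Nat.cast_div_le (α := ℝ) (m := x) (n := 2 ^ P.w)
      simpa using this
    have e1 : ((x / 2 ^ P.w : ℕ) : ℝ) * (P.w + σ) ≤ (x : ℝ) / 2 ^ P.w * (P.w + σ) :=
      mul_le_mul_of_nonneg_right hdiv (by linarith)
    have h2w : (1 : ℝ) / 2 ^ P.w ≤ 1 := by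
      rw [div_le_one (by positivity)]
      exact one_le_pow₀ (by norm_num)
    have e2 : (1 - 1 / 2 ^ P.w) * s ≤ (1 - 1 / 2 ^ P.w) * σ :=
      mul_le_mul_of_nonneg_left hσ (by linarith)
    have e3 : s / 2 * x ≤ ((1 - 1 / 2 ^ P.w) * σ - P.y - P.w / 2 ^ P.w) * x :=
      mul_le_mul_of_nonneg_right (by linarith [P.gain]) hx0
    have e4 : s / 8 / 2 ^ P.t i * n ≤ s / 2 * x := by
      have h4 : s / 8 / 2 ^ P.t i * n ≤ s / 8 / 2 ^ P.t i * (4 * 2 ^ P.t i * x) :=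
        mul_le_mul_of_nonneg_left hc' (by positivity)
      have h5 : s / 8 / 2 ^ P.t i * (4 * 2 ^ P.t i * x) = s / 2 * x := by
        field_simp
        ring
      rw [h5] at h4
      exact h4
    have e5 : (P.d i + P.γ i) * n ≤ s / 16 / 2 ^ P.t i * n := mul_le_mul_of_nonneg_right h2 hn
    have e6 : 3 * s / 4 * (num (toF L) 1 : ℕ) ≤ σ * (num (toF L) 1 : ℕ) :=
      mul_le_mul_of_nonneg_right (by linarith) hU0
    have e7 : (x : ℝ) / 2 ^ P.w * (P.w + σ) = x * (P.w / 2 ^ P.w) + x * (1 / 2 ^ P.w * σ) := by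
      ring
    have e8 : s / 8 / 2 ^ P.t i * n = s / 16 / 2 ^ P.t i * n + s / 16 / 2 ^ P.t i * n := by
      ring
    unfold mid
    simp only [List.length_nil, Nat.cast_zero, sub_zero]
    nlinarith
  · rw [decide_eq_false hc, cond_false, P.nd1_pot_ndF]
    have := P.mid_nonneg hs hσ h1 hi (num_one_le hL.ov hL.live)
    linarith

theorem nd1_mem_items {n t : ℕ} {b : List Bool} {L : LFam} {x : ℕ} (hx : x ∈ itemsL n t b L) :
    x < n ∧ hasVar x (unitsL L) = false := by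
  unfold itemsL at hx
  rw [List.mem_filter] at hx
  refine ⟨List.mem_range.1 ((chunkSel_sublist _ _ _ _).subset hx.1), ?_⟩
  simpa using hx.2

theorem nd1_items_sublist (n t : ℕ) (b : List Bool) (L : LFam) :
    (itemsL n t b L).Sublist (List.range n) :=
  List.filter_sublist.trans (chunkSel_sublist _ _ _ _)

theorem nd1_pre_start {m i : ℕ} {L : LFam} (hi : i ≤ P.I) (hL : Fine k (m + k) L)
    (b : List Bool) : P.Pre m (P.start i (m + k) L b) := by
  unfold start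
  by_cases hc : m + k ≤ 4 * 2 ^ P.t i * (itemsL (m + k) (P.t i) b L).length
  · rw [decide_eq_true hc, cond_true]
    refine Or.inr (Or.inr (Or.inl ⟨i, L, _, _, _, rfl, hi, hL, ?_, ?_, ?_⟩))
    · rw [List.append_nil]
      exact (nd1_items_sublist _ _ _ _).nodup List.nodup_range
    · intro x hx
      rw [List.append_nil] at hx
      exact nd1_mem_items hx
    · refine (Nat.div_le_self _ _).trans ?_
      have := (nd1_items_sublist (m + k) (P.t i) b L).length_le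
      rwa [List.length_range] at this
  · rw [decide_eq_false hc, cond_false]
    exact Or.inr (Or.inr (Or.inr rfl))

theorem nd1_half : (2 : ℝ) ^ (-(1 : ℝ)) + (2 : ℝ) ^ (-(1 : ℝ)) ≤ 1 := by
  rw [Real.rpow_neg (by norm_num), Real.rpow_one]
  norm_num

theorem node1 (hs : 0 < s) {σ : ℝ} (hσ : s ≤ σ) {m i : ℕ} {L : LFam} {b : List Bool}
    (h1 : 1 ≤ i) (hi : i ≤ P.I) (hL : Fine k (m + k) L) (hb : b.length ≤ P.bits i (m + k)) :
    P.Pre m (P.chA (nd1 (m + k) i L b)) ∧ P.Pre m (P.chB (nd1 (m + k) i L b)) ∧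
      ∃ x y : ℝ, P.η ≤ x ∧ P.η ≤ y ∧
        P.pot σ (P.chA (nd1 (m + k) i L b)) ≤ P.pot σ (nd1 (m + k) i L b) - x ∧
        P.pot σ (P.chB (nd1 (m + k) i L b)) ≤ P.pot σ (nd1 (m + k) i L b) - y ∧
        (2 : ℝ) ^ (-x) + (2 : ℝ) ^ (-y) ≤ 1 := by
  have hix : P.ix (nd1 (m + k) i L b) = i := min_eq_left hi
  have hA : P.chA (nd1 (m + k) i L b) =
      bif decide (b.length < P.bits i (m + k)) then nd1 (m + k) i L (true :: b)
      else P.start i (m + k) L b := by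
    unfold chA
    rw [hix]
    rfl
  have hB : P.chB (nd1 (m + k) i L b) =
      bif decide (b.length < P.bits i (m + k)) then nd1 (m + k) i L (false :: b) else ndF := by
    unfold chB
    rw [hix]
    rfl
  rw [hA, hB]
  by_cases hc : b.length < P.bits i (m + k)
  · rw [decide_eq_true hc, cond_true, cond_true]
    refine ⟨Or.inr (Or.inl ⟨i, L, _, rfl, h1, hi, hL, hc⟩),
      Or.inr (Or.inl ⟨i, L, _, rfl, h1, hi, hL, hc⟩), 1, 1, P.hη1, P.hη1, ?_, ?_, nd1_half⟩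
    · rw [P.nd1_pot_nd1, P.nd1_pot_nd1, List.length_cons]
      push_cast
      linarith
    · rw [P.nd1_pot_nd1, P.nd1_pot_nd1, List.length_cons]
      push_cast
      linarith
  · rw [decide_eq_false hc, cond_false, cond_false]
    have he : b.length = P.bits i (m + k) := by omega
    refine ⟨P.nd1_pre_start hi hL b, Or.inr (Or.inr (Or.inr rfl)), 1, 1, P.hη1, P.hη1, ?_, ?_,
      nd1_half⟩
    · have := P.start_le hs hσ hL h1 hi b
      rw [P.nd1_pot_nd1, he]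
      linarith
    · have h2 := P.mid_nonneg hs hσ h1 hi (num_one_le hL.ov hL.live)
      have hw : (0 : ℝ) ≤ P.w := Nat.cast_nonneg _
      rw [P.nd1_pot_nd1, P.nd1_pot_ndF, he]
      linarith

theorem node2 (hs : 0 < s) {σ : ℝ} (hσ : s ≤ σ) {m i : ℕ} {L : LFam} {x₀ : ℕ} {R G : List ℕ}
    {c : ℕ} (hi : i ≤ P.I) (hL : Fine k (m + k) L) (hnd : (x₀ :: R ++ G).Nodup)
    (hX : ∀ x ∈ x₀ :: R ++ G, x < m + k ∧ hasVar x (unitsL L) = false) (hc : c ≤ m + k) :
    P.Pre m (P.chA (nd2 (m + k) i L (x₀ :: R) G c)) ∧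
      P.Pre m (P.chB (nd2 (m + k) i L (x₀ :: R) G c)) ∧
      ∃ x y : ℝ, P.η ≤ x ∧ P.η ≤ y ∧
        P.pot σ (P.chA (nd2 (m + k) i L (x₀ :: R) G c)) ≤
          P.pot σ (nd2 (m + k) i L (x₀ :: R) G c) - x ∧
        P.pot σ (P.chB (nd2 (m + k) i L (x₀ :: R) G c)) ≤
          P.pot σ (nd2 (m + k) i L (x₀ :: R) G c) - y ∧
        (2 : ℝ) ^ (-x) + (2 : ℝ) ^ (-y) ≤ 1 := by
  have hA : P.chA (nd2 (m + k) i L (x₀ :: R) G c) =
      bif decide (c = 0) then ndF else nd2 (m + k) i L R G (c - 1) := rfl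
  have hB : P.chB (nd2 (m + k) i L (x₀ :: R) G c) = nd2 (m + k) i L R (x₀ :: G) c := rfl
  rw [hA, hB]
  have hw1 : (1 : ℝ) ≤ P.w := by exact_mod_cast P.hw
  have hy0 : 0 < P.y := lt_of_lt_of_le P.hη P.hy
  have hσ0 : 0 < σ := lt_of_lt_of_le hs hσ
  have hnd' : x₀ ∉ R ++ G ∧ (R ++ G).Nodup := by
    rw [List.cons_append, List.nodup_cons] at hnd
    exact hnd
  have hperm : (R ++ x₀ :: G).Perm (x₀ :: R ++ G) := List.perm_middle
  have hcnt := count_le hL hnd hX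
  rw [List.length_append, List.length_cons] at hcnt
  have hcnt' : ((num (toF L) 1 : ℕ) : ℝ) + (R.length + 1 + G.length) ≤ ((m + k : ℕ) : ℝ) := by
    exact_mod_cast hcnt
  have preB : P.Pre m (nd2 (m + k) i L R (x₀ :: G) c) := by
    refine Or.inr (Or.inr (Or.inl ⟨i, L, _, _, _, rfl, hi, hL, hperm.nodup_iff.2 hnd, ?_, hc⟩))
    intro x hx
    exact hX x (hperm.mem_iff.1 hx)
  have potB : P.pot σ (nd2 (m + k) i L R (x₀ :: G) c) ≤
      P.pot σ (nd2 (m + k) i L (x₀ :: R) G c) - P.y := by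
    rw [P.nd1_pot_nd2, P.nd1_pot_nd2, List.length_cons, List.length_cons]
    push_cast
    nlinarith
  by_cases hc0 : c = 0
  · rw [decide_eq_true hc0, cond_true]
    refine ⟨Or.inr (Or.inr (Or.inr rfl)), preB, P.w, P.y, P.hη1.trans hw1, P.hy, ?_, potB,
      P.kraft⟩
    rw [P.nd1_pot_ndF, P.nd1_pot_nd2, hc0, List.length_cons]
    have e1 : 0 ≤ σ * (((m + k : ℕ) : ℝ) - (num (toF L) 1 : ℕ) - G.length - (R.length + 1)) :=
      mul_nonneg hσ0.le (by linarith)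
    have e2 : 0 ≤ P.y * ((R.length : ℝ) + 1) := by positivity
    push_cast at e1 ⊢
    linarith
  · rw [decide_eq_false hc0, cond_false]
    refine ⟨Or.inr (Or.inr (Or.inl ⟨i, L, _, _, _, rfl, hi, hL, hnd'.2, ?_, by omega⟩)), preB,
      P.w, P.y, P.hη1.trans hw1, P.hy, ?_, potB, P.kraft⟩
    · intro x hx
      exact hX x (List.mem_cons_of_mem _ hx)
    · obtain ⟨c', rfl⟩ := Nat.exists_eq_succ_of_ne_zero hc0
      rw [P.nd1_pot_nd2, P.nd1_pot_nd2, List.length_cons, Nat.succ_eq_add_one,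
        Nat.add_sub_cancel]
      push_cast
      nlinarith

end Pool.Agent.H46.SK.Pars
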