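import Pool.Agent.H46.SK.Base

/-!
# Module RDX: the reduction at the leaves

`reduceX G n L`: the unit clauses are assigned (`coreL`), clauses containing at least two literals of items (variables
in `G`) lose all these literals (`trimL`), the items are eliminated by resolution (`elimL`), the variables are renumbered.
Everything is close to `Pool/Agent/H14/Reduce.lean` (`reduce_count`, `reduce_cnf`), which is the case of a greedy independent set without
trimming; tools in `Pool/Agent/H14/Red.lean` and `Pool/Agent/H14/Ren.lean`.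

* `reduceX_count`: `rankL_add (goneX G L) n`, the set of the `x < n` in `goneX G L` is the disjoint union of
  `unitVars (toF L)` and `G.toFinset`, `card_unitVars`.
* `reduceX_cnf`: `trimL G (coreL L)` satisfies `IndepL G`: a clause that is kept has at most one (position with a)
  literal of an item (its list of item literals has length at most one), a trimmed clause has none.  Clauses have length at most
  `k`, resolvents at most `2 k - 2` (`length_resL`), and `k ≤ 2 k - 2`.  No variable of `goneX G L` occurs in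
  the result (`coreL_free`; `hindep` as in `reduce_cnf`).  `isCNF_renL`.
* `reduceX_sound`: `satisfiable_renL`, `satisfiable_dedupF`, `satisfiable_map_dedupC`, `satisfiable_elimL`; an assignment satisfying
  `trimL G K` satisfies `K` (subclauses); `satisfiable_coreL`.
* `reduceX_complete`: `v` satisfies `coreL L` (a true literal of `C ∈ L` is not the negation of a unit literal as units are true), and
  also every trimmed clause `C'` of `C = D.filter (not negated unit)`, `D ∈ L` not a unit: `C` has two item literals (at two positions of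
  a list without repetitions, so different), hence `D` has two different item literals and by hypothesis a true
  literal `l` with `l.1 ∉ G`, which belongs to `C` and to `C'`.
-/

set_option autoImplicit false

namespace Pool.Agent.H46.SK

open Finset Pool.Agent.H14.ETH

variable {k n : ℕ} {L : LFam} {G : List ℕ}

theorem rdx_mem_trimL {K : LFam} {C' : List Lit} : C' ∈ trimL G K ↔
    ∃ C ∈ K, (2 ≤ (C.filter (fun l => memN l.1 G)).length ∧
        C.filter (fun l => !(memN l.1 G)) = C') ∨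
      (¬ 2 ≤ (C.filter (fun l => memN l.1 G)).length ∧ C = C') := by
  unfold trimL
  rw [List.mem_map]
  constructor
  · rintro ⟨C, hC, rfl⟩
    refine ⟨C, hC, ?_⟩
    by_cases h : 2 ≤ (C.filter (fun l => memN l.1 G)).length
    · left
      exact ⟨h, by simp [h]⟩
    · right
      exact ⟨h, by simp [h]⟩
  · rintro ⟨C, hC, ⟨h, rfl⟩ | ⟨h, rfl⟩⟩
    · exact ⟨C, hC, by simp [h]⟩
    · exact ⟨C, hC, by simp [h]⟩

theorem rdx_sub {K : LFam} {C' : List Lit} (h : C' ∈ trimL G K) : ∃ C ∈ K, C'.Sublist C := by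
  obtain ⟨C, hC, ⟨_, rfl⟩ | ⟨_, rfl⟩⟩ := rdx_mem_trimL.1 h
  · exact ⟨C, hC, List.filter_sublist⟩
  · exact ⟨C, hC, List.Sublist.refl _⟩

theorem rdx_indep (G : List ℕ) (K : LFam) : IndepL G (trimL G K) := by
  intro C' hC' l hl m hm hlG hmG
  obtain ⟨C, hC, ⟨_, rfl⟩ | ⟨h, rfl⟩⟩ := rdx_mem_trimL.1 hC'
  · rw [List.mem_filter] at hl
    have := memN_iff.2 hlG
    rw [this] at hl
    simp at hl
  · have h1 : l ∈ C.filter (fun l => memN l.1 G) := List.mem_filter.2 ⟨hl, memN_iff.2 hlG⟩
    have h2 : m ∈ C.filter (fun l => memN l.1 G) := List.mem_filter.2 ⟨hm, memN_iff.2 hmG⟩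
    revert h h1 h2
    generalize C.filter (fun l => memN l.1 G) = X
    intro h h1 h2
    match X, h, h1, h2 with
    | [], _, h1, _ => simp at h1
    | [a], _, h1, h2 =>
      rw [List.mem_singleton] at h1 h2
      rw [h1, h2]
    | a :: b :: t, h, _, _ => simp at h

theorem rdx_gone (hL : LInv L) (ha : Anti (toF L)) {D : List Lit} (hD : D ∈ trimL G (coreL L))
    {l : Lit} (hl : l ∈ D) (hlG : l.1 ∉ G) : l.1 ∉ goneX G L := by
  intro h
  rw [goneX, List.mem_append, mem_map_units] at h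
  rcases h with h | h
  · exact hlG h
  · obtain ⟨C, hC, hs⟩ := rdx_sub hD
    have := coreL_free hL ha hC (hs.subset hl)
    rw [← Bool.not_eq_true, hasVar_unitsL] at this
    exact this h

/-- no clause of the eliminated family contains an eliminated variable -/
theorem rdx_elim (hL : LInv L) (ha : Anti (toF L)) {C : List Lit}
    (hC : C ∈ elimL G (trimL G (coreL L))) {l : Lit} (hl : l ∈ C) :
    l.1 ∉ goneX G L ∧ ∃ D ∈ coreL L, l ∈ D := by
  have hi := rdx_indep G (coreL L)
  have hsub : ∀ A ∈ trimL G (coreL L), ∀ l ∈ A, ∃ D ∈ coreL L, l ∈ D := by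
    intro A hA l hl
    obtain ⟨D, hD, hs⟩ := rdx_sub hA
    exact ⟨D, hD, hs.subset hl⟩
  rcases mem_elimL.1 hC with ⟨hC, hx⟩ | ⟨x, hx, A, hA, hxA, B, hB, hxB, rfl⟩
  · refine ⟨rdx_gone hL ha hC hl ?_, hsub _ hC l hl⟩
    intro h
    have := hx _ h
    rw [← Bool.not_eq_true] at this
    exact this (hasVar_iff.2 ⟨l, hl, rfl⟩)
  · rcases mem_resL.1 hl with ⟨h1, h2⟩ | ⟨h1, h2⟩
    · exact ⟨rdx_gone hL ha hA h1 fun h => h2 (hi A hA l h1 _ hxA h hx), hsub _ hA l h1⟩
    · exact ⟨rdx_gone hL ha hB h1 fun h => h2 (hi B hB l h1 _ hxB h hx), hsub _ hB l h1⟩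

theorem rdx_fin (hL : LInv L) (ha : Anti (toF L)) : ∀ C ∈ dedupF ((elimL G
    (trimL G (coreL L))).map dedupC), ∀ l ∈ C, l.1 ∉ goneX G L := by
  intro C hC l hl
  obtain ⟨D, hD, rfl⟩ := List.mem_map.1 (mem_of_mem_dedupF hC)
  exact (rdx_elim hL ha hD (mem_dedupC.1 hl)).1

theorem reduceX_count (hL : LInv L) (hov : Over n (toF L)) (hd : ¬ Dead (toF L)) (hG : G.Nodup)
    (hGn : ∀ x ∈ G, x < n) (hGu : ∀ x ∈ G, hasVar x (unitsL L) = false) :
    (reduceX G n L).1 + num (toF L) 1 + G.length = n := by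
  classical
  have h3 := rankL_add (goneX G L) n
  have h4 : (Finset.range n).filter (fun x => x ∈ goneX G L) =
      unitVars (toF L) ∪ G.toFinset := by
    ext x
    rw [Finset.mem_filter, Finset.mem_union, goneX, List.mem_append, mem_map_units, mem_unitVars hL,
      List.mem_toFinset]
    constructor
    · rintro ⟨_, h | h⟩
      · exact Or.inr h
      · exact Or.inl h
    · rintro (h | h)
      · refine ⟨?_, Or.inr h⟩
        exact unitVars_subset hov ((mem_unitVars hL).2 h)
      · exact ⟨Finset.mem_range.2 (hGn x h), Or.inl h⟩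
  have h5 : Disjoint (unitVars (toF L)) G.toFinset := by
    rw [Finset.disjoint_left]
    intro x hx hx'
    rw [List.mem_toFinset] at hx'
    have := hGu x hx'
    rw [← Bool.not_eq_true, hasVar_unitsL] at this
    exact this ((mem_unitVars hL).1 hx)
  rw [h4, Finset.card_union_of_disjoint h5, card_unitVars hd, List.toFinset_card_of_nodup hG] at h3
  unfold reduceX
  simp only
  omega

theorem reduceX_cnf (hk : 2 ≤ k) (hL : LInv L) (hov : Over n (toF L)) (ha : Anti (toF L))
    (hd : ¬ Dead (toF L)) (hsz : ∀ C ∈ toF L, C.card ≤ k) :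
    IsCNF (2 * k - 2) (reduceX G n L).1 (reduceX G n L).2 := by
  have hlen : ∀ C ∈ trimL G (coreL L), C.length ≤ k := by
    intro C' hC'
    obtain ⟨C, hC, hs'⟩ := rdx_sub hC'
    obtain ⟨D, hD, _, hs⟩ := coreL_sub hC
    exact (hs'.trans hs).length_le.trans (by rw [← hL.card_eq hD]; exact hsz _ (toF_mem hD))
  have hvar : ∀ C ∈ coreL L, ∀ l ∈ C, l.1 < n := by
    intro C hC l hl
    obtain ⟨D, hD, _, hs⟩ := coreL_sub hC
    exact mem_lits.1 (hov _ (toF_mem hD) (List.mem_toFinset.2 (hs.subset hl)))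
  have helim : ∀ C ∈ elimL G (trimL G (coreL L)), C.length ≤ 2 * k - 2 := by
    intro C hC
    rcases mem_elimL.1 hC with ⟨hC, _⟩ | ⟨x, hx, A, hA, hxA, B, hB, hxB, rfl⟩
    · exact (hlen C hC).trans (by omega)
    · have := length_resL hxA hxB
      have := hlen A hA
      have := hlen B hB
      omega
  refine isCNF_renL ⟨fun C hC => ?_, dedupF_pairwise _⟩ (rdx_fin hL ha)
  obtain ⟨D, hD, rfl⟩ := List.mem_map.1 (mem_of_mem_dedupF hC)
  refine ⟨dedupC_nodup D, (length_dedupC D).trans (helim D hD), fun l hl => ?_⟩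
  obtain ⟨E, hE, hlE⟩ := (rdx_elim hL ha hD (mem_dedupC.1 hl)).2
  exact hvar E hE l hlE

theorem reduceX_sound (hL : LInv L) (hov : Over n (toF L)) (ha : Anti (toF L))
    (hd : ¬ Dead (toF L))
    (h : Satisfiable (reduceX G n L).2) : Satisfiable L := by
  have h1 : (reduceX G n L).2 = renL (goneX G L) (dedupF ((elimL G
    (trimL G (coreL L))).map dedupC)) := rfl
  rw [h1, satisfiable_renL (rdx_fin hL ha), satisfiable_dedupF, satisfiable_map_dedupC,
    satisfiable_elimL (rdx_indep G (coreL L))] at h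
  rw [← satisfiable_coreL hL hd]
  obtain ⟨v, hv⟩ := h
  refine ⟨v, fun C hC => ?_⟩
  by_cases h2 : 2 ≤ (C.filter (fun l => memN l.1 G)).length
  · obtain ⟨l, hl, hvl⟩ := hv _ (rdx_mem_trimL.2 ⟨C, hC, Or.inl ⟨h2, rfl⟩⟩)
    exact ⟨l, List.mem_of_mem_filter hl, hvl⟩
  · exact hv _ (rdx_mem_trimL.2 ⟨C, hC, Or.inr ⟨h2, rfl⟩⟩)

theorem rdx_two {α : Type*} {X : List α} (hX : X.Nodup) (h : 2 ≤ X.length) :
    ∃ a ∈ X, ∃ b ∈ X, a ≠ b := by
  match X, hX, h with
  | [], _, h => simp at h
  | [a], _, h => simp at h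
  | a :: b :: t, hX, _ =>
    refine ⟨a, by simp, b, by simp, ?_⟩
    intro e
    rw [List.nodup_cons] at hX
    exact hX.1 (e ▸ List.mem_cons_self)

theorem reduceX_complete (hL : LInv L) (hov : Over n (toF L)) (ha : Anti (toF L))
    (hd : ¬ Dead (toF L)) {v : ℕ → Bool} (hv : satBy v (toF L))
    (hG : ∀ D ∈ toF L, (∃ l ∈ D, ∃ m ∈ D, l ≠ m ∧ l.1 ∈ G ∧ m.1 ∈ G) →
      ∃ l ∈ D, v l.1 = l.2 ∧ l.1 ∉ G) : Satisfiable (reduceX G n L).2 := by
  have h1 : (reduceX G n L).2 = renL (goneX G L) (dedupF ((elimL G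
    (trimL G (coreL L))).map dedupC)) := rfl
  rw [h1, satisfiable_renL (rdx_fin hL ha), satisfiable_dedupF, satisfiable_map_dedupC,
    satisfiable_elimL (rdx_indep G (coreL L))]
  have hkeep : ∀ l : Lit, v l.1 = l.2 → [negL l] ∉ L := by
    intro l hl h
    obtain ⟨m, hm, hm'⟩ := hv _ (toF_mem h)
    rw [List.mem_toFinset, List.mem_singleton] at hm
    subst hm
    simp only [negL] at hm'
    rw [hl] at hm'
    cases l.2 <;> simp at hm'
  refine ⟨v, fun C' hC' => ?_⟩
  obtain ⟨C, hC, ⟨h2, rfl⟩ | ⟨_, rfl⟩⟩ := rdx_mem_trimL.1 hC'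
  · obtain ⟨D, hD, _, rfl⟩ := mem_coreL.1 hC
    set C := D.filter (fun l => !(memL (negL l) (unitsL L))) with hCdef
    have hnd : (C.filter (fun l => memN l.1 G)).Nodup := ((hL.1 D hD).filter _).filter _
    obtain ⟨l, hl, m, hm, hlm⟩ := rdx_two hnd h2
    rw [List.mem_filter, memN_iff] at hl hm
    obtain ⟨l', hl', hv', hG'⟩ := hG _ (toF_mem hD) ⟨l,
      List.mem_toFinset.2 (List.mem_of_mem_filter hl.1), m,
      List.mem_toFinset.2 (List.mem_of_mem_filter hm.1), hlm, hl.2, hm.2⟩
    refine ⟨l', List.mem_filter.2 ⟨?_, ?_⟩, hv'⟩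
    · exact mem_core_clause.2 ⟨List.mem_toFinset.1 hl', hkeep l' hv'⟩
    · rw [Bool.not_eq_true', ← Bool.not_eq_true, memN_iff]
      exact hG'
  · obtain ⟨D, hD, _, rfl⟩ := mem_coreL.1 hC
    obtain ⟨l, hl, hvl⟩ := hv _ (toF_mem hD)
    exact ⟨l, mem_core_clause.2 ⟨List.mem_toFinset.1 hl, hkeep l hvl⟩, hvl⟩

end Pool.Agent.H46.SK
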