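import Pool.Agent.H46.SK.ND0
import Pool.Agent.H46.SK.ND1
import Pool.Agent.H46.SK.RDX

/-!
# Module NDL: leaves, nonnegativity, inner nodes

* `pot_nonneg`: the four cases of `Pre`; mode 0: `0` if dead, else `κ_le_pot0` and `κ ≥ 0` (`κ ≥ (S i).κ ≥ (S i).η > 0`); mode 1:
  `mid_nonneg`, `b.length ≤ bits`; mode 2: `count_le`, `σ ≥ 0`, `y ≥ 0`; `ndF`: `0`.
* `node_spec`: combine `node0`, `node1`, `node2`; `ndF` is a leaf, `nd2 .. [] ..` is a leaf.
* `leaf_spec`: mode 0: the formula is `(0, [[]])` or `reduceX [] n (O ++ M)`; in the second case the node is live, `hits = []`, `i = 0`,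
  `n ≤ uq * U` where `U = (unitL (O ++ M)).length = num (toF (O ++ M)) 1`; `reduceX_count` with `G = []`: `n' + U = n`; by `pot0_ge`
  (`i = 0`) it suffices that `(d_0 + γ_0) n ≤ (σ - 3 s / 4) U`, and `(s/4) U ≥ (s / 4) n / uq ≥ (d_0 + γ_0) n`.
  Mode 2: `R = []`, `reduceX_count`: `σ n' = σ (n - U - |G|) ≤ pot`.  `reduceX_cnf`.  `IsCNF K 0 [[]]` is clear.
-/

set_option autoImplicit false

namespace Pool.Agent.H46.SK.Pars

open Finset Pool.Agent.H14.ETH

variable {k : ℕ} {s : ℝ} (P : Pars k s)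

/-- The number of unit clauses. -/
theorem length_unitL {L : LFam} (hL : LInv L) : (unitL L).length = num (toF L) 1 := by
  unfold unitL num
  have h1 : ((toF L).filter (fun C => C.card = 1)) =
      toF (L.filter (fun C => decide (C.length = 1))) := by
    ext C
    rw [Finset.mem_filter, mem_toF, mem_toF]
    constructor
    · rintro ⟨⟨D, hD, rfl⟩, h⟩
      rw [hL.card_eq hD] at h
      exact ⟨D, List.mem_filter.2 ⟨hD, by simpa using h⟩, rfl⟩
    · rintro ⟨D, hD, rfl⟩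
      rw [List.mem_filter, decide_eq_true_iff] at hD
      exact ⟨⟨D, hD.1, rfl⟩, by rw [hL.card_eq hD.1]; exact hD.2⟩
  rw [h1, card_toF (hL.filter _)]

theorem NDL_κ_nonneg : 0 ≤ P.κ := by
  have h1 := P.hκS 0 (Nat.zero_le _)
  have h2 := (P.S 0).η_le_κ
  have h3 := (P.S 0).η_pos
  linarith

theorem NDL_y_nonneg : 0 ≤ P.y := by
  have h1 := P.hy
  have h2 := P.hη
  linarith

theorem NDL_pot0_dead {σ : ℝ} {n i : ℕ} {O M : LFam} (hd : Dead (toF (O ++ M))) :
    P.pot σ (nd0 n i (O, M)) = 0 := by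
  simp [pot, nd0, Nd.md, Nd.oo, Nd.ma, hd]

theorem NDL_pot1 {σ : ℝ} {n i : ℕ} {L : LFam} {b : List Bool} :
    P.pot σ (nd1 n i L b) =
      P.w + 1 + P.mid σ i n (num (toF L) 1) + ((P.bits i n : ℕ) - (b.length : ℝ)) := by
  simp [pot, nd1, Nd.md, Nd.nn, Nd.st, Nd.ma, Nd.bi]

theorem NDL_pot2 {σ : ℝ} {n i : ℕ} {L : LFam} {R G : List ℕ} {c : ℕ} :
    P.pot σ (nd2 n i L R G c) =
      P.w + σ * (n - num (toF L) 1 - G.length - R.length) + P.y * R.length + c * (P.w + σ) := by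
  simp [pot, nd2, Nd.md, Nd.nn, Nd.ma, Nd.rr, Nd.gg, Nd.bu]

theorem NDL_potF {σ : ℝ} : P.pot σ ndF = 0 := by
  simp [pot, ndF, Nd.md]

theorem pot_nonneg (hs : 0 < s) {σ : ℝ} (hσ : s ≤ σ) {m : ℕ} {N : Nd} (h : P.Pre m N) :
    0 ≤ P.pot σ N := by
  rcases h with ⟨i, O, M, rfl, hi, hg⟩ | ⟨i, L, b, rfl, h1, hi, hL, hb⟩ |
    ⟨i, L, R, G, c, rfl, hi, hL, hnd, hX, hc⟩ | rfl
  · by_cases hd : Dead (toF (O ++ M))
    · rw [P.NDL_pot0_dead hd]
    · have h1 := P.κ_le_pot0 hs hσ hi hg hd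
      have h2 := P.NDL_κ_nonneg
      have h3 : (0 : ℝ) ≤ i := Nat.cast_nonneg i
      linarith
  · rw [P.NDL_pot1]
    have hU : num (toF L) 1 ≤ m + k := by
      have := count_le hL (X := []) List.nodup_nil (by simp)
      simpa using this
    have h2 := P.mid_nonneg hs hσ h1 hi hU
    have h3 : (b.length : ℝ) ≤ (P.bits i (m + k) : ℕ) := by exact_mod_cast hb
    have h4 : (0 : ℝ) ≤ P.w := Nat.cast_nonneg _
    linarith
  · rw [P.NDL_pot2]
    have h1 := count_le hL hnd hX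
    rw [List.length_append] at h1
    have h2 : ((num (toF L) 1 : ℕ) : ℝ) + (R.length + G.length) ≤ ((m + k : ℕ) : ℝ) := by
      exact_mod_cast h1
    have h3 : 0 ≤ σ := hs.le.trans hσ
    have h4 := P.NDL_y_nonneg
    have h5 : (0 : ℝ) ≤ P.w := Nat.cast_nonneg _
    have h6 : 0 ≤ σ * (((m + k : ℕ) : ℝ) - num (toF L) 1 - G.length - R.length) :=
      mul_nonneg h3 (by linarith)
    have h7 : 0 ≤ P.y * (R.length : ℝ) := mul_nonneg h4 (Nat.cast_nonneg _)
    have h8 : 0 ≤ (c : ℝ) * (P.w + σ) := mul_nonneg (Nat.cast_nonneg _) (by linarith)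
    linarith
  · rw [P.NDL_potF]

theorem node_spec (hk : 3 ≤ k) (hs : 0 < s) {σ : ℝ} (hσ : s ≤ σ) {m : ℕ} {N : Nd}
    (h : P.Pre m N) (hl : P.leaf N = false) :
    P.Pre m (P.chA N) ∧ P.Pre m (P.chB N) ∧ ∃ x y : ℝ, P.η ≤ x ∧ P.η ≤ y ∧
      P.pot σ (P.chA N) ≤ P.pot σ N - x ∧ P.pot σ (P.chB N) ≤ P.pot σ N - y ∧
        (2 : ℝ) ^ (-x) + (2 : ℝ) ^ (-y) ≤ 1 := by
  rcases h with ⟨i, O, M, rfl, hi, hg⟩ | ⟨i, L, b, rfl, h1, hi, hL, hb⟩ |
    ⟨i, L, R, G, c, rfl, hi, hL, hnd, hX, hc⟩ | rfl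
  · exact P.node0 hk hs hσ hi hg hl
  · exact P.node1 hs hσ h1 hi hL hb
  · cases R with
    | nil =>
      exfalso
      simp [leaf, nd2, Nd.md, Nd.rr] at hl
    | cons x₀ R => exact P.node2 hs hσ hi hL hnd hX hc
  · exfalso
    simp [leaf, ndF, Nd.md] at hl

theorem NDL_fml0 {n i : ℕ} {O M : LFam} : P.fml (nd0 n i (O, M)) =
    (bif !(deadL (O ++ M)) && decide (n ≤ P.uq * (unitL (O ++ M)).length) then
      reduceX [] n (O ++ M) else (0, [[]])) := rfl

theorem NDL_leaf0 {n i : ℕ} {O M : LFam} : P.leaf (nd0 n i (O, M)) =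
    (deadL (O ++ M) || ((P.hits (nd0 n i (O, M))).isEmpty && decide (i = 0))) := rfl

theorem NDL_isCNF_nil (K : ℕ) : IsCNF K 0 [[]] := by
  refine ⟨?_, List.pairwise_singleton _ _⟩
  intro C hC
  rw [List.mem_singleton] at hC
  subst hC
  exact ⟨List.nodup_nil, Nat.zero_le _, by simp⟩

theorem leaf_spec (hk : 3 ≤ k) (hs : 0 < s) {σ : ℝ} (hσ : s ≤ σ) {m : ℕ} {N : Nd}
    (h : P.Pre m N) (hl : P.leaf N = true) :
    IsCNF (2 * k - 2) (P.fml N).1 (P.fml N).2 ∧ σ * (P.fml N).1 ≤ P.pot σ N := by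
  have hpre := h
  have hnil : P.fml N = (0, [[]]) →
      IsCNF (2 * k - 2) (P.fml N).1 (P.fml N).2 ∧ σ * (P.fml N).1 ≤ P.pot σ N := by
    intro e
    rw [e]
    refine ⟨NDL_isCNF_nil _, ?_⟩
    simpa using P.pot_nonneg hs hσ hpre
  rcases h with ⟨i, O, M, rfl, hi, hg⟩ | ⟨i, L, b, rfl, h1, hi, hL, hb⟩ |
    ⟨i, L, R, G, c, rfl, hi, hL, hnd, hX, hc⟩ | rfl
  · by_cases hc : (!(deadL (O ++ M)) && decide (m + k ≤ P.uq * (unitL (O ++ M)).length)) = true
    · have ef : P.fml (nd0 (m + k) i (O, M)) = reduceX [] (m + k) (O ++ M) := by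
        rw [P.NDL_fml0, hc]
        rfl
      rw [Bool.and_eq_true, Bool.not_eq_true', decide_eq_true_iff] at hc
      obtain ⟨hdL, hn⟩ := hc
      have hd : ¬ Dead (toF (O ++ M)) := by
        rw [← deadL_iff hg.linv, hdL]
        simp
      have hi0 : i = 0 := by
        rw [P.NDL_leaf0, hdL, Bool.false_or, Bool.and_eq_true, decide_eq_true_iff] at hl
        exact hl.2
      subst hi0
      have hcount := reduceX_count (G := []) hg.linv hg.inv.ov hd List.nodup_nil (by simp) (by simp)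
      have hcnf := reduceX_cnf (G := []) (by omega : 2 ≤ k) hg.linv hg.inv.ov hg.inv.anti hd
        (fun C hC => (hg.inv.size C hC).2)
      rw [ef]
      refine ⟨hcnf, ?_⟩
      have hp := P.pot0_ge hs hσ hi hg hd
      rw [length_unitL hg.linv] at hn
      set U := num (toF (O ++ M)) 1
      set n' := (reduceX [] (m + k) (O ++ M)).1
      have hκ := P.NDL_κ_nonneg
      have hd0 := P.hd0
      have huq : (1 : ℝ) ≤ P.uq := by exact_mod_cast P.huq
      have hn' : ((m + k : ℕ) : ℝ) ≤ P.uq * U := by exact_mod_cast hn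
      have hc' : (n' : ℝ) + U = ((m + k : ℕ) : ℝ) := by
        have : n' + U = m + k := by simpa using hcount
        exact_mod_cast this
      have h1 : (P.d 0 + P.γ 0) * ((m + k : ℕ) : ℝ) ≤ s / 4 * U := by
        calc (P.d 0 + P.γ 0) * ((m + k : ℕ) : ℝ) ≤ s / (4 * P.uq) * ((m + k : ℕ) : ℝ) :=
              mul_le_mul_of_nonneg_right hd0 (Nat.cast_nonneg _)
          _ ≤ s / (4 * P.uq) * (P.uq * U) := mul_le_mul_of_nonneg_left hn' (by positivity)
          _ = s / 4 * U := by field_simp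
      have h2 : s * (U : ℝ) ≤ σ * U := mul_le_mul_of_nonneg_right hσ (Nat.cast_nonneg _)
      have h3 : σ * (n' : ℝ) = σ * ((m + k : ℕ) : ℝ) - σ * U := by rw [← hc']; ring
      rw [h3]
      refine le_trans ?_ hp
      have h4 : (((0 : ℕ) : ℝ)) = 0 := Nat.cast_zero
      rw [h4]
      linarith
    · apply hnil
      rw [Bool.not_eq_true] at hc
      rw [P.NDL_fml0, hc]
      rfl
  · exfalso
    simp [leaf, nd1, Nd.md] at hl
  · cases R with
    | cons x₀ R =>
      exfalso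
      simp [leaf, nd2, Nd.md, Nd.rr] at hl
    | nil =>
      have ef : P.fml (nd2 (m + k) i L [] G c) = reduceX G (m + k) L := by
        simp [fml, nd2, Nd.md, Nd.ma, Nd.nn, Nd.gg]
      rw [List.nil_append] at hnd
      simp only [List.nil_append] at hX
      have hcount := reduceX_count (G := G) hL.linv hL.ov hL.live hnd (fun x hx => (hX x hx).1)
        (fun x hx => (hX x hx).2)
      have hcnf := reduceX_cnf (G := G) (by omega : 2 ≤ k) hL.linv hL.ov hL.anti hL.live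
        (fun C hC => (hL.size C hC).2)
      rw [ef]
      refine ⟨hcnf, ?_⟩
      rw [P.NDL_pot2]
      set U := num (toF L) 1
      set n' := (reduceX G (m + k) L).1
      have hc' : (n' : ℝ) + U + G.length = ((m + k : ℕ) : ℝ) := by exact_mod_cast hcount
      have hw : (0 : ℝ) ≤ P.w := Nat.cast_nonneg _
      have h3 : 0 ≤ σ := hs.le.trans hσ
      have h8 : 0 ≤ (c : ℝ) * (P.w + σ) := mul_nonneg (Nat.cast_nonneg _) (by linarith)
      have h9 : ((m + k : ℕ) : ℝ) - U - G.length - (([] : List ℕ).length : ℕ) = n' := by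
        rw [List.length_nil, Nat.cast_zero]
        linarith
      rw [h9, List.length_nil, Nat.cast_zero, mul_zero]
      linarith
  · apply hnil
    simp [fml, ndF, Nd.md]

end Pool.Agent.H46.SK.Pars
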