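import Pool.Agent.H46.SK.Par
import Pool.Agent.H14.PFns
import Pool.Agent.H14.Size

/-!
# The tree

A node is a tuple: mode, number of variables, stage, unmarked clauses, marked clauses, bits, remaining items, good items,
budget for bad items.
* mode 0: branching of a stage;
* mode 1 (end of the stage): the bits that choose the items are guessed; the family is in the field `ma`;
* mode 2: the items are declared good or bad; the family is in the field `ma`;
* mode 3: failure.
-/

set_option autoImplicit false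

namespace Pool.Agent.H46.SK

open Finset Pool.Agent.H14.ETH

/-- Nodes. -/
abbrev Nd : Type := ℕ × ℕ × ℕ × LFam × LFam × List Bool × List ℕ × List ℕ × ℕ

namespace Nd

/-- mode -/
def md (N : Nd) : ℕ := N.1
/-- number of variables -/
def nn (N : Nd) : ℕ := N.2.1
/-- stage -/
def st (N : Nd) : ℕ := N.2.2.1
/-- unmarked clauses -/
def oo (N : Nd) : LFam := N.2.2.2.1
/-- marked clauses -/
def ma (N : Nd) : LFam := N.2.2.2.2.1
/-- bits -/
def bi (N : Nd) : List Bool := N.2.2.2.2.2.1
/-- remaining items -/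
def rr (N : Nd) : List ℕ := N.2.2.2.2.2.2.1
/-- good items -/
def gg (N : Nd) : List ℕ := N.2.2.2.2.2.2.2.1
/-- budget -/
def bu (N : Nd) : ℕ := N.2.2.2.2.2.2.2.2

end Nd

/-- A node of mode 0. -/
def nd0 (n i : ℕ) (X : LFam × LFam) : Nd := (0, n, i, X.1, X.2, [], [], [], 0)

/-- A node of mode 1. -/
def nd1 (n i : ℕ) (L : LFam) (b : List Bool) : Nd := (1, n, i, [], L, b, [], [], 0)

/-- A node of mode 2. -/
def nd2 (n i : ℕ) (L : LFam) (R G : List ℕ) (m : ℕ) : Nd := (2, n, i, [], L, [], R, G, m)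

/-- Failure. -/
def ndF : Nd := (3, 0, 0, [], [], [], [], [], 0)

namespace Pars

variable {k : ℕ} {s : ℝ} (P : Pars k s)

/-- The number of bits to be guessed. -/
def bits (i n : ℕ) : ℕ := P.t i * (Nat.size n + 1)

/-- The stage, cut off at `I`. -/
def ix (N : Nd) : ℕ := min N.st P.I

/-- The sunflowers of a node. -/
def hits (N : Nd) : List (ℕ × List Lit) := hitsM k (P.S (P.ix N)).W.th N.oo N.ma

/-- Start of the second mode. -/
def start (i n : ℕ) (L : LFam) (b : List Bool) : Nd :=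
  bif decide (n ≤ 4 * 2 ^ P.t i * (itemsL n (P.t i) b L).length) then
    nd2 n i L (itemsL n (P.t i) b L) [] ((itemsL n (P.t i) b L).length / 2 ^ P.w)
  else ndF

/-- First child. -/
def chA (N : Nd) : Nd :=
  bif decide (N.md = 0) then
    bif (P.hits N).isEmpty then nd1 N.nn N.st (N.oo ++ N.ma) []
    else nd0 N.nn N.st (stepMA k (P.S (P.ix N)).W.th N.oo N.ma)
  else bif decide (N.md = 1) then
    bif decide (N.bi.length < P.bits (P.ix N) N.nn) then nd1 N.nn N.st N.ma (true :: N.bi)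
    else P.start (P.ix N) N.nn N.ma N.bi
  else
    bif decide (N.bu = 0) then ndF else nd2 N.nn N.st N.ma N.rr.tail N.gg (N.bu - 1)

/-- Second child. -/
def chB (N : Nd) : Nd :=
  bif decide (N.md = 0) then
    bif (P.hits N).isEmpty then nd0 N.nn (N.st - 1) (nonuL (N.oo ++ N.ma), unitL (N.oo ++ N.ma))
    else nd0 N.nn N.st (stepMB k (P.S (P.ix N)).W.th N.oo N.ma)
  else bif decide (N.md = 1) then
    bif decide (N.bi.length < P.bits (P.ix N) N.nn) then nd1 N.nn N.st N.ma (false :: N.bi)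
    else ndF
  else nd2 N.nn N.st N.ma N.rr.tail (N.rr.headD 0 :: N.gg) N.bu

/-- Leaves. -/
def leaf (N : Nd) : Bool :=
  bif decide (N.md = 0) then
    deadL (N.oo ++ N.ma) || ((P.hits N).isEmpty && decide (N.st = 0))
  else bif decide (N.md = 1) then false
  else bif decide (N.md = 2) then N.rr.isEmpty
  else true

/-- The formula of a leaf. -/
def fml (N : Nd) : ℕ × LFam :=
  bif decide (N.md = 0) then
    bif !(deadL (N.oo ++ N.ma)) && decide (N.nn ≤ P.uq * (unitL (N.oo ++ N.ma)).length) then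
      reduceX [] N.nn (N.oo ++ N.ma)
    else (0, [[]])
  else bif decide (N.md = 2) then reduceX N.gg N.nn N.ma
  else (0, [[]])

/-- The root. -/
noncomputable def root (q : ℕ × LFam) : Nd := nd0 (q.1 + k) P.I (initF k q.1 q.2, [])

/-! ### Potential and invariant -/

/-- The potential of the items procedure. -/
noncomputable def mid (σ : ℝ) (i n U : ℕ) : ℝ :=
  (σ - P.d i - P.γ i) * n - 3 * s / 4 * U - s / 16 / 2 ^ P.t i * n

open Classical in
/-- The potential. -/
noncomputable def pot (σ : ℝ) (N : Nd) : ℝ :=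
  if N.md = 0 then
    if Dead (toF (N.oo ++ N.ma)) then 0
    else P.κ + N.st + (σ - P.d N.st) * N.nn - wgt (P.S N.st).W.a (toF N.ma)
  else if N.md = 1 then
    P.w + 1 + P.mid σ N.st N.nn (num (toF N.ma) 1) + ((P.bits N.st N.nn : ℕ) - (N.bi.length : ℝ))
  else if N.md = 2 then
    P.w + σ * (N.nn - num (toF N.ma) 1 - N.gg.length - N.rr.length) + P.y * N.rr.length
      + N.bu * (P.w + σ)
  else 0

/-- The families of modes 1 and 2. -/
structure Fine (k n : ℕ) (L : LFam) : Prop where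
  linv : LInv L
  ov : Over n (toF L)
  anti : Anti (toF L)
  size : ∀ C ∈ toF L, 1 ≤ C.card ∧ C.card ≤ k
  nt : NT (toF L)
  live : ¬ Dead (toF L)

/-- The invariant. -/
def Pre (m : ℕ) (N : Nd) : Prop :=
  (∃ (i : ℕ) (O M : LFam), N = nd0 (m + k) i (O, M) ∧ i ≤ P.I ∧ GoodM (P.S i).W (m + k) O M) ∨
  (∃ (i : ℕ) (L : LFam) (b : List Bool), N = nd1 (m + k) i L b ∧ 1 ≤ i ∧ i ≤ P.I ∧
    Fine k (m + k) L ∧ b.length ≤ P.bits i (m + k)) ∨
  (∃ (i : ℕ) (L : LFam) (R G : List ℕ) (c : ℕ), N = nd2 (m + k) i L R G c ∧ i ≤ P.I ∧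
    Fine k (m + k) L ∧ (R ++ G).Nodup ∧
    (∀ x ∈ R ++ G, x < m + k ∧ hasVar x (unitsL L) = false) ∧ c ≤ m + k) ∨
  N = ndF

end Pars

end Pool.Agent.H46.SK
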