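import Pool.Agent.H46.SK.Node
import Pool.Agent.H14.Gap
import Pool.Agent.H14.IpzK

/-!
# Module PFA: polynomial time computability, basic functions

Style of `Pool/Agent/H14/PFns.lean`.  `x / 2` is the length of `(List.range x).filter (fun y => decide (2 * y + 2 ≤ x))`; `x % 2 = 1` iff
`2 * (x / 2) + 1 = x`.  `chi b x` is computed by a fold over `b` with state `(parity, x)`: `(a, x) ↦ (xor a (c && odd x), x / 2)`.
`Nat.size x`: fold over `List.range x` with state `(y, r)`: `if y = 0 then (y, r) else (y / 2, r + 1)`.  `x / c` for a constant `c ≥ 1`: the length of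
`(List.range x).filter (fun y => decide (c * (y + 1) ≤ x))`.  `List.take m`, `List.drop m` with `m` variable: folds (or iterate `tail` with
`Poly.iterate`-type lemmas; `pTakeConst`, `pDropConst` in `IpzK.lean` are for constants).  `chunkSel m t` for constant `t`: induction on `t`.
-/

set_option autoImplicit false

namespace Pool.Agent.H83.E46

open Pool.Agent.H14.ETH Pool.Agent.H46.SK Pool.Agent.H83.E14

variable {α : Type} [Enc α]

theorem PFA_filter_lt (m n : ℕ) (h : m ≤ n) :
    ((List.range n).filter (fun y => decide (y < m))).length = m := by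
  induction n with
  | zero => have : m = 0 := by omega
            subst this; rfl
  | succ n ih =>
    rw [List.range_succ, List.filter_append]
    by_cases hm : m = n + 1
    · subst hm
      have h1 : ((List.range n).filter (fun y => decide (y < n + 1))) = List.range n := by
        rw [List.filter_eq_self]
        intro a ha
        rw [List.mem_range] at ha
        simp only [decide_eq_true_eq]; omega
      rw [h1]
      simp
    · have h2 : ¬ n < m := by omega
      rw [List.length_append, ih (by omega)]
      simp [h2]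

theorem pDivConst (c : ℕ) {x : α → ℕ} (hx : Poly x) : Poly (fun a => x a / c) := by
  rcases Nat.eq_zero_or_pos c with hc | hc
  · subst hc
    exact (Poly.const 0).congr fun a => (Nat.div_zero _).symm
  · refine (Poly.length (Poly.filter (f := fun (a : α) (y : ℕ) => decide (c * (y + 1) ≤ x a))
      (Poly.range hx) (Poly.natLe (Poly.mul (Poly.const c) (Poly.succ Poly.snd))
        (hx.comp Poly.fst)))).congr fun a => ?_
    rw [← PFA_filter_lt (x a / c) (x a) (Nat.div_le_self _ _)]
    congr 2
    funext y
    rw [decide_eq_decide, mul_comm, ← Nat.le_div_iff_mul_le hc]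
    exact Nat.succ_le_iff

theorem pOdd {x : α → ℕ} (hx : Poly x) : Poly (fun a => decide (x a % 2 = 1)) := by
  refine (Poly.natEq (Poly.succ (Poly.mul (Poly.const 2) (pDivConst 2 hx))) hx).congr fun a => ?_
  rw [decide_eq_decide]
  omega

/-- Step of the computation of the size. -/
def PFA_st (s : ℕ × ℕ) (_ : ℕ) : ℕ × ℕ := bif decide (s.1 = 0) then s else (s.1 / 2, s.2 + 1)

theorem PFA_size_div (y : ℕ) (hy : y ≠ 0) : Nat.size y = Nat.size (y / 2) + 1 := by
  have h := Nat.bit_bodd_div2 y
  have h1 : Nat.bit (Nat.bodd y) (Nat.div2 y) ≠ 0 := by rw [h]; exact hy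
  have h2 := Nat.size_bit h1
  rw [h, Nat.div2_val] at h2
  exact h2

theorem PFA_fold (l : List ℕ) : ∀ (y r : ℕ), Nat.size y ≤ l.length →
    l.foldl PFA_st (y, r) = (0, r + Nat.size y) := by
  induction l with
  | nil =>
    intro y r h
    have h0 : Nat.size y = 0 := by simpa using h
    have : y = 0 := Nat.size_eq_zero.1 h0
    subst this
    simp
  | cons z l ih =>
    intro y r h
    rw [List.foldl_cons]
    by_cases hy : y = 0
    · subst hy
      have : PFA_st (0, r) z = (0, r) := by simp [PFA_st]
      rw [this, ih 0 r (by simp)]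
    · have : PFA_st (y, r) z = (y / 2, r + 1) := by simp [PFA_st, hy]
      have h2 := PFA_size_div y hy
      rw [this, ih (y / 2) (r + 1) (by rw [List.length_cons] at h; omega)]
      rw [h2]
      ext
      · rfl
      · simp only; omega

theorem pSize {x : α → ℕ} (hx : Poly x) : Poly (fun a => Nat.size (x a)) := by
  have h : Poly (fun a => (List.range (x a)).foldl PFA_st (x a, 0)) := by
    refine Poly.foldl_add (f := fun (_ : α) (s : ℕ × ℕ) (y : ℕ) => PFA_st s y) (Poly.range hx)
      (hx.pair (Poly.const 0)) ?_ (fun _ => 10) (PB.const 10) ?_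
    · refine Poly.cond (c := fun p : α × (ℕ × ℕ) × ℕ => decide (p.2.1.1 = 0)) ?_ ?_ ?_
      · exact Poly.natEq (Poly.fst' (Poly.fst' Poly.snd)) (Poly.const 0)
      · exact Poly.fst' Poly.snd
      · exact (pDivConst 2 (Poly.fst' (Poly.fst' Poly.snd))).pair
          (Poly.succ (Poly.snd' (Poly.fst' Poly.snd)))
    · intro a s y _
      unfold PFA_st
      cases decide (s.1 = 0)
      · simp only [cond_false]
        obtain ⟨s1, s2⟩ := s
        simp only [Poly.sz_pair, Poly.sz_nat]
        have := Nat.div_le_self s1 2
        omega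
      · simp only [cond_true]; omega
  refine (Poly.snd' h).congr fun a => ?_
  rw [PFA_fold _ _ _ (by rw [List.length_range]; exact Nat.size_le.2 Nat.lt_two_pow_self)]
  simp

theorem pXor {f g : α → Bool} (hf : Poly f) (hg : Poly g) : Poly (fun a => xor (f a) (g a)) := by
  refine (Poly.cond (c := f) (f := fun a => !(g a)) (g := g) hf (Poly.not hg) hg).congr fun a => ?_
  cases f a <;> simp

theorem pDrop {β : Type} [Enc β] {m : α → ℕ} {l : α → List β} (hm : Poly m) (hl : Poly l) :
    Poly (fun a => (l a).drop (m a)) := by
  refine (Poly.foldl_add (f := fun (_ : α) (s : List β) (_ : ℕ) => s.tail) (Poly.range hm)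
    hl (Poly.tail (Poly.fst' Poly.snd)) (fun _ => 0) (PB.const 0) ?_).congr fun a => ?_
  · intro a s y _
    have := Poly.sz_drop_le s 1
    rw [List.drop_one] at this
    omega
  · have key : ∀ (k : ℕ) (s : List β), (List.range k).foldl (fun (s : List β) (_ : ℕ) => s.tail) s
        = s.drop k := by
      intro k
      induction k with
      | zero => intro s; rfl
      | succ k ih =>
        intro s
        rw [List.range_succ, List.foldl_append, ih]
        simp
    exact key _ _

theorem pTake {β : Type} [Enc β] {m : α → ℕ} {l : α → List β} (hm : Poly m) (hl : Poly l) :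
    Poly (fun a => (l a).take (m a)) := by
  refine (Poly.reverse (pDrop (Poly.sub (Poly.length hl) hm) (Poly.reverse hl))).congr fun a => ?_
  rw [List.drop_reverse, List.reverse_reverse]
  rcases Nat.le_total (m a) (l a).length with h | h
  · congr 1; omega
  · rw [List.take_of_length_le h, List.take_of_length_le]
    omega

theorem pChi {b : α → List Bool} {x : α → ℕ} (hb : Poly b) (hx : Poly x) :
    Poly (fun a => chi (b a) (x a)) := by
  have h : Poly (fun a => (b a).foldl (fun (s : Bool × ℕ) (c : Bool) =>
      (xor s.1 (c && decide (s.2 % 2 = 1)), s.2 / 2)) (false, x a)) := by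
    refine Poly.foldl_add (f := fun (_ : α) (s : Bool × ℕ) (c : Bool) =>
      (xor s.1 (c && decide (s.2 % 2 = 1)), s.2 / 2)) hb ((Poly.const false).pair hx) ?_
      (fun _ => 10) (PB.const 10) ?_
    · refine Poly.pair (pXor (Poly.fst' (Poly.fst' Poly.snd)) (Poly.and (Poly.snd' Poly.snd)
        (pOdd (Poly.snd' (Poly.fst' Poly.snd))))) (pDivConst 2 (Poly.snd' (Poly.fst' Poly.snd)))
    · intro a s c _
      obtain ⟨s1, s2⟩ := s
      simp only [Poly.sz_pair, Poly.sz_nat]
      have h1 := Nat.div_le_self s2 2
      have h2 : ∀ b : Bool, sz b ≤ 5 := by decide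
      have h3 := h2 (xor s1 (c && decide (s2 % 2 = 1)))
      omega
  have key : ∀ (l : List Bool) (s : Bool × ℕ), (l.foldl (fun (s : Bool × ℕ) (c : Bool) =>
      (xor s.1 (c && decide (s.2 % 2 = 1)), s.2 / 2)) s).1 = xor s.1 (chi l s.2) := by
    intro l
    induction l with
    | nil => intro s; simp [chi]
    | cons c l ih =>
      intro s
      rw [List.foldl_cons, ih]
      simp only [chi, Bool.xor_assoc]
  refine (Poly.fst' h).congr fun a => ?_
  rw [key]
  simp

theorem pPar {b : α → List Bool} {x : α → ℕ} (hb : Poly b) (hx : Poly x) :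
    Poly (fun a => par (b a) (x a)) := by
  refine (pXor (Poly.headD false hb) (pChi (Poly.tail hb) hx)).congr fun a => ?_
  cases b a <;> simp [par, chi]

theorem pChunkSel (t : ℕ) {m : α → ℕ} {b : α → List Bool} {X : α → List ℕ} (hm : Poly m)
    (hb : Poly b) (hX : Poly X) : Poly (fun a => chunkSel (m a) t (b a) (X a)) := by
  induction t generalizing b X with
  | zero => exact hX
  | succ t ih =>
    refine (ih (b := fun a => (b a).drop (m a))
      (X := fun a => (X a).filter (fun x => par ((b a).take (m a)) x)) (pDrop hm hb) ?_)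
    exact Poly.filter (f := fun (a : α) (x : ℕ) => par ((b a).take (m a)) x) hX
      (pPar ((pTake hm hb).comp Poly.fst) Poly.snd)

theorem pItemsL (t : ℕ) {n : α → ℕ} {b : α → List Bool} {L : α → LFam} (hn : Poly n)
    (hb : Poly b) (hL : Poly L) : Poly (fun a => itemsL (n a) t (b a) (L a)) := by
  unfold itemsL
  refine Poly.filter (f := fun (a : α) (x : ℕ) => !(hasVar x (unitsL (L a))))
    (pChunkSel t (Poly.succ (pSize hn)) hb (Poly.range hn)) ?_
  exact Poly.not (pHasVar Poly.snd (pUnitsL (hL.comp Poly.fst)))

end Pool.Agent.H83.E46
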