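import Pool.Agent.H46.SK.Base

/-!
# Module PHA: new critical clauses along a chain of families

`F i`, `i ≤ I`, are antichains satisfied by `v`; `F i` refines `F (i + 1)` (so time runs downwards).
`NewQ v (F f) (F e) q x` for `e ≤ f`: some clause `D` of `F e` with at most `q + 1` literals is critical
for `x` (its only true literal is that of `x`) and contains no critical clause (for `x`) of `F f`.

Proofs.
* `crit_down`: `C` critical for `x` in `F f`; iterate `Ref`: some `D ∈ F e`, `D ⊆ C`; `D` is satisfied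
  by `v`, its true literals are true literals of `C`, so `D` is critical for `x`.
* `of_critNew`: `D ∈ F i`, `D ∉ F (i+1)`, `D` critical; `D.card < k` by `Ref` (so `D.card ≤ (k-2)+1`).
  If `C ∈ F (i+1)` is critical for `x` and `C ⊆ D`, take `D' ∈ F i`, `D' ⊆ C ⊆ D`; `F i` is an antichain,
  so `D' = D`, hence `C = D ∈ F (i+1)`, a contradiction.
* `mono`: let `D` be the witness for `(f', e')`; take `D' ∈ F e`, `D' ⊆ D`, critical; if `C ∈ F f`
  is critical with `C ⊆ D'`, then some critical `C' ∈ F f'` with `C' ⊆ C ⊆ D`, a contradiction.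
* `collect`: `q ≥ 1`; the points `p 0 < p 1 < ... < p B`.  Suppose `¬ NewQ v (F (p B)) (F (p 0)) (q-1) x`.
  For each good `j` (in the filter) take a witness `D_j ∈ F (p j)`, `D_j.card ≤ q + 1`, containing no
  critical clause of `F (p (j+1))`; take `D'_j ∈ F (p 0)` critical, `D'_j ⊆ D_j`.  If
  `D'_j.card ≤ q`, then (as `NewQ .. (q-1)` fails) `D'_j` contains a critical clause of `F (p B)`,
  hence one of `F (p (j+1))` (`crit_down`), inside `D_j`: contradiction.  So `D'_j.card = q + 1`,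
  `D'_j = D_j`.  The `D_j` are different: for `j < j'` (both good), `D_(j') ∈ F (p j')` is critical, so it
  contains a critical clause of `F (p (j+1))` (`crit_down`, `p (j+1) ≤ p j'`), and `D_j` does not.
  So there are at least `T` clauses of size `q + 1` in `F (p 0)` containing the literal `(x, v x)`.
-/

set_option autoImplicit false

namespace Pool.Agent.H46.SK

open Finset Pool.Agent.H14.ETH

/-- There is a critical clause in `𝒟` with at most `q + 1` literals that contains no critical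
clause of `𝒞`. -/
def NewQ (v : ℕ → Bool) (𝒞 𝒟 : Fam) (q x : ℕ) : Prop :=
  ∃ D ∈ 𝒟, Crit v x D ∧ D.card ≤ q + 1 ∧ ∀ C ∈ 𝒞, Crit v x C → ¬ C ⊆ D

/-- A chain of families. -/
structure Chain (k n : ℕ) (v : ℕ → Bool) (I : ℕ) (F : ℕ → Fam) : Prop where
  ov : ∀ i ≤ I, Over n (F i)
  anti : ∀ i ≤ I, Anti (F i)
  sat : ∀ i ≤ I, satBy v (F i)
  ref : ∀ i < I, Ref k (F (i + 1)) (F i)

variable {k n I : ℕ} {v : ℕ → Bool} {F : ℕ → Fam}

theorem pha_crit_sub {v : ℕ → Bool} {x : ℕ} {C D : Finset Lit} (hx : Crit v x C) (h : D ⊆ C)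
    (hD : ∃ l ∈ D, v l.1 = l.2) : Crit v x D := by
  unfold Crit at hx ⊢
  have h1 : D.filter (fun l => v l.1 = l.2) ⊆ {(x, v x)} := by
    rw [← hx]
    exact Finset.filter_subset_filter _ h
  obtain ⟨l, hl, hv⟩ := hD
  have h2 : (D.filter (fun l => v l.1 = l.2)).Nonempty := ⟨l, Finset.mem_filter.2 ⟨hl, hv⟩⟩
  exact h2.subset_singleton_iff.1 h1

theorem pha_crit_mem {v : ℕ → Bool} {x : ℕ} {C : Finset Lit} (hx : Crit v x C) : (x, v x) ∈ C := by
  have h1 : (x, v x) ∈ C.filter (fun l => v l.1 = l.2) := by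
    unfold Crit at hx
    rw [hx]
    exact Finset.mem_singleton_self _
  exact (Finset.mem_filter.1 h1).1

theorem Chain.crit_down (h : Chain k n v I F) {e f x : ℕ} (hef : e ≤ f) (hf : f ≤ I)
    {C : Finset Lit} (hC : C ∈ F f) (hx : Crit v x C) : ∃ D ∈ F e, D ⊆ C ∧ Crit v x D := by
  induction f, hef using Nat.le_induction generalizing C with
  | base => exact ⟨C, hC, subset_rfl, hx⟩
  | succ f hef ih =>
    obtain ⟨D, hD, hDC⟩ := (h.ref f (by omega)).1 C hC
    have hDx : Crit v x D := pha_crit_sub hx hDC (h.sat f (by omega) D hD)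
    obtain ⟨D', hD', hDD, hx'⟩ := ih (by omega) hD hDx
    exact ⟨D', hD', hDD.trans hDC, hx'⟩

theorem Chain.of_critNew (h : Chain k n v I F) {i x : ℕ} (hi : i < I)
    (hx : x ∈ critNew v n (F (i + 1)) (F i)) : NewQ v (F (i + 1)) (F i) (k - 2) x := by
  classical
  have hx2 : ∃ D ∈ F i, D ∉ F (i + 1) ∧ 2 ≤ D.card ∧ Crit v x D := by
    unfold critNew at hx
    simp only [Finset.mem_filter] at hx
    exact hx.2
  obtain ⟨D, hD, hDn, h2, hDx⟩ := hx2
  have hcard : D.card < k := by
    rcases (h.ref i hi).2 D hD with h3 | h3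
    · exact absurd h3 hDn
    · exact h3
  refine ⟨D, hD, hDx, by omega, fun C hC _ hCD => hDn ?_⟩
  obtain ⟨D', hD', hDC⟩ := (h.ref i hi).1 C hC
  have h4 : D' = D := h.anti i (by omega) D' hD' D hD (hDC.trans hCD)
  have h5 : C = D := Finset.Subset.antisymm hCD (h4 ▸ hDC)
  rwa [← h5]

theorem Chain.mono (h : Chain k n v I F) {e e' f' f q x : ℕ} (h1 : e ≤ e') (h2 : e' ≤ f')
    (h3 : f' ≤ f) (h4 : f ≤ I) (hx : NewQ v (F f') (F e') q x) : NewQ v (F f) (F e) q x := by
  obtain ⟨D, hD, hDx, hcard, hno⟩ := hx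
  obtain ⟨D', hD', hDD, hDx'⟩ := h.crit_down h1 (by omega) hD hDx
  refine ⟨D', hD', hDx', (Finset.card_le_card hDD).trans hcard, fun C hC hCx hCD => ?_⟩
  obtain ⟨C', hC', hCC, hCx'⟩ := h.crit_down h3 h4 hC hCx
  exact hno C' hC' hCx' (hCC.trans (hCD.trans hDD))

open Classical in
theorem Chain.collect (h : Chain k n v I F) {q B x T : ℕ} (hq : 1 ≤ q) (p : ℕ → ℕ)
    (hp : ∀ j < B, p j < p (j + 1)) (hpB : p B ≤ I)
    (hdg : dg (F (p 0)) (q + 1) {(x, v x)} < T)
    (hT : T ≤ ((Finset.range B).filter (fun j => NewQ v (F (p (j + 1))) (F (p j)) q x)).card) :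
    NewQ v (F (p B)) (F (p 0)) (q - 1) x := by
  by_contra hno
  have hmono : ∀ a b, a ≤ b → b ≤ B → p a ≤ p b := by
    intro a b hab hb
    induction b, hab using Nat.le_induction with
    | base => exact le_rfl
    | succ b hab ih => exact (ih (by omega)).trans (hp b (by omega)).le
  have hwit : ∀ j ∈ (Finset.range B).filter (fun j => NewQ v (F (p (j + 1))) (F (p j)) q x),
      ∃ D : Finset Lit, D ∈ sups (F (p 0)) (q + 1) {(x, v x)} ∧ D ∈ F (p j) ∧ Crit v x D ∧
        ∀ C ∈ F (p (j + 1)), Crit v x C → ¬ C ⊆ D := by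
    intro j hj
    obtain ⟨hjB, D, hD, hDx, hcard, hnoC⟩ := Finset.mem_filter.1 hj
    rw [Finset.mem_range] at hjB
    have hpj : p j ≤ p B := hmono j B hjB.le le_rfl
    obtain ⟨D', hD', hDD, hDx'⟩ := h.crit_down (hmono 0 j (Nat.zero_le _) hjB.le)
      (hpj.trans hpB) hD hDx
    have hcard' : q + 1 ≤ D'.card := by
      by_contra hc
      apply hno
      refine ⟨D', hD', hDx', by omega, fun C hC hCx hCD => ?_⟩
      obtain ⟨C', hC', hCC, hCx'⟩ := h.crit_down (hmono (j + 1) B (by omega) le_rfl) hpB hC hCx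
      exact hnoC C' hC' hCx' (hCC.trans (hCD.trans hDD))
    have heq : D' = D := Finset.eq_of_subset_of_card_le hDD (hcard.trans hcard')
    subst heq
    refine ⟨D', mem_sups.2 ⟨hD', by omega, ?_⟩, hD, hDx, hnoC⟩
    rw [Finset.singleton_subset_iff]
    exact pha_crit_mem hDx
  choose! D hD using hwit
  have hinj : Set.InjOn D ((Finset.range B).filter
      (fun j => NewQ v (F (p (j + 1))) (F (p j)) q x) : Finset ℕ) := by
    have key : ∀ j ∈ (Finset.range B).filter (fun j => NewQ v (F (p (j + 1))) (F (p j)) q x),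
        ∀ j' ∈ (Finset.range B).filter (fun j => NewQ v (F (p (j + 1))) (F (p j)) q x),
        j < j' → D j ≠ D j' := by
      intro j hj j' hj' hlt heq
      have hjB := Finset.mem_range.1 (Finset.mem_filter.1 hj').1
      obtain ⟨-, -, -, hnoC⟩ := hD j hj
      obtain ⟨-, hD2, hDx2, -⟩ := hD j' hj'
      obtain ⟨C, hC, hCD, hCx⟩ := h.crit_down (hmono (j + 1) j' (by omega) hjB.le)
        ((hmono j' B hjB.le le_rfl).trans hpB) hD2 hDx2
      exact hnoC C hC hCx (heq ▸ hCD)
    intro j hj j' hj' heq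
    rcases lt_trichotomy j j' with hlt | rfl | hlt
    · exact absurd heq (key j hj j' hj' hlt)
    · rfl
    · exact absurd heq.symm (key j' hj' j hj hlt)
  have hle : ((Finset.range B).filter (fun j => NewQ v (F (p (j + 1))) (F (p j)) q x)).card ≤
      dg (F (p 0)) (q + 1) {(x, v x)} :=
    Finset.card_le_card_of_injOn D (fun j hj => (hD j hj).1) hinj
  omega

theorem Chain.unit_of_newQ (h : Chain k n v I F) {e f x : ℕ} (he : e ≤ I)
    (hx : NewQ v (F f) (F e) 0 x) : x ∈ unitT v n (F e) := by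
  obtain ⟨D, hD, hDx, hcard, -⟩ := hx
  have hmem := pha_crit_mem hDx
  have hD1 : D = {(x, v x)} :=
    (Finset.eq_of_subset_of_card_le (Finset.singleton_subset_iff.2 hmem) (by
      rw [Finset.card_singleton]
      omega)).symm
  unfold unitT
  refine Finset.mem_filter.2 ⟨?_, hD1 ▸ hD⟩
  have h1 := h.ov e he D hD hmem
  rw [mem_lits] at h1
  exact Finset.mem_range.2 h1

end Pool.Agent.H46.SK
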