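import Pool.Agent.H46.SK.PHA

/-!
# Module PHB: the pigeonhole argument

The number `I` depends only on `k`, `th` and `ε`.

Proof.  By descending induction on `q` (from `k - 2` to `0`) one proves `block`: there is a function
`len : ℕ → ℕ` (`1 ≤ len e`) such that for every chain (with the degree bounds `dg (F i) (q'+1) {l} < th i q'` for
`i ≤ I`, `1 ≤ q' < k`) with `#critNew v n (F (i+1)) (F i) ≥ ε n` for ALL `i < I`, and every `e` with
`e + len e ≤ I`: `#{x < n : NewQ v (F (e + len e)) (F e) q x} ≥ ε / 2 ^ (k - 2 - q) * n`.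
* `q = k - 2`: `len e = 1`, `Chain.of_critNew`.
* from `q ≥ 1` to `q - 1`: let `B = ⌈2 * th e q / ε_q⌉`, `ε_q = ε / 2 ^ (k-2-q)` (at least one), `p 0 = e`,
  `p (j+1) = p j + len (p j)`, and the new length is `p B - e`.  For `x < n` let `G x` be the number of `j < B` with
  `NewQ v (F (p (j+1))) (F (p j)) q x`.  Double counting: `∑_x G x ≥ B ε_q n`, `G x ≤ B`, and `G x < T = th e q` unless
  `NewQ v (F (p B)) (F e) (q-1) x` (`Chain.collect`).  So `B ε_q n ≤ B #New + T n` and
  `T / B ≤ ε_q / 2`, which gives `#New ≥ ε_q n / 2`.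
* At `q = 0`, `e = 0`, `I = len 0`: `Chain.unit_of_newQ`.
-/

set_option autoImplicit false

namespace Pool.Agent.H46.SK

open Finset Pool.Agent.H14.ETH

/-- The conclusion of the pigeonhole argument. -/
def PigeonAt (k : ℕ) (th : ℕ → ℕ → ℕ) (ε : ℝ) (I : ℕ) : Prop :=
  ∀ (n : ℕ) (v : ℕ → Bool) (F : ℕ → Fam), Chain k n v I F →
    (∀ i ≤ I, ∀ q, 1 ≤ q → q < k → ∀ l : Lit, dg (F i) (q + 1) {l} < th i q) →
    (ε / 2 ^ (k - 2) * n ≤ (unitT v n (F 0)).card) ∨
      ∃ i < I, ((critNew v n (F (i + 1)) (F i)).card : ℝ) < ε * n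

open Classical in
/-- The variables with a new critical clause. -/
private noncomputable def PHB_news (v : ℕ → Bool) (n : ℕ) (𝒞 𝒟 : Fam) (q : ℕ) : Finset ℕ :=
  (Finset.range n).filter (fun x => NewQ v 𝒞 𝒟 q x)

/-- the endpoints of the blocks -/
private def PHB_pt (len : ℕ → ℕ) (e : ℕ) : ℕ → ℕ
  | 0 => e
  | j + 1 => PHB_pt len e j + len (PHB_pt len e j)

private theorem PHB_pt_lt {len : ℕ → ℕ} (hlen : ∀ e, 1 ≤ len e) (e j : ℕ) :
    PHB_pt len e j < PHB_pt len e (j + 1) := by
  have := hlen (PHB_pt len e j)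
  show PHB_pt len e j < PHB_pt len e j + len (PHB_pt len e j)
  omega

private theorem PHB_pt_mono {len : ℕ → ℕ} (hlen : ∀ e, 1 ≤ len e) (e : ℕ) :
    Monotone (PHB_pt len e) :=
  monotone_nat_of_le_succ (fun j => (PHB_pt_lt hlen e j).le)

private theorem PHB_pt_ge {len : ℕ → ℕ} (hlen : ∀ e, 1 ≤ len e) (e j : ℕ) :
    e + j ≤ PHB_pt len e j := by
  induction j with
  | zero => exact le_refl _
  | succ j ih =>
    have := PHB_pt_lt hlen e j
    omega

/-- the number of good blocks -/
private theorem PHB_block_step {k n I : ℕ} {v : ℕ → Bool} {F : ℕ → Fam} (hc : Chain k n v I F)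
    {q T B e : ℕ} (hq : 1 ≤ q) (hB : 1 ≤ B) {len : ℕ → ℕ} (hlen : ∀ e, 1 ≤ len e)
    (hI : PHB_pt len e B ≤ I) {ε' : ℝ} (hTB : (T : ℝ) ≤ B * ε' / 2)
    (hdg : ∀ l : Lit, dg (F e) (q + 1) {l} < T)
    (hj : ∀ j < B, ε' * n ≤
      ((PHB_news v n (F (PHB_pt len e (j + 1))) (F (PHB_pt len e j)) q).card : ℝ)) :
    ε' / 2 * n ≤ ((PHB_news v n (F (PHB_pt len e B)) (F e) (q - 1)).card : ℝ) := by
  classical
  set G : ℕ → ℕ := fun x => ((Finset.range B).filter (fun j =>
    NewQ v (F (PHB_pt len e (j + 1))) (F (PHB_pt len e j)) q x)).card with hG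
  have hGB : ∀ x, G x ≤ B := fun x => by
    calc G x ≤ (Finset.range B).card := Finset.card_filter_le _ _
      _ = B := Finset.card_range B
  have hnot : ∀ x, ¬ NewQ v (F (PHB_pt len e B)) (F e) (q - 1) x → G x ≤ T := by
    intro x hx
    by_contra hcon
    push Not at hcon
    apply hx
    have := hc.collect (q := q) (B := B) (x := x) (T := T) hq (PHB_pt len e)
      (fun j _ => PHB_pt_lt hlen e j) hI (hdg _) (by
        refine le_trans hcon.le ?_
        simp only [hG]
        exact le_of_eq (by congr))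
    exact this
  have hsum : (B : ℝ) * (ε' * n) ≤ ∑ x ∈ Finset.range n, (G x : ℝ) := by
    have e1 : ∑ x ∈ Finset.range n, (G x : ℝ) = ∑ j ∈ Finset.range B,
        ((PHB_news v n (F (PHB_pt len e (j + 1))) (F (PHB_pt len e j)) q).card : ℝ) := by
      have e2 : ∀ x, (G x : ℝ) = ∑ j ∈ Finset.range B,
          (if NewQ v (F (PHB_pt len e (j + 1))) (F (PHB_pt len e j)) q x then (1 : ℝ) else 0) := by
        intro x
        simp only [hG]
        rw [Finset.card_filter]
        push_cast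
        rfl
      have e3 : ∀ j, ((PHB_news v n (F (PHB_pt len e (j + 1))) (F (PHB_pt len e j)) q).card : ℝ)
          = ∑ x ∈ Finset.range n,
          (if NewQ v (F (PHB_pt len e (j + 1))) (F (PHB_pt len e j)) q x then (1 : ℝ) else 0) := by
        intro j
        unfold PHB_news
        rw [Finset.card_filter]
        push_cast
        apply Finset.sum_congr rfl
        intro x _
        congr
      simp only [e2, e3]
      exact Finset.sum_comm
    rw [e1]
    calc (B : ℝ) * (ε' * n) = ∑ j ∈ Finset.range B, (ε' * n) := by simp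
      _ ≤ _ := Finset.sum_le_sum (fun j hj' => hj j (Finset.mem_range.1 hj'))
  have hsum2 : ∑ x ∈ Finset.range n, (G x : ℝ)
      ≤ B * ((PHB_news v n (F (PHB_pt len e B)) (F e) (q - 1)).card : ℝ) + T * n := by
    have e4 : ((PHB_news v n (F (PHB_pt len e B)) (F e) (q - 1)).card : ℝ)
        = ∑ x ∈ Finset.range n,
          (if NewQ v (F (PHB_pt len e B)) (F e) (q - 1) x then (1 : ℝ) else 0) := by
      unfold PHB_news
      rw [Finset.card_filter]
      push_cast
      apply Finset.sum_congr rfl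
      intro x _
      congr
    calc ∑ x ∈ Finset.range n, (G x : ℝ)
        ≤ ∑ x ∈ Finset.range n, ((B : ℝ) *
          (if NewQ v (F (PHB_pt len e B)) (F e) (q - 1) x then (1 : ℝ) else 0) + T) := by
          apply Finset.sum_le_sum
          intro x _
          by_cases hx : NewQ v (F (PHB_pt len e B)) (F e) (q - 1) x
          · rw [if_pos hx]
            have h1 : (G x : ℝ) ≤ B := by exact_mod_cast hGB x
            have h2 : (0 : ℝ) ≤ T := Nat.cast_nonneg _
            linarith
          · rw [if_neg hx]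
            have h1 : (G x : ℝ) ≤ T := by exact_mod_cast hnot x hx
            linarith
      _ = B * ((PHB_news v n (F (PHB_pt len e B)) (F e) (q - 1)).card : ℝ) + T * n := by
          rw [Finset.sum_add_distrib, ← Finset.mul_sum, ← e4]
          simp [mul_comm]
  have hB0 : (0 : ℝ) < B := by exact_mod_cast hB
  have hn0 : (0 : ℝ) ≤ n := Nat.cast_nonneg _
  have h3 : (T : ℝ) * n ≤ B * ε' / 2 * n := mul_le_mul_of_nonneg_right hTB hn0
  have h4 : (B : ℝ) * (ε' / 2 * n)
      ≤ B * ((PHB_news v n (F (PHB_pt len e B)) (F e) (q - 1)).card : ℝ) := by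
    have e5 : (B : ℝ) * (ε' / 2 * n) = B * (ε' * n) - B * ε' / 2 * n := by ring
    rw [e5]; linarith
  exact le_of_mul_le_mul_left h4 hB0

private theorem PHB_block {k : ℕ} (hk : 3 ≤ k) (th : ℕ → ℕ → ℕ) (hth : ∀ i q, 1 ≤ th i q) {ε : ℝ}
    (hε : 0 < ε) (d : ℕ) (hd : d ≤ k - 2) : ∃ len : ℕ → ℕ, (∀ e, 1 ≤ len e) ∧
      ∀ (n : ℕ) (v : ℕ → Bool) (F : ℕ → Fam) (I : ℕ), Chain k n v I F →
        (∀ i ≤ I, ∀ q, 1 ≤ q → q < k → ∀ l : Lit, dg (F i) (q + 1) {l} < th i q) →
        (∀ i < I, ε * n ≤ ((critNew v n (F (i + 1)) (F i)).card : ℝ)) →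
        ∀ e, e + len e ≤ I →
          ε / 2 ^ d * n ≤ ((PHB_news v n (F (e + len e)) (F e) (k - 2 - d)).card : ℝ) := by
  classical
  induction d with
  | zero =>
    refine ⟨fun _ => 1, fun _ => le_refl _, ?_⟩
    intro n v F I hc _ hcr e he
    have he' : e < I := Nat.lt_of_succ_le he
    have h1 : critNew v n (F (e + 1)) (F e) ⊆ PHB_news v n (F (e + 1)) (F e) (k - 2) := by
      intro x hx
      unfold PHB_news
      rw [Finset.mem_filter]
      refine ⟨?_, hc.of_critNew he' hx⟩
      unfold critNew at hx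
      exact (Finset.mem_filter.1 hx).1
    have h2 := Finset.card_le_card h1
    have h3 := hcr e he'
    rw [pow_zero, div_one, Nat.sub_zero]
    exact h3.trans (by exact_mod_cast h2)
  | succ d ih =>
    obtain ⟨len, hlen, hmain⟩ := ih (by omega)
    set q : ℕ := k - 2 - d with hq
    have hq1 : 1 ≤ q := by omega
    set ε' : ℝ := ε / 2 ^ d with hε'
    have hε'0 : 0 < ε' := by positivity
    set B : ℕ → ℕ := fun e => ⌈2 * (th e q : ℝ) / ε'⌉₊ with hB
    have hB1 : ∀ e, 1 ≤ B e := by
      intro e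
      simp only [hB]
      rw [Nat.one_le_ceil_iff]
      have : (0 : ℝ) < (th e q : ℝ) := by
        have := hth e q
        exact_mod_cast this
      positivity
    have hge : ∀ e, e + 1 ≤ PHB_pt len e (B e) := by
      intro e
      have h1 := PHB_pt_ge hlen e (B e)
      have h2 := hB1 e
      omega
    refine ⟨fun e => PHB_pt len e (B e) - e, fun e => by
      have := hge e
      show 1 ≤ PHB_pt len e (B e) - e
      omega, ?_⟩
    intro n v F I hc hdg hcr e he
    have h1 := hge e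
    have e1 : e + (PHB_pt len e (B e) - e) = PHB_pt len e (B e) := by omega
    simp only [e1] at he ⊢
    have e2 : ε / 2 ^ (d + 1) = ε' / 2 := by rw [hε', pow_succ]; field_simp
    have e3 : k - 2 - (d + 1) = q - 1 := by omega
    rw [e2, e3]
    refine PHB_block_step hc (T := th e q) hq1 (hB1 e) hlen he ?_ ?_ ?_
    · have h2 : 2 * (th e q : ℝ) / ε' ≤ (B e : ℝ) := Nat.le_ceil _
      rw [div_le_iff₀ hε'0] at h2
      linarith
    · intro l
      exact hdg e (by omega) q hq1 (by omega) l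
    · intro j hj
      have h2 : PHB_pt len e (j + 1) ≤ I :=
        (PHB_pt_mono hlen e (show j + 1 ≤ B e by omega)).trans he
      exact hmain n v F I hc hdg hcr (PHB_pt len e j) h2

theorem pigeon {k : ℕ} (hk : 3 ≤ k) (th : ℕ → ℕ → ℕ) (hth : ∀ i q, 1 ≤ th i q) {ε : ℝ}
    (hε : 0 < ε) : ∃ I, 1 ≤ I ∧ PigeonAt k th ε I := by
  classical
  obtain ⟨len, hlen, hmain⟩ := PHB_block hk th hth hε (k - 2) le_rfl
  refine ⟨len 0, hlen 0, ?_⟩
  intro n v F hc hdg
  by_cases hcr : ∀ i < len 0, ε * n ≤ ((critNew v n (F (i + 1)) (F i)).card : ℝ)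
  · left
    have h1 := hmain n v F (len 0) hc hdg hcr 0 (by omega)
    rw [Nat.sub_self, Nat.zero_add] at h1
    refine h1.trans ?_
    have h2 : PHB_news v n (F (len 0)) (F 0) 0 ⊆ unitT v n (F 0) := by
      intro x hx
      unfold PHB_news at hx
      exact hc.unit_of_newQ (Nat.zero_le _) (Finset.mem_filter.1 hx).2
    exact_mod_cast Finset.card_le_card h2
  · right
    push Not at hcr
    exact hcr

end Pool.Agent.H46.SK
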