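import Pool.Agent.H46.SK.Base

/-!
# Module STG: a stage with arbitrarily small loss exists

Proof: adapt `Pool.Agent.H14.ETH.exists_spK` (file `Pool/Agent/H14/OneK.lean`), which is the same
statement with `a i = 1 / (m Z ^ (i - 1))` for all `i < K`.  Here `a 1 = 3 s / 4`, `net 1 = s / 2`,
and for `2 ≤ j < k`: `a j = 1 / (m Z ^ (j - 1))`, `net j = a j / 2`, `a k = 0`,
`th p = Λ Z ^ (p - 1)`, where `m` is a natural number with `1 / m ≤ min γ (s / 4)`, `Λ = Λ(z)` is as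
in `exists_spK` but also with `Λ s / 2 ≥ z (k - 2) + 2 + m` (needed for the rules with `p = 1`, as
`net 1 = s / 2`; replace the factor `2 m` by `2 m m'` with `m' ≥ 1 / s`, say), and `Z = 2 ^ z` with
`4 k Λ ≤ Z` (`exists_two_pow`).
`(N)` for `p = 1`: `s / 2 + ∑_(1<i<k) a_i 2 th(i-1) ≤ s / 2 + k * 2 Λ / (m Z) ≤ s / 2 + 1 / (2 m)`.
`(K)`: `2 ^ (-net_(c-p)) ≤ 1 - net_min / 2` with `net_min = 1 / (2 m Z ^ (k - 2))` (and `net 1 = s / 2`
is at least that large), `2 ^ (-(th p net p)) ≤ 2 ^ (-(z (k-2) + 2 + m)) ≤ net_min / 2`.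
`small`: the sum is at most `k * 2 Λ / (m Z) ≤ 1 / (2 m) ≤ γ`.
-/

set_option autoImplicit false

namespace Pool.Agent.H46.SK

open Finset Pool.Agent.H14.ETH

theorem exists_stg {k : ℕ} (hk : 3 ≤ k) {s γ : ℝ} (hs : 0 < s) (hs1 : s ≤ 1) (hγ : 0 < γ) :
    Nonempty (Stg k s γ) := by
  -- the parameters
  obtain ⟨m, hm⟩ := exists_nat_ge (max (1 / γ) (4 / s))
  have hmγ : 1 / γ ≤ (m : ℝ) := (le_max_left _ _).trans hm
  have hms : 4 / s ≤ (m : ℝ) := (le_max_right _ _).trans hm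
  have hm4 : (4 : ℝ) ≤ m := by
    refine le_trans ?_ hms
    rw [le_div_iff₀ hs]
    linarith
  have hmR : (1 : ℝ) ≤ m := by linarith
  have hm1 : 1 ≤ m := by exact_mod_cast hmR
  have rm : (0 : ℝ) < m := by linarith
  have hinvγ : 1 / (m : ℝ) ≤ γ := by
    rw [div_le_iff₀ rm]
    rw [div_le_iff₀ hγ] at hmγ
    linarith
  have hinvs : 1 / (m : ℝ) ≤ s / 4 := by
    rw [div_le_iff₀ rm]
    rw [div_le_iff₀ hs] at hms
    linarith
  obtain ⟨m', hm'⟩ := exists_nat_ge (1 / s)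
  have hm's : 1 ≤ (m' : ℝ) * s := by
    rwa [div_le_iff₀ hs] at hm'
  have hm'R : (1 : ℝ) ≤ m' := by
    have h0 : (0 : ℝ) ≤ m' := Nat.cast_nonneg _
    nlinarith
  have hm'1 : 1 ≤ m' := by exact_mod_cast hm'R
  have rm' : (0 : ℝ) < m' := by linarith
  obtain ⟨z, hz⟩ := exists_two_pow (4 * k * (2 * m * m' * (k - 2)))
    (4 * k * (2 * m * m' * (2 + m)))
  obtain ⟨Λ, hΛ⟩ : ∃ Λ : ℕ, Λ = 2 * m * m' * (z * (k - 2) + 2 + m) := ⟨_, rfl⟩
  obtain ⟨Z, hZ⟩ : ∃ Z : ℕ, Z = 2 ^ z := ⟨_, rfl⟩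
  have h1 : 4 * k * Λ ≤ Z := by
    rw [hΛ, hZ]
    refine le_trans (le_of_eq ?_) hz
    ring
  have hΛ1 : 1 ≤ Λ := by
    rw [hΛ]
    exact Nat.mul_pos (Nat.mul_pos (Nat.mul_pos (by norm_num) hm1) hm'1) (by omega)
  have hZ1 : 1 ≤ Z := by rw [hZ]; exact Nat.one_le_two_pow
  have hZR : (1 : ℝ) ≤ Z := by exact_mod_cast hZ1
  have rZ : (0 : ℝ) < Z := by linarith
  have hKR : (2 : ℝ) ≤ k := by exact_mod_cast (by omega : 2 ≤ k)
  have rK : (0 : ℝ) < k := by linarith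
  have h1R : 4 * (k : ℝ) * Λ ≤ Z := by exact_mod_cast h1
  have hΛR : (1 : ℝ) ≤ Λ := by exact_mod_cast hΛ1
  have rΛ : (0 : ℝ) < Λ := by linarith
  have ha : ∀ i : ℕ, (0 : ℝ) < 1 / (m * (Z : ℝ) ^ i) := fun i => by positivity
  have hanti : ∀ i j : ℕ, i ≤ j → 1 / (m * (Z : ℝ) ^ j) ≤ 1 / (m * (Z : ℝ) ^ i) := by
    intro i j hij
    refine one_div_le_one_div_of_le (by positivity) ?_
    exact mul_le_mul_of_nonneg_left (pow_le_pow_right₀ hZR hij) rm.le
  have hle1 : ∀ i : ℕ, 1 / (m * (Z : ℝ) ^ i) ≤ 1 := by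
    intro i
    refine (hanti 0 i (Nat.zero_le _)).trans ?_
    rw [pow_zero, mul_one, div_le_one rm]
    exact hmR
  have hE1 : (1 : ℝ) ≤ ((z * (k - 2) + 2 + m : ℕ) : ℝ) := by
    exact_mod_cast (by omega : 1 ≤ z * (k - 2) + 2 + m)
  -- the charges of the second branch
  have hthnet : ∀ p : ℕ, 1 ≤ p → ((z * (k - 2) + 2 + m : ℕ) : ℝ) ≤
      ((Λ * Z ^ (p - 1) : ℕ) : ℝ) * (if p = 1 then s / 2 else 1 / (m * (Z : ℝ) ^ (p - 1)) / 2) := by
    intro p hp
    rcases eq_or_ne p 1 with rfl | hp1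
    · rw [if_pos rfl, hΛ]
      have e : ((2 * m * m' * (z * (k - 2) + 2 + m) * Z ^ (1 - 1) : ℕ) : ℝ) * (s / 2) =
          m * (m' * s) * ((z * (k - 2) + 2 + m : ℕ) : ℝ) := by
        push_cast
        simp only [Nat.sub_self, pow_zero]
        ring
      rw [e]
      have h2 : (1 : ℝ) ≤ m * (m' * s) := by nlinarith
      nlinarith
    · rw [if_neg hp1, hΛ]
      have e : ((2 * m * m' * (z * (k - 2) + 2 + m) * Z ^ (p - 1) : ℕ) : ℝ) *
          (1 / (m * (Z : ℝ) ^ (p - 1)) / 2) = m' * ((z * (k - 2) + 2 + m : ℕ) : ℝ) := by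
        push_cast
        field_simp
      rw [e]
      nlinarith
  have hthle : ∀ p : ℕ, 1 ≤ p →
      ((Λ * Z ^ (p - 1) : ℕ) : ℝ) * (if p = 1 then s / 2 else 1 / (m * (Z : ℝ) ^ (p - 1)) / 2) ≤
        Λ := by
    intro p hp
    rcases eq_or_ne p 1 with rfl | hp1
    · rw [if_pos rfl]
      simp only [Nat.sub_self, pow_zero, mul_one]
      nlinarith
    · rw [if_neg hp1]
      have e : ((Λ * Z ^ (p - 1) : ℕ) : ℝ) * (1 / (m * (Z : ℝ) ^ (p - 1)) / 2) =
          Λ * (1 / (2 * m)) := by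
        push_cast
        field_simp
      rw [e]
      have h2 : 1 / (2 * (m : ℝ)) ≤ 1 := by
        rw [div_le_one (by positivity)]
        linarith
      nlinarith
  have hpow : (2 : ℝ) ^ (-((z * (k - 2) + 2 + m : ℕ) : ℝ)) ≤ 1 / (m * (Z : ℝ) ^ (k - 2)) / 4 := by
    rw [Real.rpow_neg (by norm_num), Real.rpow_natCast, pow_add, pow_add, pow_mul]
    have e2 : ((2 : ℝ) ^ z) = Z := by rw [hZ]; push_cast; rfl
    rw [e2, div_div, one_div]
    refine inv_anti₀ (by positivity) ?_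
    have h2 : (m : ℝ) ≤ 2 ^ m := by exact_mod_cast (Nat.lt_two_pow_self (n := m)).le
    have h3 : (0 : ℝ) ≤ (Z : ℝ) ^ (k - 2) := by positivity
    nlinarith
  have hnet : ∀ q : ℕ, 1 ≤ q → q < k →
      1 / (m * (Z : ℝ) ^ (k - 2)) / 2 ≤ (if q = 1 then s / 2 else 1 / (m * (Z : ℝ) ^ (q - 1)) / 2) ∧
      (if q = 1 then s / 2 else 1 / (m * (Z : ℝ) ^ (q - 1)) / 2) ≤ 1 := by
    intro q hq hqk
    rcases eq_or_ne q 1 with rfl | hq1
    · rw [if_pos rfl]
      have h2 := hanti 0 (k - 2) (Nat.zero_le _)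
      rw [pow_zero, mul_one] at h2
      constructor <;> linarith
    · rw [if_neg hq1]
      have h2 := hanti (q - 1) (k - 2) (by omega)
      have h3 := hle1 (q - 1)
      have h4 := ha (q - 1)
      constructor <;> linarith
  have hsum : ∀ (p : ℕ), 1 ≤ p → ∑ i ∈ Finset.range k,
      (if p < i then 1 / (m * (Z : ℝ) ^ (i - 1)) * ((2 * (Λ * Z ^ (i - p - 1)) : ℕ) : ℝ) else 0) ≤
        1 / (m * (Z : ℝ) ^ (p - 1)) / 2 := by
    intro p hp
    have h2 : ∀ i ∈ Finset.range k, (if p < i then 1 / (m * (Z : ℝ) ^ (i - 1)) *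
        ((2 * (Λ * Z ^ (i - p - 1)) : ℕ) : ℝ) else 0) ≤ 2 * Λ / (m * (Z : ℝ) ^ p) := by
      intro i _
      split_ifs with hi
      · have e : (Z : ℝ) ^ (i - 1) = Z ^ p * Z ^ (i - p - 1) := by
          rw [← pow_add]
          congr 1
          omega
        rw [e]
        push_cast
        apply le_of_eq
        field_simp
      · positivity
    refine (Finset.sum_le_card_nsmul _ _ _ h2).trans ?_
    rw [Finset.card_range, nsmul_eq_mul]
    have e : (Z : ℝ) ^ p = Z ^ (p - 1) * Z := by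
      rw [← pow_succ]
      congr 1
      omega
    rw [e]
    have h3 : (k : ℝ) * (2 * Λ / (m * (Z ^ (p - 1) * Z))) = (4 * k * Λ) / (2 * m * Z ^ (p - 1) * Z) := by
      field_simp
      norm_num
    rw [h3, div_div, div_le_div_iff₀ (by positivity) (by positivity)]
    have h4 : (0 : ℝ) ≤ m * (Z : ℝ) ^ (p - 1) * 2 := by positivity
    nlinarith [mul_le_mul_of_nonneg_right h1R h4]
  refine ⟨{
    W := {
      th := fun p => Λ * Z ^ (p - 1)
      a := fun i => if i = k then 0 else if i = 1 then 3 * s / 4 else 1 / (m * (Z : ℝ) ^ (i - 1))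
      D := fun _ => 0
      net := fun i => if i = 1 then s / 2 else 1 / (m * (Z : ℝ) ^ (i - 1)) / 2
      one_le_th := ?_
      a_nonneg := ?_
      net_pos := ?_
      net_le := ?_
      kraft := ?_ }
    top := by simp
    a1 := by
      show (if 1 = k then (0 : ℝ) else if 1 = 1 then 3 * s / 4 else _) = 3 * s / 4
      rw [if_neg (by omega), if_pos rfl]
    η := 1 / (m * (Z : ℝ) ^ (k - 2)) / 2
    κ := Λ
    η_pos := by positivity
    η_le_κ := ?_
    charge1 := ?_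
    charge2 := ?_
    small := ?_ }⟩
  · intro p
    exact Nat.mul_pos hΛ1 (Nat.pow_pos hZ1)
  · intro i
    split_ifs
    · exact le_rfl
    · positivity
    · exact (ha _).le
  · intro p _ _
    have h2 := ha (p - 1)
    show (0 : ℝ) < if p = 1 then s / 2 else 1 / (m * (Z : ℝ) ^ (p - 1)) / 2
    split_ifs <;> positivity
  · intro p hp hpK
    show (if p = 1 then s / 2 else 1 / (m * (Z : ℝ) ^ (p - 1)) / 2) +
      ∑ i ∈ Finset.range (k + 1), (if p < i then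
        (if i = k then 0 else if i = 1 then 3 * s / 4 else 1 / (m * (Z : ℝ) ^ (i - 1))) *
        (if i < k then ((2 * (Λ * Z ^ (i - p - 1)) : ℕ) : ℝ) else (((fun _ => 0 : ℕ → ℕ) p : ℕ) : ℝ))
          else 0) ≤
      if p = k then 0 else if p = 1 then 3 * s / 4 else 1 / (m * (Z : ℝ) ^ (p - 1))
    rw [if_neg (show ¬ p = k by omega), Finset.sum_range_succ]
    have e : ∀ i ∈ Finset.range k, (if p < i then
        (if i = k then 0 else if i = 1 then 3 * s / 4 else 1 / (m * (Z : ℝ) ^ (i - 1))) *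
        (if i < k then ((2 * (Λ * Z ^ (i - p - 1)) : ℕ) : ℝ) else (((fun _ => 0 : ℕ → ℕ) p : ℕ) : ℝ))
          else 0) =
        (if p < i then 1 / (m * (Z : ℝ) ^ (i - 1)) * ((2 * (Λ * Z ^ (i - p - 1)) : ℕ) : ℝ) else 0) := by
      intro i hi
      rw [Finset.mem_range] at hi
      by_cases hpi : p < i
      · rw [if_pos hpi, if_pos hpi, if_neg (show ¬ i = k by omega),
          if_neg (show ¬ i = 1 by omega), if_pos hi]
      · rw [if_neg hpi, if_neg hpi]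
    rw [Finset.sum_congr rfl e]
    have h2 := hsum p hp
    simp only [if_true, zero_mul, ite_self, add_zero]
    rcases eq_or_ne p 1 with rfl | hp1
    · rw [if_pos rfl, if_pos rfl]
      simp only [Nat.sub_self, pow_zero, mul_one] at h2
      linarith
    · rw [if_neg hp1, if_neg hp1]
      linarith
  · intro c p hp hpc hc
    show (2 : ℝ) ^ (-(if c - p = 1 then s / 2 else 1 / (m * (Z : ℝ) ^ (c - p - 1)) / 2)) +
      (2 : ℝ) ^ (-(((Λ * Z ^ (p - 1) : ℕ) : ℝ) *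
        (if p = 1 then s / 2 else 1 / (m * (Z : ℝ) ^ (p - 1)) / 2))) ≤ 1
    obtain ⟨h2, h3⟩ := hnet (c - p) (by omega) (by omega)
    have h4 := hthnet p hp
    have h5 : (2 : ℝ) ^ (-(((Λ * Z ^ (p - 1) : ℕ) : ℝ) *
        (if p = 1 then s / 2 else 1 / (m * (Z : ℝ) ^ (p - 1)) / 2))) ≤
        (2 : ℝ) ^ (-((z * (k - 2) + 2 + m : ℕ) : ℝ)) :=
      Real.rpow_le_rpow_of_exponent_le (by norm_num) (neg_le_neg h4)
    have h6 := ha (k - 2)
    have h7 := two_rpow_neg_le (x := if c - p = 1 then s / 2 else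
      1 / (m * (Z : ℝ) ^ (c - p - 1)) / 2) (by linarith) h3
    linarith
  · have h2 := hle1 (k - 2)
    linarith
  · intro p hp hpK
    obtain ⟨h2, h3⟩ := hnet p hp hpK
    exact ⟨h2, h3.trans hΛR⟩
  · intro p hp hpK
    have h2 := hle1 (k - 2)
    exact ⟨by linarith [hthnet p hp], hthle p hp⟩
  · show ∑ j ∈ Finset.Ico 2 k,
      (if j = k then 0 else if j = 1 then 3 * s / 4 else 1 / (m * (Z : ℝ) ^ (j - 1))) *
        ((2 * (Λ * Z ^ (j - 1 - 1)) : ℕ) : ℝ) ≤ γ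
    have h2 : ∑ j ∈ Finset.Ico 2 k,
        (if j = k then 0 else if j = 1 then 3 * s / 4 else 1 / (m * (Z : ℝ) ^ (j - 1))) *
          ((2 * (Λ * Z ^ (j - 1 - 1)) : ℕ) : ℝ) =
        ∑ j ∈ Finset.Ico 2 k, (if 1 < j then 1 / (m * (Z : ℝ) ^ (j - 1)) *
          ((2 * (Λ * Z ^ (j - 1 - 1)) : ℕ) : ℝ) else 0) := by
      refine Finset.sum_congr rfl fun j hj => ?_
      rw [Finset.mem_Ico] at hj
      rw [if_neg (show ¬ j = k by omega), if_neg (show ¬ j = 1 by omega),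
        if_pos (show 1 < j by omega)]
    rw [h2]
    have h3 : ∑ j ∈ Finset.Ico 2 k, (if 1 < j then 1 / (m * (Z : ℝ) ^ (j - 1)) *
          ((2 * (Λ * Z ^ (j - 1 - 1)) : ℕ) : ℝ) else 0) ≤
        ∑ j ∈ Finset.range k, (if 1 < j then 1 / (m * (Z : ℝ) ^ (j - 1)) *
          ((2 * (Λ * Z ^ (j - 1 - 1)) : ℕ) : ℝ) else 0) := by
      refine Finset.sum_le_sum_of_subset_of_nonneg (fun j hj => ?_) fun j _ _ => ?_
      · rw [Finset.mem_Ico] at hj
        rw [Finset.mem_range]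
        exact hj.2
      · split_ifs
        · positivity
        · exact le_rfl
    have h4 := hsum 1 le_rfl
    simp only [Nat.sub_self, pow_zero, mul_one] at h4
    have h5 : (0 : ℝ) < 1 / m := by positivity
    linarith

end Pool.Agent.H46.SK
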