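import Pool.Agent.H46.SK.PHB
import Pool.Agent.H46.SK.STG

/-!
# Parameters
-/

set_option autoImplicit false

namespace Pool.Agent.H46.SK

open Finset Pool.Agent.H14.ETH

/-- All parameters of the algorithm. -/
structure Pars (k : ℕ) (s : ℝ) where
  /-- a bad item costs `w`, a good item costs `y` -/
  w : ℕ
  y : ℝ
  /-- at the end of the last stage at least `n / uq` unit clauses are required -/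
  uq : ℕ
  ε : ℝ
  /-- the stages are `I, I - 1, …, 0` -/
  I : ℕ
  t : ℕ → ℕ
  γ : ℕ → ℝ
  S : (i : ℕ) → Stg k s (γ i)
  /-- loss before stage `i` -/
  d : ℕ → ℝ
  η : ℝ
  κ : ℝ
  hw : 1 ≤ w
  hy : η ≤ y
  kraft : (2 : ℝ) ^ (-(w : ℝ)) + (2 : ℝ) ^ (-y) ≤ 1
  gain : s / 2 ≤ (1 - 1 / 2 ^ w) * s - y - w / 2 ^ w
  huq : 1 ≤ uq
  hε : 0 < ε
  hεu : ε + 1 / uq ≤ 1 / 2 ^ (w + 4)
  hu : 1 / uq < ε / 2 ^ (k - 2)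
  hI : 1 ≤ I
  hη : 0 < η
  hη1 : η ≤ 1
  hηS : ∀ i ≤ I, η ≤ (S i).η
  hγ : ∀ i ≤ I, 0 ≤ γ i
  hd : ∀ i ≤ I, 0 < d i
  hdn : ∀ i < I, d (i + 1) + γ (i + 1) ≤ d i
  hd0 : d 0 + γ 0 ≤ s / (4 * uq)
  ht : ∀ i < I, 2 ^ (w + 4) * (k * Lam (S i).W) ≤ 2 ^ t (i + 1)
  hdt : ∀ i < I, d (i + 1) + γ (i + 1) ≤ s / 16 / 2 ^ t (i + 1)
  hκS : ∀ i ≤ I, (S i).κ ≤ κ
  hκt : ∀ i < I, ∀ n : ℕ,
    (w : ℝ) + 2 + ((t (i + 1) * (Nat.size n + 1) : ℕ) : ℝ) ≤ κ + s / 16 / 2 ^ t (i + 1) * n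
  pig : PigeonAt k (fun i q => (S i).W.th q) ε I

/-- The saving. -/
def Pars.δ {k : ℕ} {s : ℝ} (P : Pars k s) : ℝ := P.d P.I

end Pool.Agent.H46.SK
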