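import Pool.Agent.H46.SK.NDL
import Pool.Agent.H46.SK.ITM

/-!
# Module SND: soundness; acceptance of special nodes

`sound`: induction on `Acc`, with `Pre` for the children from `node_spec` (take `σ = s`).  Leaf, mode 0: if `deadL` or too few units the formula is
`(0, [[]])`, not satisfiable; else `reduceX_sound`.  Leaf, mode 2: `reduceX_sound`.  `ndF`: not accepted.  Inner nodes: mode 0 with hits: `GoodM.step`
(the equivalence) and `satisfiable_iff`; mode 0 without hits: the families of the children have the same `toF` (`GoodM.restart`); modes 1 and 2: the family does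
not change (`start` is `ndF` or a node of mode 2 with the same family).
-/

set_option autoImplicit false

namespace Pool.Agent.H46.SK.Pars

open Finset Pool.Agent.H14.ETH

variable {k : ℕ} {s : ℝ} (P : Pars k s)

/-- Acceptance. -/
abbrev Ac (N : Nd) : Prop := Acc P.leaf P.chA P.chB (fun N => Satisfiable (P.fml N).2) N

theorem snd_not_sat_nil : ¬ Satisfiable [[]] := by
  rintro ⟨a, ha⟩
  obtain ⟨l, hl, _⟩ := ha [] (by simp)
  simp at hl

theorem not_Ac_ndF : ¬ P.Ac ndF := by
  intro h
  have hl : P.leaf ndF = true := by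
    simp [leaf, ndF, Nd.md]
  have hf : P.fml ndF = (0, [[]]) := by
    simp [fml, ndF, Nd.md]
  cases h with
  | leaf _ h2 =>
    simp only [hf] at h2
    exact snd_not_sat_nil h2
  | left h1 _ => rw [hl] at h1; simp at h1
  | right h1 _ => rw [hl] at h1; simp at h1

/-- Leaves. -/
theorem snd_leaf {m : ℕ} {N : Nd} (h : P.Pre m N) (hl : P.leaf N = true)
    (hsat : Satisfiable (P.fml N).2) : Satisfiable (N.oo ++ N.ma) := by
  rcases h with ⟨i, O, M, rfl, _, hg⟩ | ⟨i, L, b, rfl, _, _, _, _⟩ |
    ⟨i, L, R, G, c, rfl, _, hL, _, _, _⟩ | rfl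
  · have e : (nd0 (m + k) i (O, M)).oo ++ (nd0 (m + k) i (O, M)).ma = O ++ M := rfl
    rw [e]
    by_cases hc : (!(deadL (O ++ M)) && decide (m + k ≤ P.uq * (unitL (O ++ M)).length)) = true
    · have hf : P.fml (nd0 (m + k) i (O, M)) = reduceX [] (m + k) (O ++ M) := by
        have h0 : P.fml (nd0 (m + k) i (O, M)) =
            bif !(deadL (O ++ M)) && decide (m + k ≤ P.uq * (unitL (O ++ M)).length) then
              reduceX [] (m + k) (O ++ M) else (0, [[]]) := rfl
        rw [h0, hc]; rfl
      rw [hf] at hsat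
      rw [Bool.and_eq_true] at hc
      refine reduceX_sound hg.linv hg.inv.ov hg.inv.anti ?_ hsat
      intro hd
      rw [← deadL_iff hg.linv] at hd
      rw [hd] at hc
      simp at hc
    · have hf : P.fml (nd0 (m + k) i (O, M)) = (0, [[]]) := by
        have h0 : P.fml (nd0 (m + k) i (O, M)) =
            bif !(deadL (O ++ M)) && decide (m + k ≤ P.uq * (unitL (O ++ M)).length) then
              reduceX [] (m + k) (O ++ M) else (0, [[]]) := rfl
        rw [Bool.not_eq_true] at hc
        rw [h0, hc]; rfl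
      rw [hf] at hsat
      exact absurd hsat snd_not_sat_nil
  · have h0 : P.leaf (nd1 (m + k) i L b) = false := rfl
    rw [h0] at hl
    simp at hl
  · have e : (nd2 (m + k) i L R G c).oo ++ (nd2 (m + k) i L R G c).ma = L := rfl
    have hf : P.fml (nd2 (m + k) i L R G c) = reduceX G (m + k) L := rfl
    rw [e]
    rw [hf] at hsat
    exact reduceX_sound hL.linv hL.ov hL.anti hL.live hsat
  · have hf : P.fml ndF = (0, [[]]) := rfl
    rw [hf] at hsat
    exact absurd hsat snd_not_sat_nil

/-- First children. -/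
theorem snd_left {m : ℕ} {N : Nd} (h : P.Pre m N) (hl : P.leaf N = false)
    (ha : P.Ac (P.chA N)) (hsat : Satisfiable ((P.chA N).oo ++ (P.chA N).ma)) :
    Satisfiable (N.oo ++ N.ma) := by
  rcases h with ⟨i, O, M, rfl, hi, hg⟩ | ⟨i, L, b, rfl, _, _, _, _⟩ |
    ⟨i, L, R, G, c, rfl, _, hL, _, _, _⟩ | rfl
  · have e : (nd0 (m + k) i (O, M)).oo ++ (nd0 (m + k) i (O, M)).ma = O ++ M := rfl
    rw [e]
    have hix : P.ix (nd0 (m + k) i (O, M)) = i := min_eq_left hi
    have hh : P.hits (nd0 (m + k) i (O, M)) = hitsM k (P.S i).W.th O M := by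
      have h0 : P.hits (nd0 (m + k) i (O, M)) =
        hitsM k (P.S (P.ix (nd0 (m + k) i (O, M)))).W.th O M := rfl
      rw [h0, hix]
    have hch : P.chA (nd0 (m + k) i (O, M)) =
        bif (hitsM k (P.S i).W.th O M).isEmpty then nd1 (m + k) i (O ++ M) []
        else nd0 (m + k) i (stepMA k (P.S i).W.th O M) := by
      have h0 : P.chA (nd0 (m + k) i (O, M)) =
          bif (P.hits (nd0 (m + k) i (O, M))).isEmpty then nd1 (m + k) i (O ++ M) []
          else nd0 (m + k) i (stepMA k (P.S (P.ix (nd0 (m + k) i (O, M)))).W.th O M) := rfl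
      rw [h0, hix, hh]
    by_cases hem : hitsM k (P.S i).W.th O M = []
    · rw [hch, hem] at hsat
      exact hsat
    · have hem' : (hitsM k (P.S i).W.th O M).isEmpty = false := by
        rw [List.isEmpty_eq_false_iff]; exact hem
      rw [hch, hem'] at hsat
      have hsat' : Satisfiable ((stepMA k (P.S i).W.th O M).1 ++ (stepMA k (P.S i).W.th O M).2) :=
        hsat
      rw [satisfiable_iff] at hsat' ⊢
      obtain ⟨v, hv⟩ := hsat'
      exact ⟨v, ((hg.step (P.S i) hem).2.2.2.2.1 v).2 (Or.inl hv)⟩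
  · have e : (nd1 (m + k) i L b).oo ++ (nd1 (m + k) i L b).ma = L := rfl
    rw [e]
    have h0 : P.chA (nd1 (m + k) i L b) =
        bif decide (b.length < P.bits (P.ix (nd1 (m + k) i L b)) (m + k)) then
          nd1 (m + k) i L (true :: b)
        else P.start (P.ix (nd1 (m + k) i L b)) (m + k) L b := rfl
    by_cases hb : b.length < P.bits (P.ix (nd1 (m + k) i L b)) (m + k)
    · rw [decide_eq_true hb] at h0
      rw [h0] at hsat
      exact hsat
    · rw [decide_eq_false hb] at h0
      have h1 : P.chA (nd1 (m + k) i L b) = P.start (P.ix (nd1 (m + k) i L b)) (m + k) L b := h0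
      generalize P.ix (nd1 (m + k) i L b) = j at h1
      rw [h1] at hsat ha
      unfold start at hsat ha
      by_cases hc : m + k ≤ 4 * 2 ^ P.t j * (itemsL (m + k) (P.t j) b L).length
      · rw [decide_eq_true hc] at hsat
        exact hsat
      · rw [decide_eq_false hc] at ha
        exact absurd ha P.not_Ac_ndF
  · have e : (nd2 (m + k) i L R G c).oo ++ (nd2 (m + k) i L R G c).ma = L := rfl
    rw [e]
    have h0 : P.chA (nd2 (m + k) i L R G c) =
        bif decide (c = 0) then ndF else nd2 (m + k) i L R.tail G (c - 1) := rfl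
    by_cases hc : c = 0
    · rw [decide_eq_true hc] at h0
      rw [h0] at ha
      exact absurd ha P.not_Ac_ndF
    · rw [decide_eq_false hc] at h0
      rw [h0] at hsat
      exact hsat
  · have h0 : P.leaf ndF = true := rfl
    rw [h0] at hl
    simp at hl

/-- Second children. -/
theorem snd_right {m : ℕ} {N : Nd} (h : P.Pre m N) (hl : P.leaf N = false)
    (ha : P.Ac (P.chB N)) (hsat : Satisfiable ((P.chB N).oo ++ (P.chB N).ma)) :
    Satisfiable (N.oo ++ N.ma) := by
  rcases h with ⟨i, O, M, rfl, hi, hg⟩ | ⟨i, L, b, rfl, _, _, _, _⟩ |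
    ⟨i, L, R, G, c, rfl, _, hL, _, _, _⟩ | rfl
  · have e : (nd0 (m + k) i (O, M)).oo ++ (nd0 (m + k) i (O, M)).ma = O ++ M := rfl
    rw [e]
    have hix : P.ix (nd0 (m + k) i (O, M)) = i := min_eq_left hi
    have hh : P.hits (nd0 (m + k) i (O, M)) = hitsM k (P.S i).W.th O M := by
      have h0 : P.hits (nd0 (m + k) i (O, M)) =
        hitsM k (P.S (P.ix (nd0 (m + k) i (O, M)))).W.th O M := rfl
      rw [h0, hix]
    have hch : P.chB (nd0 (m + k) i (O, M)) =
        bif (hitsM k (P.S i).W.th O M).isEmpty then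
          nd0 (m + k) (i - 1) (nonuL (O ++ M), unitL (O ++ M))
        else nd0 (m + k) i (stepMB k (P.S i).W.th O M) := by
      have h0 : P.chB (nd0 (m + k) i (O, M)) =
          bif (P.hits (nd0 (m + k) i (O, M))).isEmpty then
            nd0 (m + k) (i - 1) (nonuL (O ++ M), unitL (O ++ M))
          else nd0 (m + k) i (stepMB k (P.S (P.ix (nd0 (m + k) i (O, M)))).W.th O M) := rfl
      rw [h0, hix, hh]
    by_cases hem : hitsM k (P.S i).W.th O M = []
    · rw [hch, hem] at hsat
      have hsat' : Satisfiable (nonuL (O ++ M) ++ unitL (O ++ M)) := hsat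
      rw [satisfiable_iff, mrl_toF_perm (mrl_split _)] at hsat'
      rw [satisfiable_iff]
      exact hsat'
    · have hem' : (hitsM k (P.S i).W.th O M).isEmpty = false := by
        rw [List.isEmpty_eq_false_iff]; exact hem
      rw [hch, hem'] at hsat
      have hsat' : Satisfiable ((stepMB k (P.S i).W.th O M).1 ++ (stepMB k (P.S i).W.th O M).2) :=
        hsat
      rw [satisfiable_iff] at hsat' ⊢
      obtain ⟨v, hv⟩ := hsat'
      exact ⟨v, ((hg.step (P.S i) hem).2.2.2.2.1 v).2 (Or.inr hv)⟩
  · have e : (nd1 (m + k) i L b).oo ++ (nd1 (m + k) i L b).ma = L := rfl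
    rw [e]
    have h0 : P.chB (nd1 (m + k) i L b) =
        bif decide (b.length < P.bits (P.ix (nd1 (m + k) i L b)) (m + k)) then
          nd1 (m + k) i L (false :: b)
        else ndF := rfl
    by_cases hb : b.length < P.bits (P.ix (nd1 (m + k) i L b)) (m + k)
    · rw [decide_eq_true hb] at h0
      rw [h0] at hsat
      exact hsat
    · rw [decide_eq_false hb] at h0
      rw [h0] at ha
      exact absurd ha P.not_Ac_ndF
  · have e : (nd2 (m + k) i L R G c).oo ++ (nd2 (m + k) i L R G c).ma = L := rfl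
    rw [e]
    exact hsat
  · have h0 : P.leaf ndF = true := rfl
    rw [h0] at hl
    simp at hl

theorem sound (hk : 3 ≤ k) (hs : 0 < s) {m : ℕ} {N : Nd} (h : P.Pre m N) (ha : P.Ac N) :
    Satisfiable (N.oo ++ N.ma) := by
  induction ha with
  | leaf hl hsat => exact P.snd_leaf h hl hsat
  | left hl hac ih =>
    exact P.snd_left h hl hac (ih (P.node_spec hk hs le_rfl h hl).1)
  | right hl hac ih =>
    exact P.snd_right h hl hac (ih (P.node_spec hk hs le_rfl h hl).2.1)

end Pool.Agent.H46.SK.Pars
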